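import Pool.Graph.R_pool_sql_team_seeded_3997aac3.Q103.FS.Main
import Pool.Graph.R_pool_sql_team_seeded_3997aac3.Q103.FS.Orb
import Pool.Graph.R_seed8.Z864.UB.Main

/-!
# Strong uniform boundedness over all function fields of given gonality, in all characteristics and
# all transcendence degrees
-/

set_option autoImplicit false

namespace Pool.Agent.H421.Any

open Pool.Agent.Q41.SU Pool.Agent.Q41.SP Pool.Agent.Q103.FS
open Pool.Agent.W277.UB Pool.Agent.W277.UG Pool.Agent.W277.UH
open Pool.Agent.Y706.BI Pool.Agent.Y31.BI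
open Pool.Agent.Z864.UB
open Finset Polynomial

universe u v

/-- the bound for orbits, all characteristics -/
theorem orbB (c : ℕ) : OrbB.{u} c := by
  by_cases h : c.Prime
  · intro n d hd
    obtain ⟨B, hB⟩ := orbP.{u} c n d h hd
    refine ⟨B, ?_⟩
    intro k' E _ _ _ _ _ t G _ hG hcard p q hp hq hco P hP hx hiso
    have : Fact c.Prime := ⟨h⟩
    have : CharP E c := charP_of_injective_algebraMap (algebraMap k' E).injective c
    exact hB k' E t G hG hcard p q hp hq hco P hP hx hiso
  · by_cases h0 : c = 0
    · rw [h0]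
      exact orbB_zero.{u}
    · intro n d hd
      refine ⟨0, ?_⟩
      intro k' E _ _ _ _ _ t G _ hG hcard p q hp hq hco P hP hx hiso
      exact absurd (CharP.char_is_prime_or_zero k' c) (by tauto)

lemma finrank_step {k : Type v} {E : Type u} [Field k] [Field E] [Algebra k E] {B : Set E}
    {b : E} (hb : b ∈ B) [hfd : FiniteDimensional (IntermediateField.adjoin k B) E] :
    FiniteDimensional (IntermediateField.adjoin
      (IntermediateField.adjoin k ((B \ {b}) ∪ (∅ : Set E))) {b}) E ∧
    Module.finrank (IntermediateField.adjoin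
      (IntermediateField.adjoin k ((B \ {b}) ∪ (∅ : Set E))) {b}) E =
      Module.finrank (IntermediateField.adjoin k B) E := by
  have h1 : (IntermediateField.adjoin
      (IntermediateField.adjoin k ((B \ {b}) ∪ (∅ : Set E))) {b}).restrictScalars k =
      IntermediateField.adjoin k B := by
    rw [IntermediateField.adjoin_adjoin_left]
    congr 1
    ext y
    simp only [Set.union_empty, Set.mem_union, Set.mem_sdiff, Set.mem_singleton_iff]
    constructor
    · rintro (h | h)
      · exact h.1
      · rw [h]; exact hb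
    · intro h
      by_cases hy : y = b
      · exact Or.inr hy
      · exact Or.inl ⟨h, hy⟩
  have h2 : FiniteDimensional ((IntermediateField.adjoin
      (IntermediateField.adjoin k ((B \ {b}) ∪ (∅ : Set E))) {b}).restrictScalars k) E := by
    rw [h1]
    exact hfd
  have h3 : Module.finrank ((IntermediateField.adjoin
      (IntermediateField.adjoin k ((B \ {b}) ∪ (∅ : Set E))) {b}).restrictScalars k) E =
      Module.finrank (IntermediateField.adjoin k B) E := by
    rw [h1]
  exact ⟨h2, h3⟩

/-- **the length of orbits over function fields of any transcendence degree** -/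
theorem orb_len_any (c : ℕ) : ∀ n d : ℕ, 2 ≤ d → ∃ M : ℕ,
    ∀ (k : Type v) (E : Type u) [Field k] [CharP k c] [Field E] [Algebra k E] (B : Set E),
    AlgebraicIndependent k ((↑) : B → E) → FiniteDimensional (IntermediateField.adjoin k B) E →
    Module.finrank (IntermediateField.adjoin k B) E ≤ n → ∀ p q : E[X], IsCoprime p q →
    max p.natDegree q.natDegree = d → ¬ IsoAlg k p q d →
    ∀ z : Option E, ∀ h : (Set.range fun m : ℕ => (ratP1 p q d)^[m] z).Finite,
      h.toFinset.card ≤ M := by
  classical
  intro n d hd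
  obtain ⟨M, hM⟩ := orb_len.{u, u} (orbB.{u} c) n d hd
  refine ⟨M + (2 * d + 2), ?_⟩
  intro k E _ _ _ _ B hB hfd hn p q hco hmax hiso z hfin
  have ert : rt p q d = ratP1 p q d := by
    funext z
    cases z <;> rfl
  set P : Finset (Option E) := hfin.toFinset with hPdef
  have hmemP : ∀ i, (ratP1 p q d)^[i] z ∈ P := fun i => by
    rw [hPdef, Set.Finite.mem_toFinset]; exact ⟨i, rfl⟩
  have hP : ∀ y ∈ P, rt p q d y ∈ P := by
    intro y hy
    rw [hPdef, Set.Finite.mem_toFinset] at hy
    obtain ⟨m, hm⟩ := hy
    simp only at hm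
    rw [ert, ← hm, ← Function.iterate_succ_apply' (ratP1 p q d)]
    exact hmemP (m + 1)
  by_contra hcon
  push Not at hcon
  apply hiso
  have hspan : ∀ x : E, x ∈ (MM k E).closure B := by
    intro x
    rw [mem_cl]
    exact Algebra.IsAlgebraic.isAlgebraic x
  have hI : (MM k E).Indep B := AlgebraicIndependent.matroid_indep_iff.mpr hB
  refine descent (k := k) hB hspan (fun _ => (∅ : Set E)) (fun b _ => Set.empty_subset _) hd hmax
    hco hP (by omega) ?_
  intro b hb
  have hch : CharP (IntermediateField.adjoin k ((B \ {b}) ∪ (∅ : Set E))) c :=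
    charP_of_injective_algebraMap (algebraMap k _).injective c
  obtain ⟨h1, h2⟩ := finrank_step (k := k) hb (hfd := hfd)
  have htr : Transcendental (IntermediateField.adjoin k ((B \ {b}) ∪ (∅ : Set E))) b := by
    intro h
    have h3 : b ∈ (MM k E).closure ((B \ {b}) ∪ ∅) := mem_cl.mpr h
    rw [Set.union_empty] at h3
    exact hI.notMem_closure_sdiff_of_mem hb h3
  by_contra hni
  have h4 := hM (IntermediateField.adjoin k ((B \ {b}) ∪ (∅ : Set E))) E b htr h1
    (by rw [h2]; exact hn) p q hco hmax ?_ z hfin
  · rw [← hPdef] at h4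
    omega
  · intro hcc
    apply hni
    exact CA_map (isoAlg_of_conjConst hcc)

lemma towerB {k : Type v} {K : Type u} [Field k] [Field K] [Algebra k K] (B : Set K)
    [FiniteDimensional (IntermediateField.adjoin k B) K] (E : Type u) [Field E] [Algebra K E]
    [Algebra k E] [IsScalarTower k K E] [FiniteDimensional K E] :
    FiniteDimensional (IntermediateField.adjoin k (algebraMap K E '' B)) E ∧
    Module.finrank (IntermediateField.adjoin k (algebraMap K E '' B)) E =
      Module.finrank (IntermediateField.adjoin k B) K * Module.finrank K E := by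
  set F := IntermediateField.adjoin k B with hF
  set M := IntermediateField.adjoin k (algebraMap K E '' B) with hM
  have hmap : F.map (IsScalarTower.toAlgHom k K E) = M := by
    rw [hF, IntermediateField.adjoin_map, hM]
    rfl
  let e0 : F ≃ₐ[k] F.map (IsScalarTower.toAlgHom k K E) :=
    IntermediateField.equivMap F (IsScalarTower.toAlgHom k K E)
  let e1 : F.map (IsScalarTower.toAlgHom k K E) ≃ₐ[k] M := IntermediateField.equivOfEq hmap
  let e : F ≃+* M := (e0.trans e1).toRingEquiv
  have hcomm : (algebraMap M E).comp (e : F →+* M) =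
      ((RingEquiv.refl E : E ≃+* E) : E →+* E).comp (algebraMap F E) := RingHom.ext fun _ => rfl
  have h0 : Module.Finite F E := Module.Finite.trans K E
  have h1 : Module.Finite M E := Module.Finite.of_equiv_equiv e (RingEquiv.refl E) hcomm
  refine ⟨h1, ?_⟩
  rw [← Algebra.finrank_eq_of_equiv_equiv e (RingEquiv.refl E) hcomm]
  exact (Module.finrank_mul_finrank F K E).symm

/-- **points of bounded degree, any transcendence degree** -/
theorem bdg_any (c : ℕ) : ∀ n D d : ℕ, 2 ≤ d → ∃ N : ℕ,
    ∀ (k : Type v) (K : Type u) [Field k] [CharP k c] [Field K] [Algebra k K] (B : Set K),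
    AlgebraicIndependent k ((↑) : B → K) → FiniteDimensional (IntermediateField.adjoin k B) K →
    Module.finrank (IntermediateField.adjoin k B) K ≤ n →
    ∀ (L : IntermediateField K (AlgebraicClosure K)), FiniteDimensional K L →
    Module.finrank K L ≤ D → ∀ P Q : (AlgebraicClosure K)[X], (∀ m, P.coeff m ∈ L) →
    (∀ m, Q.coeff m ∈ L) → IsCoprime P Q → max P.natDegree Q.natDegree = d →
    ¬ IsoAlg k P Q d →
    {z : Option (AlgebraicClosure K) |
      (Set.range fun m : ℕ => (ratP1 P Q d)^[m] z).Finite ∧
      ∀ x, z = some x → ∃ E : IntermediateField K (AlgebraicClosure K), FiniteDimensional K E ∧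
        Module.finrank K E ≤ D ∧ x ∈ E}.encard ≤ ((N : ℕ) : ℕ∞) := by
  classical
  intro n D d hd
  obtain ⟨M, hM⟩ := orb_len_any.{u, v} c (n * (D * (D + 1))) d hd
  refine ⟨(M + 1) * ((M + 1) * (2 * d ^ M + 1)), ?_⟩
  intro k K _ _ _ _ B hB hfd hn L hLfd hLD P Q hPL hQL hPQ hmax hiso
  set F := AlgebraicClosure K with hF
  have hPd : P.natDegree ≤ d := (le_max_left _ _).trans hmax.le
  have hQd : Q.natDegree ≤ d := (le_max_right _ _).trans hmax.le
  have htop : P.coeff d ≠ 0 ∨ Q.coeff d ≠ 0 := by
    have key : ∀ g : F[X], g.natDegree = d → g.coeff d ≠ 0 := by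
      intro g hg
      rw [← hg, coeff_natDegree, Ne, leadingCoeff_eq_zero]
      rintro rfl
      rw [natDegree_zero] at hg
      omega
    rcases le_total P.natDegree Q.natDegree with h | h
    · right
      exact key Q ((max_eq_right h).symm.trans hmax)
    · left
      exact key P ((max_eq_left h).symm.trans hmax)
  have hmain : ∀ z : Option F, (Set.range fun m : ℕ => (ratP1 P Q d)^[m] z).Finite →
      (∀ x, z = some x → ∃ E : IntermediateField K F, FiniteDimensional K E ∧
        Module.finrank K E ≤ D ∧ x ∈ E) →
      ∃ a b : ℕ, b < a ∧ a ≤ M ∧ (ratP1 P Q d)^[a] z = (ratP1 P Q d)^[b] z := by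
    intro z hz1 hz2
    obtain ⟨E₀, hE1, hE2, hE3⟩ : ∃ E₀ : IntermediateField K F, FiniteDimensional K E₀ ∧
        Module.finrank K E₀ ≤ D + 1 ∧ ∀ x, z = some x → x ∈ E₀ := by
      cases z with
      | none =>
        refine ⟨⊥, inferInstance, ?_, fun x hx => by simp at hx⟩
        rw [IntermediateField.finrank_bot]
        omega
      | some x =>
        obtain ⟨E, h1, h2, h3⟩ := hz2 x rfl
        refine ⟨E, h1, by omega, fun y hy => ?_⟩
        rw [← Option.some.inj hy]
        exact h3
    set E : IntermediateField K F := L ⊔ E₀ with hE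
    have hLE : L ≤ E := le_sup_left
    have hE0E : E₀ ≤ E := le_sup_right
    have hEfd : FiniteDimensional K E := IntermediateField.finiteDimensional_sup L E₀
    have hEfr : Module.finrank K E ≤ D * (D + 1) :=
      (IntermediateField.finrank_sup_le L E₀).trans (Nat.mul_le_mul hLD hE2)
    obtain ⟨y, hy⟩ : ∃ y : Option E, y.map (algebraMap E F) = z := by
      cases z with
      | none => exact ⟨none, rfl⟩
      | some x => exact ⟨some ⟨x, hE0E (hE3 x rfl)⟩, rfl⟩
    -- the tower
    have hkEF : IsScalarTower k E F := IsScalarTower.of_algebraMap_eq fun x => rfl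
    have hinjE : Function.Injective (algebraMap K E) := (algebraMap K E).injective
    have hB' : AlgebraicIndependent k ((↑) : (algebraMap K E '' B : Set E) → E) := by
      have h1 : AlgebraicIndependent k (fun b : B => algebraMap K E (b : K)) :=
        hB.map' (f := IsScalarTower.toAlgHom k K E) hinjE
      exact AlgebraicIndependent.coe_range h1 |> fun h => by
        have e : (Set.range fun b : B => algebraMap K E (b : K)) = algebraMap K E '' B := by
          ext y
          simp [Set.mem_image]
        rw [← e]
        exact h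
    have hT := towerB (k := k) B E
    obtain ⟨p, hp⟩ : ∃ p : E[X], p.map (algebraMap E F) = P := by
      have : P ∈ lifts (algebraMap E F) := by
        rw [lifts_iff_coeff_lifts]
        exact fun m => ⟨⟨P.coeff m, hLE (hPL m)⟩, rfl⟩
      exact (mem_lifts P).mp this
    obtain ⟨q, hq⟩ : ∃ q : E[X], q.map (algebraMap E F) = Q := by
      have : Q ∈ lifts (algebraMap E F) := by
        rw [lifts_iff_coeff_lifts]
        exact fun m => ⟨⟨Q.coeff m, hLE (hQL m)⟩, rfl⟩
      exact (mem_lifts Q).mp this
    have hco : IsCoprime p q := by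
      rw [← Polynomial.isCoprime_map (algebraMap E F), hp, hq]
      exact hPQ
    have hmaxE : max p.natDegree q.natDegree = d := by
      rw [← hmax, ← hp, ← hq, natDegree_map, natDegree_map]
    have hnc : ¬ IsoAlg k p q d := by
      intro h
      apply hiso
      have h1 := isoAlg_map (IsScalarTower.toAlgHom k E F) h
      have h2 : ((IsScalarTower.toAlgHom k E F : E →ₐ[k] F) : E →+* F) = algebraMap E F := rfl
      rw [h2, hp, hq] at h1
      exact h1
    have hyfin : (Set.range fun m : ℕ => (ratP1 p q d)^[m] y).Finite := by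
      apply pre_map (algebraMap E F)
      rw [hp, hq, hy]
      exact hz1
    have hB2 := hM k E (algebraMap K E '' B) hB' hT.1 (by
        rw [hT.2]
        exact Nat.mul_le_mul hn hEfr) p q hco hmaxE hnc y hyfin
    obtain ⟨a, b, hab, ha, h⟩ := pigeon (ratP1 p q d) y
      (Set.range fun m : ℕ => (ratP1 p q d)^[m] y) M (by
        rw [hyfin.encard_eq_coe_toFinset_card]
        exact_mod_cast hB2) (fun m => ⟨m, rfl⟩)
    refine ⟨a, b, hab, ha, ?_⟩
    have h1 := congrArg (Option.map (algebraMap E F)) h
    rw [← ratP1_iter_map, ← ratP1_iter_map, hp, hq, hy] at h1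
    exact h1
  have hcov : {z : Option F | (Set.range fun m : ℕ => (ratP1 P Q d)^[m] z).Finite ∧
      ∀ x, z = some x → ∃ E : IntermediateField K F, FiniteDimensional K E ∧
        Module.finrank K E ≤ D ∧ x ∈ E} ⊆ ⋃ a ∈ Finset.range (M + 1), ⋃ b ∈ Finset.range (M + 1),
          {z : Option F | b < a ∧ (ratP1 P Q d)^[a] z = (ratP1 P Q d)^[b] z} := by
    rintro z ⟨hz1, hz2⟩
    obtain ⟨a, b, hab, ha, h⟩ := hmain z hz1 hz2
    simp only [Set.mem_iUnion, Finset.mem_range]
    exact ⟨a, by omega, b, by omega, hab, h⟩
  have hone : ∀ a ∈ Finset.range (M + 1), ∀ b ∈ Finset.range (M + 1),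
      {z : Option F | b < a ∧ (ratP1 P Q d)^[a] z = (ratP1 P Q d)^[b] z}.encard ≤
        ((2 * d ^ M + 1 : ℕ) : ℕ∞) := by
    intro a ha b _
    rw [Finset.mem_range] at ha
    by_cases hab : b < a
    · refine (Set.encard_le_encard ?_).trans ((coin hd hPd hQd hPQ htop hab).trans ?_)
      · exact fun z hz => hz.2
      · have h1 : 2 * d ^ a + 1 ≤ 2 * d ^ M + 1 := by
          have := Nat.pow_le_pow_right (show 0 < d by omega) (show a ≤ M by omega)
          omega
        exact_mod_cast h1
    · have h1 : {z : Option F | b < a ∧ (ratP1 P Q d)^[a] z = (ratP1 P Q d)^[b] z} = ∅ := by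
        ext z
        simp [hab]
      rw [h1, Set.encard_empty]
      exact bot_le
  refine (Set.encard_le_encard hcov).trans
    (union_bound _ _ _ fun a ha => union_bound _ _ _ fun b hb => ?_)
  exact hone a ha b hb

/-- **points of bounded gonality, any transcendence degree** -/
theorem gon_any (c : ℕ) : ∀ D d : ℕ, 2 ≤ d → ∃ N : ℕ,
    ∀ (k : Type v) (K : Type u) [Field k] [CharP k c] [Field K] [Algebra k K] (p q : K[X]),
    IsCoprime p q → max p.natDegree q.natDegree = d →
    ¬ IsoAlg k (p.map (algebraMap K (AlgebraicClosure K)))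
      (q.map (algebraMap K (AlgebraicClosure K))) d →
    {z : Option (AlgebraicClosure K) |
      (Set.range fun m : ℕ => (ratP1 (p.map (algebraMap K (AlgebraicClosure K)))
        (q.map (algebraMap K (AlgebraicClosure K))) d)^[m] z).Finite ∧
      ∀ x, z = some x → ∃ B : Set (IntermediateField.adjoin K {x}),
        AlgebraicIndependent k ((↑) : B → IntermediateField.adjoin K {x}) ∧
        FiniteDimensional (IntermediateField.adjoin k B) (IntermediateField.adjoin K {x}) ∧
        Module.finrank (IntermediateField.adjoin k B) (IntermediateField.adjoin K {x}) ≤ D}.encard ≤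
      ((N : ℕ) : ℕ∞) := by
  classical
  intro D d hd
  obtain ⟨M, hM⟩ := orb_len_any.{u, v} c D d hd
  refine ⟨1 + (M + 1) * ((M + 1) * (2 * d ^ M + 1)), ?_⟩
  intro k K _ _ _ _ p₀ q₀ hco₀ hmax₀ hiso
  set F := AlgebraicClosure K with hF
  set P : F[X] := p₀.map (algebraMap K F) with hP
  set Q : F[X] := q₀.map (algebraMap K F) with hQ
  have hPQ : IsCoprime P Q := (Polynomial.isCoprime_map _).mpr hco₀
  have hmax : max P.natDegree Q.natDegree = d := by
    rw [hP, hQ, natDegree_map, natDegree_map]
    exact hmax₀
  have hPd : P.natDegree ≤ d := (le_max_left _ _).trans hmax.le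
  have hQd : Q.natDegree ≤ d := (le_max_right _ _).trans hmax.le
  have htop : P.coeff d ≠ 0 ∨ Q.coeff d ≠ 0 := by
    have key : ∀ g : F[X], g.natDegree = d → g.coeff d ≠ 0 := by
      intro g hg
      rw [← hg, coeff_natDegree, Ne, leadingCoeff_eq_zero]
      rintro rfl
      rw [natDegree_zero] at hg
      omega
    rcases le_total P.natDegree Q.natDegree with h | h
    · right
      exact key Q ((max_eq_right h).symm.trans hmax)
    · left
      exact key P ((max_eq_left h).symm.trans hmax)
  have hmain : ∀ (x : F) (E : IntermediateField K F), x ∈ E →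
      (Set.range fun m : ℕ => (ratP1 P Q d)^[m] (some x)).Finite →
      (∃ B : Set E, AlgebraicIndependent k ((↑) : B → E) ∧
        FiniteDimensional (IntermediateField.adjoin k B) E ∧
        Module.finrank (IntermediateField.adjoin k B) E ≤ D) →
      ∃ a b : ℕ, b < a ∧ a ≤ M ∧ (ratP1 P Q d)^[a] (some x) = (ratP1 P Q d)^[b] (some x) := by
    rintro x E hxE hz1 ⟨B, hB, hBf, hBD⟩
    have hkEF : IsScalarTower k E F := IsScalarTower.of_algebraMap_eq fun x => rfl
    set y : Option E := some ⟨x, hxE⟩ with hydef
    have hy : y.map (algebraMap E F) = some x := rfl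
    have hp : (p₀.map (algebraMap K E)).map (algebraMap E F) = P := by
      rw [Polynomial.map_map]
      rfl
    have hq : (q₀.map (algebraMap K E)).map (algebraMap E F) = Q := by
      rw [Polynomial.map_map]
      rfl
    obtain ⟨p, hpd⟩ : ∃ p, p = p₀.map (algebraMap K E) := ⟨_, rfl⟩
    obtain ⟨q, hqd⟩ : ∃ q, q = q₀.map (algebraMap K E) := ⟨_, rfl⟩
    rw [← hpd] at hp
    rw [← hqd] at hq
    have hco : IsCoprime p q := by
      rw [hpd, hqd]
      exact (Polynomial.isCoprime_map _).mpr hco₀
    have hmaxE : max p.natDegree q.natDegree = d := by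
      rw [hpd, hqd, natDegree_map, natDegree_map]
      exact hmax₀
    have hnc : ¬ IsoAlg k p q d := by
      intro h
      apply hiso
      have h1 := isoAlg_map (IsScalarTower.toAlgHom k E F) h
      have h2 : ((IsScalarTower.toAlgHom k E F : E →ₐ[k] F) : E →+* F) = algebraMap E F := rfl
      rw [h2, hp, hq] at h1
      exact h1
    have hyfin : (Set.range fun m : ℕ => (ratP1 p q d)^[m] y).Finite := by
      apply pre_map (algebraMap E F)
      rw [hp, hq, hy]
      exact hz1
    have hB2 := hM k E B hB hBf hBD p q hco hmaxE hnc y hyfin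
    obtain ⟨a, b, hab, ha, h⟩ := pigeon (ratP1 p q d) y
      (Set.range fun m : ℕ => (ratP1 p q d)^[m] y) M (by
        rw [hyfin.encard_eq_coe_toFinset_card]
        exact_mod_cast hB2) (fun m => ⟨m, rfl⟩)
    refine ⟨a, b, hab, ha, ?_⟩
    have h1 := congrArg (Option.map (algebraMap E F)) h
    rw [← ratP1_iter_map, ← ratP1_iter_map, hp, hq, hy] at h1
    exact h1
  have hcov : {z : Option F | (Set.range fun m : ℕ => (ratP1 P Q d)^[m] z).Finite ∧
      ∀ x, z = some x → ∃ B : Set (IntermediateField.adjoin K {x}),
        AlgebraicIndependent k ((↑) : B → IntermediateField.adjoin K {x}) ∧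
        FiniteDimensional (IntermediateField.adjoin k B) (IntermediateField.adjoin K {x}) ∧
        Module.finrank (IntermediateField.adjoin k B) (IntermediateField.adjoin K {x}) ≤ D} ⊆
      {none} ∪ ⋃ a ∈ Finset.range (M + 1), ⋃ b ∈ Finset.range (M + 1),
          {z : Option F | b < a ∧ (ratP1 P Q d)^[a] z = (ratP1 P Q d)^[b] z} := by
    rintro z ⟨hz1, hz2⟩
    cases z with
    | none => exact Or.inl rfl
    | some x =>
      right
      obtain ⟨a, b, hab, ha, h⟩ := hmain x (IntermediateField.adjoin K {x})
        (IntermediateField.mem_adjoin_simple_self K x) hz1 (hz2 x rfl)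
      simp only [Set.mem_iUnion, Finset.mem_range]
      exact ⟨a, by omega, b, by omega, hab, h⟩
  have hone : ∀ a ∈ Finset.range (M + 1), ∀ b ∈ Finset.range (M + 1),
      {z : Option F | b < a ∧ (ratP1 P Q d)^[a] z = (ratP1 P Q d)^[b] z}.encard ≤
        ((2 * d ^ M + 1 : ℕ) : ℕ∞) := by
    intro a ha b _
    rw [Finset.mem_range] at ha
    by_cases hab : b < a
    · refine (Set.encard_le_encard ?_).trans ((coin hd hPd hQd hPQ htop hab).trans ?_)
      · exact fun z hz => hz.2
      · have h1 : 2 * d ^ a + 1 ≤ 2 * d ^ M + 1 := by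
          have := Nat.pow_le_pow_right (show 0 < d by omega) (show a ≤ M by omega)
          omega
        exact_mod_cast h1
    · have h1 : {z : Option F | b < a ∧ (ratP1 P Q d)^[a] z = (ratP1 P Q d)^[b] z} = ∅ := by
        ext z
        simp [hab]
      rw [h1, Set.encard_empty]
      exact bot_le
  have hfin := union_bound M _ _ fun a ha => union_bound M _ _ fun b hb => hone a ha b hb
  refine (Set.encard_le_encard hcov).trans ((Set.encard_union_le _ _).trans ?_)
  rw [Set.encard_singleton]
  push_cast
  push_cast at hfin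
  gcongr

end Pool.Agent.H421.Any
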