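import Pool.Agent.H421.CyDef
import Pool.Agent.H422.HE.Pow

/-!
# Cycles and cross ratios: the abstract bound

A sequence of `n` points of the projective line whose chordal distances are, at every prime outside a
finite set, either *cyclic* (as those of a cycle of a map with good reduction) or `m`-th powers up to
a normalisation: `n` is bounded.
-/

set_option autoImplicit false

open Polynomial NumberField IsDedekindDomain Pool.Agent.H422.HE

namespace Pool.Agent.H421.Cy

section alg

variable {K : Type} [Field K]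

lemma plucker (a b c d : K × K) :
    det a b * det c d - det a c * det b d + det a d * det b c = 0 := by
  simp only [det]; ring

lemma det_swap (a b : K × K) : det a b = - det b a := by
  simp only [det]; ring

end alg

section cls

variable {Γ : Type} [LinearOrderedCommGroupWithZero Γ]

/-- cyclic system of distances: `E` is the distance as a function of the difference of the indices -/
structure Cyc (N : ℕ) (E : ℕ → Γ) : Prop where
  zero : E 0 = 0
  add : ∀ a b, E (a + b) ≤ max (E a) (E b)
  per : ∀ a, E (a + N) = E a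

lemma Cyc.mul_le {N : ℕ} {E : ℕ → Γ} (h : Cyc N E) (a u : ℕ) : E (u * a) ≤ E a := by
  induction u with
  | zero => rw [zero_mul, h.zero]; exact zero_le
  | succ u ih =>
    rw [Nat.succ_mul]
    exact (h.add _ _).trans (max_le ih le_rfl)

lemma Cyc.per_mul {N : ℕ} {E : ℕ → Γ} (h : Cyc N E) (a k : ℕ) : E (a + k * N) = E a := by
  induction k with
  | zero => simp
  | succ k ih => rw [Nat.succ_mul, ← add_assoc, h.per, ih]

lemma Cyc.congr {N : ℕ} {E : ℕ → Γ} (h : Cyc N E) {a b : ℕ} (hab : a ≡ b [MOD N]) : E a = E b := by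
  have key : ∀ a b : ℕ, a ≤ b → a ≡ b [MOD N] → E a = E b := by
    intro a b hle hab
    obtain ⟨k, hk⟩ := (Nat.modEq_iff_dvd' hle).mp hab
    have : b = a + k * N := by rw [mul_comm k N, ← hk]; omega
    rw [this, h.per_mul]
  rcases le_total a b with h1 | h1
  · exact key a b h1 hab
  · exact (key b a h1 hab.symm).symm

/-- the distance only depends on the class of the difference -/
lemma Cyc.unit_mul {N : ℕ} {E : ℕ → Γ} (h : Cyc N E) {u : ℕ} (hu : Nat.Coprime u N) (hN : 0 < N)
    (a : ℕ) : E (u * a) = E a := by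
  refine le_antisymm (h.mul_le a u) ?_
  rcases Nat.eq_or_lt_of_le (show 1 ≤ N from hN) with h1 | h1
  · -- `N = 1`: everything vanishes
    have hz : ∀ b, E b = 0 := fun b => by
      rw [h.congr (a := b) (b := 0) (by rw [← h1]; exact Nat.modEq_one), h.zero]
    rw [hz, hz]
  obtain ⟨w, hw⟩ := Nat.exists_mul_mod_eq_one_of_coprime hu h1
  have h2 : a ≡ w * (u * a) [MOD N] := by
    have h3 : u * w ≡ 1 [MOD N] := by
      rw [Nat.ModEq, hw.2, Nat.mod_eq_of_lt h1]
    have h4 := (h3.mul_right a).symm
    rw [one_mul] at h4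
    have h5 : u * w * a = w * (u * a) := by ring
    rwa [h5] at h4
  rw [h.congr h2]
  exact h.mul_le _ _

lemma Cyc.sub {N h : ℕ} {E : ℕ → Γ} (hE : Cyc (N * h) E) : Cyc N (fun j => E (j * h)) where
  zero := by simp only [zero_mul]; exact hE.zero
  add a b := by simp only [add_mul]; exact hE.add _ _
  per a := by simp only [add_mul]; exact hE.per _

end cls

section loc

variable {K : Type} [Field K] [NumberField K]

/-- the distances of the points `p i` at `v` are, up to a normalisation and possibly in a larger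
value group, those of a cycle of length `n` of a map with good reduction -/
def CycAt (v : HeightOneSpectrum (𝓞 K)) (n : ℕ) (p : ℕ → K × K) : Prop :=
  ∃ (Γ : Type) (_ : LinearOrderedCommGroupWithZero Γ) (j : WithZero (Multiplicative ℤ) →*₀ Γ)
    (s E : ℕ → Γ), Function.Injective j ∧ (∀ i, s i ≠ 0) ∧ Cyc n E ∧
    ∀ a b, a ≤ b → j (v.valuation K (det (p a) (p b))) = s a * s b * E (b - a)

/-- the distances of the points `p i` at `v` are, up to a normalisation, `m`-th powers -/
def PowAt (v : HeightOneSpectrum (𝓞 K)) (m : ℕ) (p : ℕ → K × K) : Prop :=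
  ∃ (s : ℕ → WithZero (Multiplicative ℤ)) (c : WithZero (Multiplicative ℤ)), (∀ i, s i ≠ 0) ∧
    c ≠ 0 ∧ ∀ a b, ∃ g, v.valuation K (det (p a) (p b)) = c * (s a * s b) * g ^ m

/-- the finite set of the first case -/
def L1 (K : Type) [Field K] [NumberField K] (S : Set (HeightOneSpectrum (𝓞 K))) (m : ℕ) : Set K :=
  {x : K | ∀ v ∉ S, (∃ g, v.valuation K x = g ^ m) ∧ ∃ g, v.valuation K (x - 1) = g ^ m}

/-- the finite set of the second case -/
def L2 (K : Type) [Field K] [NumberField K] (S : Set (HeightOneSpectrum (𝓞 K))) (m : ℕ) : Set K :=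
  {x : K | ∀ v ∉ S, (∃ g, v.valuation K x = g ^ m) ∧ IsSquare (v.valuation K (x + 1))}

lemma L1_finite {S : Set (HeightOneSpectrum (𝓞 K))} (hS : S.Finite) {m : ℕ} (hm : 4 ≤ m) :
    (L1 K S m).Finite := by
  classical
  refine (pow_fin K hS (R := {0, 1}) (Or.inl ⟨hm, by rw [Finset.card_pair zero_ne_one]⟩)).subset ?_
  intro x hx v hv r hr
  rw [Finset.mem_insert, Finset.mem_singleton] at hr
  rcases hr with rfl | rfl
  · rw [sub_zero]; exact (hx v hv).1
  · exact (hx v hv).2

lemma L2_finite {S : Set (HeightOneSpectrum (𝓞 K))} (hS : S.Finite) {m : ℕ} (hm : 5 ≤ m) :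
    (L2 K S m).Finite := by
  classical
  obtain ⟨T, hT0, hT⟩ := sel_pow (K := K) (m := m) (by omega) S hS
  have hfin : ∀ t ∈ T, {w : K | ∀ v ∉ S, IsSquare (v.valuation K ((C t * X ^ m + C 1 : K[X]).eval w))}.Finite := by
    intro t ht
    refine hyper_val K hS ?_ ?_
    · exact (sep_one (by omega) (hT0 t ht) one_ne_zero).1
    · rw [natDegree_add_C, natDegree_C_mul_X_pow _ _ (hT0 t ht)]
      exact hm
  refine ((T.finite_toSet.biUnion fun t ht => (hfin t ht).image (fun w => t * w ^ m)).union
    (Set.finite_singleton 0)).subset ?_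
  intro x hx
  by_cases h0 : x = 0
  · right; exact h0
  left
  obtain ⟨t, ht, b, -, hb⟩ := hT x h0 (fun v hv => (hx v hv).1)
  simp only [Set.mem_iUnion]
  refine ⟨t, ht, b, ?_, hb.symm⟩
  intro v hv
  have h1 := (hx v hv).2
  rw [hb] at h1
  simpa using h1

end loc

end Pool.Agent.H421.Cy
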