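import Pool.Agent.H421.CyA

/-!
# Cross ratios of four points of a cycle at one prime
-/

set_option autoImplicit false

open Polynomial NumberField IsDedekindDomain Pool.Agent.H422.HE

namespace Pool.Agent.H421.Cy

variable {K : Type} [Field K] [NumberField K]

/-- `m`-th power, one prime -/
lemma quot_pow {v : HeightOneSpectrum (𝓞 K)} {m : ℕ} {x y : K} {σ : WithZero (Multiplicative ℤ)}
    (hσ : σ ≠ 0) (hx : ∃ g, v.valuation K x = σ * g ^ m) (hy : ∃ g, v.valuation K y = σ * g ^ m) :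
    ∃ g, v.valuation K (x / y) = g ^ m := by
  obtain ⟨g, hg⟩ := hx
  obtain ⟨g', hg'⟩ := hy
  refine ⟨g / g', ?_⟩
  rw [map_div₀, hg, hg', mul_div_mul_left _ _ hσ, div_pow]

lemma PowAt.four {v : HeightOneSpectrum (𝓞 K)} {m : ℕ} {p : ℕ → K × K} (h : PowAt v m p)
    (a b c d : ℕ) : ∃ σ : WithZero (Multiplicative ℤ), σ ≠ 0 ∧
      (∃ g, v.valuation K (det (p a) (p b) * det (p c) (p d)) = σ * g ^ m) ∧
      (∃ g, v.valuation K (det (p a) (p c) * det (p b) (p d)) = σ * g ^ m) ∧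
      (∃ g, v.valuation K (det (p a) (p d) * det (p b) (p c)) = σ * g ^ m) := by
  obtain ⟨s, e, hs, he, hg⟩ := h
  refine ⟨e * e * (s a * s b * (s c * s d)), mul_ne_zero (mul_ne_zero he he)
    (mul_ne_zero (mul_ne_zero (hs _) (hs _)) (mul_ne_zero (hs _) (hs _))), ?_, ?_, ?_⟩
  · obtain ⟨g1, h1⟩ := hg a b
    obtain ⟨g2, h2⟩ := hg c d
    refine ⟨g1 * g2, ?_⟩
    rw [map_mul, h1, h2, mul_pow, mul_mul_mul_comm, mul_mul_mul_comm e]
  · obtain ⟨g1, h1⟩ := hg a c
    obtain ⟨g2, h2⟩ := hg b d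
    refine ⟨g1 * g2, ?_⟩
    rw [map_mul, h1, h2, mul_pow, mul_mul_mul_comm, mul_mul_mul_comm e,
      mul_mul_mul_comm (s a) (s c)]
  · obtain ⟨g1, h1⟩ := hg a d
    obtain ⟨g2, h2⟩ := hg b c
    refine ⟨g1 * g2, ?_⟩
    rw [map_mul, h1, h2, mul_pow, mul_mul_mul_comm, mul_mul_mul_comm e,
      mul_mul_mul_comm (s a) (s d), mul_comm (s d) (s c)]

section raw

variable {v : HeightOneSpectrum (𝓞 K)} {n : ℕ} {p : ℕ → K × K} {Γ : Type}
  [LinearOrderedCommGroupWithZero Γ] {j : WithZero (Multiplicative ℤ) →*₀ Γ} {s E : ℕ → Γ}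

lemma raw_four (hd : ∀ a b, a ≤ b → j (v.valuation K (det (p a) (p b))) = s a * s b * E (b - a))
    {a b c d : ℕ} (hab : a ≤ b) (hbc : b ≤ c) (hcd : c ≤ d) :
    j (v.valuation K (det (p a) (p b) * det (p c) (p d))) =
      s a * s b * (s c * s d) * (E (b - a) * E (d - c)) ∧
    j (v.valuation K (det (p a) (p c) * det (p b) (p d))) =
      s a * s b * (s c * s d) * (E (c - a) * E (d - b)) ∧
    j (v.valuation K (det (p a) (p d) * det (p b) (p c))) =
      s a * s b * (s c * s d) * (E (d - a) * E (c - b)) := by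
  refine ⟨?_, ?_, ?_⟩
  · rw [map_mul, map_mul, hd a b hab, hd c d hcd]
    exact mul_mul_mul_comm _ _ _ _
  · rw [map_mul, map_mul, hd a c (by omega), hd b d (by omega), mul_mul_mul_comm (s a * s c),
      mul_mul_mul_comm (s a) (s c)]
  · rw [map_mul, map_mul, hd a d (by omega), hd b c hbc, mul_mul_mul_comm (s a * s d),
      mul_mul_mul_comm (s a) (s d), mul_comm (s d) (s c)]

end raw

/-- first case, good primes -/
lemma CycAt.unit {v : HeightOneSpectrum (𝓞 K)} {N h : ℕ} {p : ℕ → K × K}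
    (hc : CycAt v (N * h) p) (hN : 0 < N) {a b c d : ℕ} (hab : a ≤ b) (hbc : b ≤ c) (hcd : c ≤ d)
    (h1 : Nat.Coprime (b - a) N) (h2 : Nat.Coprime (d - c) N) (h3 : Nat.Coprime (c - a) N)
    (h4 : Nat.Coprime (d - b) N) (h5 : Nat.Coprime (d - a) N) (h6 : Nat.Coprime (c - b) N) :
    v.valuation K (det (p (a * h)) (p (b * h)) * det (p (c * h)) (p (d * h))) =
      v.valuation K (det (p (a * h)) (p (c * h)) * det (p (b * h)) (p (d * h))) ∧
    v.valuation K (det (p (a * h)) (p (d * h)) * det (p (b * h)) (p (c * h))) =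
      v.valuation K (det (p (a * h)) (p (c * h)) * det (p (b * h)) (p (d * h))) := by
  obtain ⟨Γ, _, j, s, E, hj, hs, hE, hd⟩ := hc
  obtain ⟨r1, r2, r3⟩ := raw_four hd (Nat.mul_le_mul_right h hab) (Nat.mul_le_mul_right h hbc)
    (Nat.mul_le_mul_right h hcd)
  have hu : ∀ u w : ℕ, Nat.Coprime (w - u) N → E (w * h - u * h) = E h := by
    intro u w huw
    have := (hE.sub).unit_mul huw hN 1
    simp only [mul_one, one_mul] at this
    rw [← Nat.sub_mul, this]
  rw [hu _ _ h1, hu _ _ h2] at r1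
  rw [hu _ _ h3, hu _ _ h4] at r2
  rw [hu _ _ h5, hu _ _ h6] at r3
  exact ⟨hj (r1.trans r2.symm), hj (r3.trans r2.symm)⟩

/-- second case, good primes: a unit -/
lemma CycAt.unit' {v : HeightOneSpectrum (𝓞 K)} {N h : ℕ} {p : ℕ → K × K}
    (hc : CycAt v (N * h) p) (hN : 0 < N) {a b c d : ℕ} (hab : a ≤ b) (hbc : b ≤ c) (hcd : c ≤ d)
    (h1 : Nat.Coprime (b - a) N) (h2 : Nat.Coprime (d - c) N)
    (h5 : Nat.Coprime (d - a) N) (h6 : Nat.Coprime (c - b) N) :
    v.valuation K (det (p (a * h)) (p (b * h)) * det (p (c * h)) (p (d * h))) =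
      v.valuation K (det (p (a * h)) (p (d * h)) * det (p (b * h)) (p (c * h))) := by
  obtain ⟨Γ, _, j, s, E, hj, hs, hE, hd⟩ := hc
  obtain ⟨r1, r2, r3⟩ := raw_four hd (Nat.mul_le_mul_right h hab) (Nat.mul_le_mul_right h hbc)
    (Nat.mul_le_mul_right h hcd)
  have hu : ∀ u w : ℕ, Nat.Coprime (w - u) N → E (w * h - u * h) = E h := by
    intro u w huw
    have := (hE.sub).unit_mul huw hN 1
    simp only [mul_one, one_mul] at this
    rw [← Nat.sub_mul, this]
  rw [hu _ _ h1, hu _ _ h2] at r1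
  rw [hu _ _ h5, hu _ _ h6] at r3
  exact hj (r1.trans r3.symm)

/-- second case, good primes: a square -/
lemma raw_square {v : HeightOneSpectrum (𝓞 K)} {p : ℕ → K × K} {Γ : Type}
    [LinearOrderedCommGroupWithZero Γ] {j : WithZero (Multiplicative ℤ) →*₀ Γ} {s E : ℕ → Γ}
    (hj : Function.Injective j) (hs : ∀ i, s i ≠ 0)
    (hd : ∀ a b, a ≤ b → j (v.valuation K (det (p a) (p b))) = s a * s b * E (b - a))
    {x1 x2 x3 : ℕ} (h12 : x1 ≤ x2) (h23 : x2 ≤ x3) (e1 : E (x3 - x1) = E x2) (e2 : E x3 = E x1)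
    (e3 : E (x2 - x1) = E x1) {u c d : ℕ} (huc : u ≤ c) (hcd : c ≤ d)
    (hr : E d * E (c - u) / (E c * E (d - u)) = E x2 / E x1) :
    IsSquare (v.valuation K ((det (p 0) (p x2) * det (p x1) (p x3)) /
      (det (p 0) (p x3) * det (p x1) (p x2)))) := by
  obtain ⟨-, r2, r3⟩ := raw_four hd (Nat.zero_le x1) h12 h23
  obtain ⟨-, t2, t3⟩ := raw_four hd (Nat.zero_le u) huc hcd
  refine ⟨v.valuation K ((det (p 0) (p d) * det (p u) (p c)) /
    (det (p 0) (p c) * det (p u) (p d))), hj ?_⟩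
  have hσ : s 0 * s x1 * (s x2 * s x3) ≠ 0 :=
    mul_ne_zero (mul_ne_zero (hs _) (hs _)) (mul_ne_zero (hs _) (hs _))
  have hτ : s 0 * s u * (s c * s d) ≠ 0 :=
    mul_ne_zero (mul_ne_zero (hs _) (hs _)) (mul_ne_zero (hs _) (hs _))
  rw [map_mul, map_div₀, map_div₀, map_div₀, map_div₀, r2, r3, t2, t3, mul_div_mul_left _ _ hσ,
    mul_div_mul_left _ _ hτ]
  simp only [Nat.sub_zero]
  rw [hr, e1, e2, e3, mul_div_mul_comm]

/-- good primes, odd `q` -/
lemma CycAt.square_odd {v : HeightOneSpectrum (𝓞 K)} {q k h : ℕ} {p : ℕ → K × K}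
    (hq : q.Prime) (hq3 : 3 ≤ q) (hc : CycAt v (q ^ k * h) p) (t : ℕ) :
    IsSquare (v.valuation K ((det (p 0) (p (q * h)) * det (p h) (p ((1 + q + q ^ 2 * t) * h))) /
      (det (p 0) (p ((1 + q + q ^ 2 * t) * h)) * det (p h) (p (q * h))))) := by
  obtain ⟨Γ, _, j, s, E, hj, hs, hE, hd⟩ := hc
  have hN : 0 < q ^ k := pow_pos hq.pos k
  have hq2 : q ^ 2 = q * q := sq q
  have hu : ∀ w : ℕ, ¬ q ∣ w → E (w * h) = E h := by
    intro w hw
    have := (hE.sub).unit_mul (u := w) (((Nat.Prime.coprime_iff_not_dvd hq).mpr hw).symm.pow_right k) hN 1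
    simpa only [mul_one, one_mul] using this
  have hnd1 : ¬ q ∣ q - 1 := fun hdv => by
    have := Nat.le_of_dvd (by omega) hdv
    omega
  have hnd2 : ¬ q ∣ 2 := fun hdv => by
    have := Nat.le_of_dvd (by omega) hdv
    omega
  have hnd3 : ¬ q ∣ 1 + q + q ^ 2 * t := fun hdv => by
    have h1 : q ∣ q + q ^ 2 * t := (dvd_refl q).add (Dvd.dvd.mul_right (dvd_pow_self q (by norm_num)) t)
    rw [add_assoc] at hdv
    have := (Nat.dvd_add_left h1).mp hdv
    exact hq.one_lt.ne' (Nat.dvd_one.mp this)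
  have hB : h ≤ q * h := Nat.le_mul_of_pos_left h hq.pos
  have hq2t : q * h ≤ (1 + q + q ^ 2 * t) * h := Nat.mul_le_mul_right h (by omega)
  refine raw_square hj hs hd hB hq2t (u := h) (c := 2 * h) (d := q * h) ?_ ?_ ?_ (by omega)
    (Nat.mul_le_mul_right h (by omega)) ?_
  · -- `B - 1 = q (1 + q t)`
    have h1 : (1 + q + q ^ 2 * t) * h - h = (1 + q * t) * (q * h) := by
      have : (1 + q + q ^ 2 * t) * h = h + (1 + q * t) * (q * h) := by ring
      omega
    rw [h1]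
    have hcop : ¬ q ∣ 1 + q * t := fun hdv => by
      have := (Nat.dvd_add_left (Dvd.intro t rfl : q ∣ q * t)).mp hdv
      exact hq.one_lt.ne' (Nat.dvd_one.mp this)
    have := (hE.sub).unit_mul (u := 1 + q * t)
      (((Nat.Prime.coprime_iff_not_dvd hq).mpr hcop).symm.pow_right k) hN q
    simpa only [mul_assoc] using this
  · exact hu _ hnd3
  · have h1 : q * h - h = (q - 1) * h := by rw [Nat.sub_mul, one_mul]
    rw [h1]; exact hu _ hnd1
  · have h1 : q * h - h = (q - 1) * h := by rw [Nat.sub_mul, one_mul]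
    have h2 : 2 * h - h = h := by omega
    rw [h1, h2, hu _ hnd1, hu _ hnd2]
    rcases eq_or_ne (E h) 0 with h0 | h0
    · rw [h0]; simp
    · rw [mul_div_mul_right _ _ h0]

/-- good primes, `q = 2` -/
lemma CycAt.square_two {v : HeightOneSpectrum (𝓞 K)} {k h : ℕ} {p : ℕ → K × K}
    (hc : CycAt v (2 ^ k * h) p) (t : ℕ) :
    IsSquare (v.valuation K ((det (p 0) (p (4 * h)) * det (p (2 * h)) (p ((6 + 8 * t) * h))) /
      (det (p 0) (p ((6 + 8 * t) * h)) * det (p (2 * h)) (p (4 * h))))) := by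
  obtain ⟨Γ, _, j, s, E, hj, hs, hE, hd⟩ := hc
  have hN : 0 < 2 ^ k := pow_pos (by norm_num) k
  have hu : ∀ w a : ℕ, ¬ 2 ∣ w → E (w * (a * h)) = E (a * h) := by
    intro w a hw
    have := (hE.sub).unit_mul (u := w)
      (((Nat.Prime.coprime_iff_not_dvd Nat.prime_two).mpr hw).symm.pow_right k) hN a
    simpa only [mul_assoc] using this
  refine raw_square hj hs hd (x1 := 2 * h) (x2 := 4 * h) (x3 := (6 + 8 * t) * h) (by omega)
    (Nat.mul_le_mul_right h (by omega)) (u := h) (c := 2 * h) (d := 4 * h) ?_ ?_ ?_ (by omega)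
    (by omega) ?_
  · have h1 : (6 + 8 * t) * h - 2 * h = (1 + 2 * t) * (4 * h) := by
      have : (6 + 8 * t) * h = 2 * h + (1 + 2 * t) * (4 * h) := by ring
      omega
    rw [h1]
    exact hu _ _ (by omega)
  · have h1 : (6 + 8 * t) * h = (3 + 4 * t) * (2 * h) := by ring
    rw [h1]
    exact hu _ _ (by omega)
  · have h1 : 4 * h - 2 * h = 2 * h := by omega
    rw [h1]
  · have h1 : 4 * h - h = 3 * (1 * h) := by omega
    have h2 : 2 * h - h = 1 * h := by omega
    rw [h1, h2, hu 3 1 (by omega)]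
    rcases eq_or_ne (E (1 * h)) 0 with h0 | h0
    · have : E (2 * h) = 0 := by
        have := (hE.sub).mul_le 1 2
        simp only [mul_one] at this
        rw [h0] at this
        exact le_antisymm this zero_le
      rw [h0, this]; simp
    · rw [mul_div_mul_right _ _ h0]

end Pool.Agent.H421.Cy
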