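import Pool.Agent.H421.CyB

/-!
# The abstract bound for the number of points
-/

set_option autoImplicit false

open Polynomial NumberField IsDedekindDomain Pool.Agent.H422.HE

namespace Pool.Agent.H421.Cy

lemma inj_aux {K : Type} [Field K] {a c d d' : K × K} (hac : det a c ≠ 0)
    (h : det c d * det a d' = det c d' * det a d) : det d d' = 0 := by
  have h1 := plucker a c d d'
  have h2 : det a c * det d d' = 0 := by linear_combination h1 - h
  exact (mul_eq_zero.mp h2).resolve_left hac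

variable {K : Type} [Field K] [NumberField K] {S : Set (HeightOneSpectrum (𝓞 K))}

/-- the local conditions -/
def Loc (S : Set (HeightOneSpectrum (𝓞 K))) (m n : ℕ) (p : ℕ → K × K) : Prop :=
  (∀ i j, det (p i) (p j) = 0 ↔ i ≡ j [MOD n]) ∧ ∀ v ∉ S, CycAt v n p ∨ PowAt v m p

lemma Loc.ne {m n N h : ℕ} {p : ℕ → K × K} (hl : Loc S m n p) (hn : n = N * h) (hh : 0 < h)
    {i j : ℕ} (hij : i < j) (hj : j < N) : det (p (i * h)) (p (j * h)) ≠ 0 := by
  rw [Ne, hl.1, hn]
  intro hcon
  have h1 := Nat.ModEq.mul_right_cancel' hh.ne' hcon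
  rw [Nat.ModEq, Nat.mod_eq_of_lt (hij.trans hj), Nat.mod_eq_of_lt hj] at h1
  omega

/-- first case -/
theorem caseI (hS : S.Finite) {m : ℕ} (hm : 4 ≤ m) {n q k h : ℕ} {p : ℕ → K × K}
    (hl : Loc S m n p) (hq : q.Prime) (hn : n = q ^ k * h) (hh : 0 < h)
    (J : Finset ℕ) (hJ : ∀ j ∈ J, 3 ≤ j ∧ j < q ^ k ∧ ¬ q ∣ j ∧ ¬ q ∣ (j - 1) ∧ ¬ q ∣ (j - 2))
    (hq2 : ¬ q ∣ 2) : J.card ≤ (L1 K S m).ncard := by
  classical
  set lam : ℕ → K := fun j => (det (p (0 * h)) (p (1 * h)) * det (p (2 * h)) (p (j * h))) /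
    (det (p (0 * h)) (p (2 * h)) * det (p (1 * h)) (p (j * h))) with hlam
  have hN : 0 < q ^ k := pow_pos hq.pos k
  have hinj : Set.InjOn lam J := by
    intro i hi j hj hij
    obtain ⟨i3, iN, -⟩ := hJ i hi
    obtain ⟨j3, jN, -⟩ := hJ j hj
    simp only [hlam] at hij
    have d01 := hl.ne hn hh (i := 0) (j := 1) (by omega) (by omega)
    have d02 := hl.ne hn hh (i := 0) (j := 2) (by omega) (by omega)
    have d12 := hl.ne hn hh (i := 1) (j := 2) (by omega) (by omega)
    have d1i := hl.ne hn hh (i := 1) (j := i) (by omega) iN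
    have d1j := hl.ne hn hh (i := 1) (j := j) (by omega) jN
    rw [div_eq_div_iff (mul_ne_zero d02 d1i) (mul_ne_zero d02 d1j)] at hij
    have h1 : det (p (2 * h)) (p (i * h)) * det (p (1 * h)) (p (j * h)) =
        det (p (2 * h)) (p (j * h)) * det (p (1 * h)) (p (i * h)) := by
      apply mul_left_cancel₀ (mul_ne_zero d01 d02)
      linear_combination hij
    have h2 := inj_aux d12 h1
    by_contra hne
    rcases Nat.lt_or_gt_of_ne hne with h3 | h3
    · exact hl.ne hn hh h3 jN h2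
    · apply hl.ne hn hh h3 iN
      rw [det_swap, h2, neg_zero]
  have hmem : ∀ j ∈ J, lam j ∈ L1 K S m := by
    intro j hj v hv
    obtain ⟨j3, jN, q0, q1, q2⟩ := hJ j hj
    have d02 := hl.ne hn hh (i := 0) (j := 2) (by omega) (by omega)
    have d1j := hl.ne hn hh (i := 1) (j := j) (by omega) jN
    have hY := mul_ne_zero d02 d1j
    have hpl := plucker (p (0 * h)) (p (1 * h)) (p (2 * h)) (p (j * h))
    have hlam1 : lam j - 1 = - ((det (p (0 * h)) (p (j * h)) * det (p (1 * h)) (p (2 * h))) /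
        (det (p (0 * h)) (p (2 * h)) * det (p (1 * h)) (p (j * h)))) := by
      simp only [hlam]
      rw [div_sub_one hY, ← neg_div]
      congr 1
      linear_combination hpl
    rcases hl.2 v hv with hc | hc
    · rw [hn] at hc
      have hco : ∀ w, ¬ q ∣ w → Nat.Coprime w (q ^ k) := fun w hw =>
        ((Nat.Prime.coprime_iff_not_dvd hq).mpr hw).symm.pow_right k
      have hq1' : ¬ q ∣ 1 := fun hdv => hq.one_lt.ne' (Nat.dvd_one.mp hdv)
      obtain ⟨e1, e2⟩ := hc.unit hN (a := 0) (b := 1) (c := 2) (d := j) (by omega) (by omega)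
        (by omega) (hco _ hq1') (hco _ q2) (hco _ hq2) (hco _ q1) (hco _ q0) (hco _ hq1')
      have hvY : v.valuation K (det (p (0 * h)) (p (2 * h)) * det (p (1 * h)) (p (j * h))) ≠ 0 :=
        (Valuation.ne_zero_iff _).mpr hY
      constructor
      · refine ⟨1, ?_⟩
        simp only [hlam]
        rw [map_div₀, e1, div_self hvY, one_pow]
      · refine ⟨1, ?_⟩
        rw [hlam1, Valuation.map_neg, map_div₀, e2, div_self hvY, one_pow]
    · obtain ⟨σ, hσ, hX, hY', hZ⟩ := hc.four (0 * h) (1 * h) (2 * h) (j * h)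
      exact ⟨quot_pow hσ hX hY', by rw [hlam1, Valuation.map_neg]; exact quot_pow hσ hZ hY'⟩
  have hfin := L1_finite (K := K) hS hm
  calc J.card = (J.image lam).card := (Finset.card_image_of_injOn hinj).symm
    _ = ((J.image lam : Finset K) : Set K).ncard := (Set.ncard_coe_finset _).symm
    _ ≤ (L1 K S m).ncard := by
      refine Set.ncard_le_ncard ?_ hfin
      intro x hx
      rw [Finset.mem_coe, Finset.mem_image] at hx
      obtain ⟨j, hj, rfl⟩ := hx
      exact hmem j hj

/-- second case -/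
theorem caseII (hS : S.Finite) {m : ℕ} (hm : 5 ≤ m) (hev : Even m) {n : ℕ} {p : ℕ → K × K}
    (hl : Loc S m n p) {x1 x2 : ℕ} (d02 : det (p 0) (p x2) ≠ 0) (d01 : det (p 0) (p x1) ≠ 0)
    (d12 : det (p x1) (p x2) ≠ 0) (J : Finset ℕ) (x : ℕ → ℕ)
    (hJ1 : ∀ t ∈ J, det (p 0) (p (x t)) ≠ 0)
    (hJ2 : ∀ t ∈ J, ∀ t' ∈ J, det (p (x t)) (p (x t')) = 0 → t = t')
    (hJ3 : ∀ t ∈ J, ∀ v, CycAt v n p → v.valuation K (det (p 0) (p x1) * det (p x2) (p (x t))) =
      v.valuation K (det (p 0) (p (x t)) * det (p x1) (p x2)))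
    (hJ4 : ∀ t ∈ J, ∀ v, CycAt v n p →
      IsSquare (v.valuation K ((det (p 0) (p x2) * det (p x1) (p (x t))) /
        (det (p 0) (p (x t)) * det (p x1) (p x2))))) : J.card ≤ (L2 K S m).ncard := by
  classical
  set lam : ℕ → K := fun t => (det (p 0) (p x1) * det (p x2) (p (x t))) /
    (det (p 0) (p (x t)) * det (p x1) (p x2)) with hlam
  have hinj : Set.InjOn lam J := by
    intro i hi j hj hij
    have d0i := hJ1 i hi
    have d0j := hJ1 j hj
    simp only [hlam] at hij
    rw [div_eq_div_iff (mul_ne_zero d0i d12) (mul_ne_zero d0j d12)] at hij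
    have h1 : det (p x2) (p (x i)) * det (p 0) (p (x j)) =
        det (p x2) (p (x j)) * det (p 0) (p (x i)) := by
      apply mul_left_cancel₀ (mul_ne_zero d01 d12)
      linear_combination hij
    exact hJ2 i hi j hj (inj_aux d02 h1)
  have hmem : ∀ t ∈ J, lam t ∈ L2 K S m := by
    intro t ht v hv
    have hZ0 := mul_ne_zero (hJ1 t ht) d12
    have hpl := plucker (p 0) (p x1) (p x2) (p (x t))
    have hlam1 : lam t + 1 = (det (p 0) (p x2) * det (p x1) (p (x t))) /
        (det (p 0) (p (x t)) * det (p x1) (p x2)) := by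
      simp only [hlam]
      rw [div_add_one hZ0]
      congr 1
      linear_combination hpl
    rcases hl.2 v hv with hc | hc
    · have hvZ : v.valuation K (det (p 0) (p (x t)) * det (p x1) (p x2)) ≠ 0 :=
        (Valuation.ne_zero_iff _).mpr hZ0
      constructor
      · refine ⟨1, ?_⟩
        simp only [hlam]
        rw [map_div₀, hJ3 t ht v hc, div_self hvZ, one_pow]
      · rw [hlam1]
        exact hJ4 t ht v hc
    · obtain ⟨σ, hσ, hX, hY, hZ⟩ := hc.four 0 x1 x2 (x t)
      refine ⟨quot_pow hσ hX hZ, ?_⟩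
      rw [hlam1]
      obtain ⟨g, hg⟩ := quot_pow hσ hY hZ
      obtain ⟨l, rfl⟩ := hev
      exact ⟨g ^ l, by rw [hg, pow_add]⟩
  have hfin := L2_finite (K := K) hS hm
  calc J.card = (J.image lam).card := (Finset.card_image_of_injOn hinj).symm
    _ = ((J.image lam : Finset K) : Set K).ncard := (Set.ncard_coe_finset _).symm
    _ ≤ (L2 K S m).ncard := by
      refine Set.ncard_le_ncard ?_ hfin
      intro x hx
      rw [Finset.mem_coe, Finset.mem_image] at hx
      obtain ⟨j, hj, rfl⟩ := hx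
      exact hmem j hj

lemma Loc.ne' {m n : ℕ} {p : ℕ → K × K} (hl : Loc S m n p) {i j : ℕ} (hij : i < j) (hj : j < n) :
    det (p i) (p j) ≠ 0 := by
  rw [Ne, hl.1]
  intro hcon
  rw [Nat.ModEq, Nat.mod_eq_of_lt (hij.trans hj), Nat.mod_eq_of_lt hj] at hcon
  omega

lemma Loc.inj {m n : ℕ} {p : ℕ → K × K} (hl : Loc S m n p) {i j : ℕ} (hi : i < n) (hj : j < n)
    (h : det (p i) (p j) = 0) : i = j := by
  rw [hl.1, Nat.ModEq, Nat.mod_eq_of_lt hi, Nat.mod_eq_of_lt hj] at h
  exact h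

/-- powers of primes `q ≥ 5` -/
lemma pp_five (hS : S.Finite) {m : ℕ} (hm : 4 ≤ m) {n q k h : ℕ} {p : ℕ → K × K}
    (hl : Loc S m n p) (hq : q.Prime) (hq5 : 5 ≤ q) (hn : n = q ^ k * h) (hh : 0 < h) :
    q ^ k ≤ ((L1 K S m).ncard + 4) ^ 2 := by
  classical
  set c := (L1 K S m).ncard with hc
  rcases Nat.eq_zero_or_pos k with rfl | hk
  · rw [pow_zero]; nlinarith
  have hnd : ∀ w, 0 < w → w < q → ¬ q ∣ w := fun w h1 h2 hdv => by
    have := Nat.le_of_dvd h1 hdv; omega
  have hqk : q ^ k = q * q ^ (k - 1) := by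
    rw [← pow_succ']; congr 1; omega
  have hpos : 0 < q ^ (k - 1) := pow_pos hq.pos _
  have h1 : q ^ (k - 1) ≤ c := by
    have hcard : ((Finset.range (q ^ (k - 1))).image (fun t => 3 + q * t)).card = q ^ (k - 1) := by
      rw [Finset.card_image_of_injective, Finset.card_range]
      intro a b hab
      simp only [add_right_inj] at hab
      exact Nat.eq_of_mul_eq_mul_left hq.pos hab
    rw [← hcard]
    refine caseI hS hm hl hq hn hh _ ?_ (hnd 2 (by norm_num) (by omega))
    intro j hj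
    rw [Finset.mem_image] at hj
    obtain ⟨t, ht, rfl⟩ := hj
    rw [Finset.mem_range] at ht
    have hlt : q * t + q ≤ q ^ k := by
      rw [hqk, ← Nat.mul_succ]
      exact Nat.mul_le_mul_left q ht
    have hd : ∀ w, 0 < w → w < q → ¬ q ∣ w + q * t := fun w h1 h2 hdv =>
      hnd w h1 h2 ((Nat.dvd_add_left (Dvd.intro t rfl)).mp hdv)
    refine ⟨by omega, by omega, hd 3 (by omega) (by omega), ?_, ?_⟩
    · have : 3 + q * t - 1 = 2 + q * t := by omega
      rw [this]; exact hd 2 (by omega) (by omega)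
    · have : 3 + q * t - 2 = 1 + q * t := by omega
      rw [this]; exact hd 1 (by omega) (by omega)
  have h2 : q ≤ c + 3 := by
    have hcard : (Finset.Ico 3 q).card = q - 3 := Nat.card_Ico 3 q
    have : q - 3 ≤ c := by
      rw [← hcard]
      refine caseI hS hm hl hq hn hh _ ?_ (hnd 2 (by norm_num) (by omega))
      intro j hj
      rw [Finset.mem_Ico] at hj
      refine ⟨hj.1, ?_, hnd _ (by omega) (by omega), hnd _ (by omega) (by omega),
        hnd _ (by omega) (by omega)⟩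
      rw [hqk]
      exact lt_of_lt_of_le hj.2 (Nat.le_mul_of_pos_right q hpos)
    omega
  rw [hqk]
  calc q * q ^ (k - 1) ≤ (c + 3) * c := Nat.mul_le_mul h2 h1
    _ ≤ (c + 4) ^ 2 := by nlinarith

/-- powers of two -/
lemma pp_two (hS : S.Finite) {m : ℕ} (hm : 5 ≤ m) (hev : Even m) {n k h : ℕ} {p : ℕ → K × K}
    (hl : Loc S m n p) (hn : n = 2 ^ k * h) (hh : 0 < h) :
    2 ^ k ≤ 8 * ((L2 K S m).ncard + 1) := by
  rcases Nat.lt_or_ge k 3 with hk | hk
  · have : 2 ^ k ≤ 2 ^ 3 := Nat.pow_le_pow_right (by norm_num) (by omega)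
    omega
  have hk3 : 2 ^ k = 8 * 2 ^ (k - 3) := by
    have : (8 : ℕ) = 2 ^ 3 := by norm_num
    rw [this, ← pow_add]; congr 1; omega
  have hk1 : 2 ^ k = 2 ^ (k - 1) * 2 := by
    rw [← pow_succ]; congr 1; omega
  have hpos : 0 < 2 ^ (k - 3) := pow_pos (by norm_num) _
  have hn8 : n = 8 * 2 ^ (k - 3) * h := by rw [hn, hk3]
  have hn' : n = 2 ^ (k - 1) * (2 * h) := by rw [hn, hk1]; ring
  have h8 : 8 * h ≤ n := by
    rw [hn8]; exact Nat.mul_le_mul_right h (Nat.le_mul_of_pos_right 8 hpos)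
  have hlt : ∀ t, t < 2 ^ (k - 3) → (6 + 8 * t) * h < n := by
    intro t ht
    rw [hn8]
    exact Nat.mul_lt_mul_of_pos_right (by omega) hh
  have hcard : (Finset.range (2 ^ (k - 3))).card = 2 ^ (k - 3) := Finset.card_range _
  have hle : ∀ t, 6 * h ≤ (6 + 8 * t) * h := fun t => Nat.mul_le_mul_right h (by omega)
  have key := caseII hS hm hev hl (x1 := 2 * h) (x2 := 4 * h)
    (hl.ne' (by omega) (by omega)) (hl.ne' (by omega) (by omega)) (hl.ne' (by omega) (by omega))
    (Finset.range (2 ^ (k - 3))) (fun t => (6 + 8 * t) * h) ?_ ?_ ?_ ?_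
  · rw [hcard] at key
    omega
  · intro t ht
    exact hl.ne' (by have := hle t; omega) (hlt t (Finset.mem_range.mp ht))
  · intro t ht t' ht' h0
    have h1 := hl.inj (hlt t (Finset.mem_range.mp ht)) (hlt t' (Finset.mem_range.mp ht')) h0
    have h2 := Nat.eq_of_mul_eq_mul_right hh h1
    omega
  · intro t _ v hc
    rw [hn'] at hc
    have hco : ∀ w, ¬ 2 ∣ w → Nat.Coprime w (2 ^ (k - 1)) := fun w hw =>
      ((Nat.Prime.coprime_iff_not_dvd Nat.prime_two).mpr hw).symm.pow_right _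
    have := hc.unit' (pow_pos (by norm_num) _) (a := 0) (b := 1) (c := 2) (d := 3 + 4 * t)
      (by omega) (by omega) (by omega) (hco _ (by omega)) (hco _ (by omega)) (hco _ (by omega))
      (hco _ (by omega))
    have e1 : 2 * (2 * h) = 4 * h := by ring
    have e2 : (3 + 4 * t) * (2 * h) = (6 + 8 * t) * h := by ring
    rw [e1, e2, zero_mul, one_mul] at this
    exact this
  · intro t _ v hc
    rw [hn] at hc
    exact hc.square_two t

/-- powers of odd primes -/
lemma pp_odd (hS : S.Finite) {m : ℕ} (hm : 5 ≤ m) (hev : Even m) {n q k h : ℕ} {p : ℕ → K × K}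
    (hl : Loc S m n p) (hq : q.Prime) (hq3 : 3 ≤ q) (hn : n = q ^ k * h) (hh : 0 < h) :
    q ^ k ≤ q ^ 2 * ((L2 K S m).ncard + 1) := by
  rcases Nat.lt_or_ge k 2 with hk | hk
  · calc q ^ k ≤ q ^ 2 := Nat.pow_le_pow_right hq.pos (by omega)
      _ ≤ q ^ 2 * ((L2 K S m).ncard + 1) := Nat.le_mul_of_pos_right _ (by omega)
  have hk2 : q ^ k = q ^ 2 * q ^ (k - 2) := by
    rw [← pow_add]; congr 1; omega
  have hpos : 0 < q ^ (k - 2) := pow_pos hq.pos _
  have hq2 : q ^ 2 = q * q := sq q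
  have hqq : 3 * q ≤ q ^ 2 := by rw [hq2]; exact Nat.mul_le_mul_right q hq3
  have hqk : q ^ 2 ≤ q ^ k := by rw [hk2]; exact Nat.le_mul_of_pos_right _ hpos
  have hlt : ∀ t, t < q ^ (k - 2) → 1 + q + q ^ 2 * t < q ^ k := by
    intro t ht
    have : q ^ 2 * t + q ^ 2 ≤ q ^ k := by
      rw [hk2, ← Nat.mul_succ]
      exact Nat.mul_le_mul_left _ ht
    omega
  have hlt' : ∀ w, w < q ^ k → w * h < n := fun w hw => by
    rw [hn]; exact Nat.mul_lt_mul_of_pos_right hw hh
  have hcard : (Finset.range (q ^ (k - 2))).card = q ^ (k - 2) := Finset.card_range _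
  have hqh : 3 * h ≤ q * h := Nat.mul_le_mul_right h hq3
  have key := caseII hS hm hev hl (x1 := h) (x2 := q * h)
    (hl.ne' (by omega) (hlt' q (by omega)))
    (hl.ne' (by omega) (by have := hlt' q (by omega); omega))
    (hl.ne' (by omega) (hlt' q (by omega)))
    (Finset.range (q ^ (k - 2))) (fun t => (1 + q + q ^ 2 * t) * h) ?_ ?_ ?_ ?_
  · rw [hcard] at key
    rw [hk2]
    exact Nat.mul_le_mul_left _ (by omega)
  · intro t ht
    exact hl.ne' (Nat.mul_pos (by omega) hh) (hlt' _ (hlt t (Finset.mem_range.mp ht)))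
  · intro t ht t' ht' h0
    have h1 := hl.inj (hlt' _ (hlt t (Finset.mem_range.mp ht)))
      (hlt' _ (hlt t' (Finset.mem_range.mp ht'))) h0
    have h2 := Nat.eq_of_mul_eq_mul_right hh h1
    have h3 : q ^ 2 * t = q ^ 2 * t' := by omega
    exact Nat.eq_of_mul_eq_mul_left (pow_pos hq.pos 2) h3
  · intro t _ v hc
    rw [hn] at hc
    have hco : ∀ w, ¬ q ∣ w → Nat.Coprime w (q ^ k) := fun w hw =>
      ((Nat.Prime.coprime_iff_not_dvd hq).mpr hw).symm.pow_right _
    have hnd : ∀ w, 0 < w → w < q → ¬ q ∣ w := fun w h1 h2 hdv => by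
      have := Nat.le_of_dvd h1 hdv; omega
    have hd : ∀ w c, 0 < w → w < q → ¬ q ∣ w + q * c := fun w c h1 h2 hdv =>
      hnd w h1 h2 ((Nat.dvd_add_left (Dvd.intro c rfl)).mp hdv)
    have h1 : 1 + q + q ^ 2 * t - q = 1 + q * (q * t) := by
      have : q ^ 2 * t = q * (q * t) := by ring
      omega
    have h2 : 1 + q + q ^ 2 * t - 0 = 1 + q * (1 + q * t) := by
      have : q * (1 + q * t) = q + q ^ 2 * t := by ring
      omega
    have := hc.unit' (pow_pos hq.pos _) (a := 0) (b := 1) (c := q) (d := 1 + q + q ^ 2 * t)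
      (by omega) (by omega) (by omega) (hco _ (hnd _ (by omega) (by omega)))
      (hco _ (by rw [h1]; exact hd 1 _ (by omega) (by omega)))
      (hco _ (by rw [h2]; exact hd 1 _ (by omega) (by omega)))
      (hco _ (hnd _ (by omega) (by omega)))
    rw [zero_mul, one_mul] at this
    exact this
  · intro t _ v hc
    rw [hn] at hc
    exact hc.square_odd hq hq3 t

/-- **The abstract bound.** -/
theorem abstract_bound (K : Type) [Field K] [NumberField K] {S : Set (HeightOneSpectrum (𝓞 K))}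
    (hS : S.Finite) {m : ℕ} (hm : 4 ≤ m) : ∃ B : ℕ, ∀ (n : ℕ) (p : ℕ → K × K), 0 < n →
      Loc S m n p → (∀ N, N ∣ n → Nat.Coprime N 6 → N ≤ B) ∧ (6 ≤ m → Even m → n ≤ B) := by
  set c1 := (L1 K S m).ncard with hc1
  set c2 := (L2 K S m).ncard with hc2
  set B1 := (c1 + 4) ^ 2 * (c2 + 1) with hB1
  have hB16 : 16 * (c2 + 1) ≤ B1 := Nat.mul_le_mul_right _ (by nlinarith)
  have hB1' : (c1 + 4) ^ 2 ≤ B1 := Nat.le_mul_of_pos_right _ (by omega)
  have hdv : ∀ N : ℕ, (∀ q k : ℕ, q.Prime → q ^ k ∣ N → q ^ k ≤ B1) → N ≤ B1.factorial := by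
    intro N hN
    refine Nat.le_of_dvd (Nat.factorial_pos _) ?_
    rw [Nat.dvd_iff_prime_pow_dvd_dvd]
    intro q k hq hk
    exact Nat.dvd_factorial (pow_pos hq.pos k) (hN q k hq hk)
  refine ⟨B1.factorial, fun n p hn hl => ⟨fun N hNn hN6 => ?_, fun hm6 hev => ?_⟩⟩
  · refine hdv N fun q k hq hk => ?_
    rcases Nat.eq_zero_or_pos k with rfl | hk0
    · rw [pow_zero]; omega
    have hqN : q ∣ N := (dvd_pow_self q hk0.ne').trans hk
    have hq5 : 5 ≤ q := by
      have h2 : q ≠ 2 := by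
        rintro rfl
        have := Nat.Coprime.coprime_dvd_left hqN hN6
        norm_num at this
      have h3 : q ≠ 3 := by
        rintro rfl
        have := Nat.Coprime.coprime_dvd_left hqN hN6
        norm_num at this
      have h4 : q ≠ 4 := by
        rintro rfl
        norm_num at hq
      have := hq.two_le
      omega
    obtain ⟨h, hh⟩ := hk.trans hNn
    have hh0 : 0 < h := Nat.pos_of_ne_zero (by rintro rfl; omega)
    exact (pp_five hS hm hl hq hq5 hh hh0).trans hB1'
  · refine hdv n fun q k hq hk => ?_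
    obtain ⟨h, hh⟩ := hk
    have hh0 : 0 < h := Nat.pos_of_ne_zero (by rintro rfl; omega)
    rcases Nat.lt_or_ge q 5 with hq5 | hq5
    · have h4 : q ≠ 4 := by
        rintro rfl
        norm_num at hq
      have h2 := hq.two_le
      have h23 : q = 2 ∨ q = 3 := by omega
      rcases h23 with rfl | rfl
      · have := pp_two hS (by omega) hev hl hh hh0
        omega
      · have := pp_odd hS (by omega) hev hl hq le_rfl hh hh0
        omega
    · exact (pp_five hS hm hl hq hq5 hh hh0).trans hB1'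

end Pool.Agent.H421.Cy
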