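import Pool.Agent.H421.CyC

/-!
# Rational maps: the chordal distance at a prime of (potentially) good reduction
-/

set_option autoImplicit false

open Polynomial IsDedekindDomain Pool.Agent.H422.HE

namespace Pool.Agent.H421.Cy

section lin

variable {L : Type} [Field L]

lemma det_smul_left (c : L) (p q : L × L) : det (c • p) q = c * det p q := by
  simp only [det, Prod.smul_fst, Prod.smul_snd, smul_eq_mul]; ring

lemma det_smul_right (c : L) (p q : L × L) : det p (c • q) = c * det p q := by
  simp only [det, Prod.smul_fst, Prod.smul_snd, smul_eq_mul]; ring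

lemma det_tw (A : Matrix (Fin 2) (Fin 2) L) (p q : L × L) :
    det (tw A p) (tw A q) = A.det * det p q := by
  simp only [det, tw, Matrix.det_fin_two]; ring

lemma tw_smul (A : Matrix (Fin 2) (Fin 2) L) (c : L) (p : L × L) : tw A (c • p) = c • tw A p := by
  ext <;> simp only [tw, Prod.smul_fst, Prod.smul_snd, smul_eq_mul] <;> ring

lemma hom_smul (d : ℕ) (P : Polynomial L) (c : L) (p : L × L) :
    hom d P (c • p) = c ^ d * hom d P p := by
  simp only [hom, Finset.mul_sum]
  refine Finset.sum_congr rfl fun i hi => ?_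
  have hid : d = i + (d - i) := by
    have := Finset.mem_range.mp hi
    omega
  have hc : c ^ d = c ^ i * c ^ (d - i) := by rw [← pow_add, ← hid]
  simp only [Prod.smul_fst, Prod.smul_snd, smul_eq_mul]
  rw [mul_pow, mul_pow, hc]
  ring

lemma lift_smul (d : ℕ) (P Q : Polynomial L) (c : L) (p : L × L) :
    lift d P Q (c • p) = c ^ d • lift d P Q p := by
  ext <;> simp only [lift, Prod.smul_fst, Prod.smul_snd, smul_eq_mul, hom_smul]

/-- proportional vectors -/
lemma exists_smul {p q : L × L} (hq : q ≠ 0) (h : det p q = 0) : ∃ c : L, p = c • q := by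
  simp only [det] at h
  by_cases h1 : q.1 = 0
  · have h2 : q.2 ≠ 0 := fun h2 => hq (Prod.ext h1 h2)
    refine ⟨p.2 / q.2, ?_⟩
    ext
    · have : p.1 * q.2 = 0 := by rw [h1] at h; simpa using h
      have := (mul_eq_zero.mp this).resolve_right h2
      simp [this, h1]
    · simp [h2]
  · refine ⟨p.1 / q.1, ?_⟩
    ext
    · simp [h1]
    · simp only [Prod.smul_snd, smul_eq_mul]
      field_simp
      linear_combination -h

lemma exists_tw {A : Matrix (Fin 2) (Fin 2) L} (hA : A.det ≠ 0) (p : L × L) :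
    ∃ q, tw A q = p := by
  refine ⟨((A 1 1 * p.1 - A 0 1 * p.2) / A.det, (A 0 0 * p.2 - A 1 0 * p.1) / A.det), ?_⟩
  ext
  · simp only [tw]
    rw [← mul_div_assoc, ← mul_div_assoc, ← add_div, div_eq_iff hA, Matrix.det_fin_two]
    ring
  · simp only [tw]
    rw [← mul_div_assoc, ← mul_div_assoc, ← add_div, div_eq_iff hA, Matrix.det_fin_two]
    ring

lemma tw_ne {A : Matrix (Fin 2) (Fin 2) L} {q : L × L} (h : tw A q ≠ 0) : q ≠ 0 := by
  rintro rfl
  apply h
  simp [tw]

end lin

section val

variable {L : Type} [Field L] {Γ : Type} [LinearOrderedCommGroupWithZero Γ] (w : Valuation L Γ)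

variable {w}

lemma Normal.fst {p : L × L} (h : Normal w p) : w p.1 ≤ 1 := (le_max_left _ _).trans h.le
lemma Normal.snd {p : L × L} (h : Normal w p) : w p.2 ≤ 1 := (le_max_right _ _).trans h.le

lemma exists_normal {p : L × L} (hp : p ≠ 0) : ∃ t : L, ∃ q : L × L, t ≠ 0 ∧ Normal w q ∧ p = t • q := by
  rcases le_total (w p.1) (w p.2) with h | h
  · have h2 : p.2 ≠ 0 := by
      intro h0
      rw [h0, map_zero] at h
      have h1 : p.1 = 0 := (Valuation.zero_iff w).mp (le_antisymm h zero_le)
      exact hp (Prod.ext h1 h0)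
    refine ⟨p.2, (p.1 / p.2, 1), h2, ?_, ?_⟩
    · simp only [Normal, map_one, map_div₀]
      exact max_eq_right (div_le_one_of_le₀ h zero_le)
    · ext <;> simp [mul_div_cancel₀, h2]
  · have h1 : p.1 ≠ 0 := by
      intro h0
      rw [h0, map_zero] at h
      have h2 : p.2 = 0 := (Valuation.zero_iff w).mp (le_antisymm h zero_le)
      exact hp (Prod.ext h0 h2)
    refine ⟨p.1, (1, p.2 / p.1), h1, ?_, ?_⟩
    · simp only [Normal, map_one, map_div₀]
      exact max_eq_left (div_le_one_of_le₀ h zero_le)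
    · ext <;> simp [mul_div_cancel₀, h1]

lemma normal_smul {p q : L × L} (hp : Normal w p) (hq : Normal w q) {c : L} (h : p = c • q) :
    w c = 1 := by
  have h1 : max (w p.1) (w p.2) = w c * max (w q.1) (w q.2) := by
    rw [h]
    simp only [Prod.smul_fst, Prod.smul_snd, smul_eq_mul, map_mul]
    rcases le_total (w q.1) (w q.2) with h2 | h2
    · rw [max_eq_right h2, max_eq_right (mul_le_mul_right h2 _)]
    · rw [max_eq_left h2, max_eq_left (mul_le_mul_right h2 _)]
  rw [show max (w p.1) (w p.2) = 1 from hp, show max (w q.1) (w q.2) = 1 from hq, mul_one] at h1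
  exact h1.symm

lemma Normal.ne {p : L × L} (h : Normal w p) : p ≠ 0 := by
  rintro rfl
  simp [Normal] at h

/-- the ultrametric inequality of the chordal distance -/
lemma chord_ultra {p q r : L × L} (hp : Normal w p) (hq : Normal w q) (hr : Normal w r) :
    w (det p r) ≤ max (w (det p q)) (w (det q r)) := by
  have key : ∀ x : L, w x = 1 → ∀ y z : L, w y ≤ 1 → w z ≤ 1 →
      det p r * x = det q r * y + det p q * z → w (det p r) ≤ max (w (det p q)) (w (det q r)) := by
    intro x hx y z hy hz h
    have h1 : w (det p r) = w (det q r * y + det p q * z) := by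
      rw [← h, map_mul, hx, mul_one]
    rw [h1]
    refine (Valuation.map_add _ _ _).trans (max_le ?_ ?_)
    · rw [map_mul]
      exact (mul_le_of_le_one_right' hy).trans (le_max_right _ _)
    · rw [map_mul]
      exact (mul_le_of_le_one_right' hz).trans (le_max_left _ _)
  rcases max_choice (w q.1) (w q.2) with h | h
  · exact key q.1 (h.symm.trans hq) p.1 r.1 hp.fst hr.fst (by simp only [det]; ring)
  · exact key q.2 (h.symm.trans hq) p.2 r.2 hp.snd hr.snd (by simp only [det]; ring)

lemma mono_le {a b a' b' : L} (ha : w a ≤ 1) (hb : w b ≤ 1) (ha' : w a' ≤ 1) (hb' : w b' ≤ 1)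
    {d i j : ℕ} (hi : i ≤ d) (hj : j ≤ d) :
    w (a ^ i * b ^ (d - i) * (a' ^ j * b' ^ (d - j)) - a ^ j * b ^ (d - j) * (a' ^ i * b' ^ (d - i)))
      ≤ w (a * b' - b * a') := by
  have key : ∀ i j : ℕ, j ≤ i → i ≤ d →
      w (a ^ i * b ^ (d - i) * (a' ^ j * b' ^ (d - j)) -
        a ^ j * b ^ (d - j) * (a' ^ i * b' ^ (d - i))) ≤ w (a * b' - b * a') := by
    intro i j hji hid
    obtain ⟨e, rfl⟩ := Nat.exists_eq_add_of_le hji
    obtain ⟨f, rfl⟩ := Nat.exists_eq_add_of_le hid
    have e1 : j + e + f - (j + e) = f := by omega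
    have e2 : j + e + f - j = e + f := by omega
    rw [e1, e2]
    have h1 : a ^ (j + e) * b ^ f * (a' ^ j * b' ^ (e + f)) -
        a ^ j * b ^ (e + f) * (a' ^ (j + e) * b' ^ f) =
        (a ^ j * b ^ f * (a' ^ j * b' ^ f)) * ((a * b') ^ e - (b * a') ^ e) := by
      rw [mul_pow, mul_pow]; ring
    rw [h1, map_mul]
    refine mul_le_of_le_one_of_le ?_ ?_
    · simp only [map_mul, map_pow]
      exact mul_le_one' (mul_le_one' (pow_le_one₀ zero_le ha) (pow_le_one₀ zero_le hb))
        (mul_le_one' (pow_le_one₀ zero_le ha') (pow_le_one₀ zero_le hb'))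
    · refine pow_sub_pow_le w ?_ ?_ e
      · rw [map_mul]; exact mul_le_one' ha hb'
      · rw [map_mul]; exact mul_le_one' hb ha'
  rcases le_total j i with h | h
  · exact key i j h hi
  · have := key j i h hj
    rw [← Valuation.map_neg]
    refine le_trans (le_of_eq ?_) this
    congr 1
    ring

/-- rational maps with integral coefficients do not increase the distance -/
lemma lift_le {d : ℕ} {P Q : Polynomial L} (hP : ∀ i, w (P.coeff i) ≤ 1)
    (hQ : ∀ i, w (Q.coeff i) ≤ 1) {p q : L × L} (hp : Normal w p) (hq : Normal w q) :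
    w (det (lift d P Q p) (lift d P Q q)) ≤ w (det p q) := by
  have h1 : det (lift d P Q p) (lift d P Q q) =
      ∑ i ∈ Finset.range (d + 1), ∑ j ∈ Finset.range (d + 1), P.coeff i * Q.coeff j *
        (p.1 ^ i * p.2 ^ (d - i) * (q.1 ^ j * q.2 ^ (d - j)) -
          p.1 ^ j * p.2 ^ (d - j) * (q.1 ^ i * q.2 ^ (d - i))) := by
    have e1 : hom d P p * hom d Q q = ∑ i ∈ Finset.range (d + 1), ∑ j ∈ Finset.range (d + 1),
        P.coeff i * Q.coeff j * (p.1 ^ i * p.2 ^ (d - i) * (q.1 ^ j * q.2 ^ (d - j))) := by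
      simp only [hom, Finset.sum_mul_sum]
      exact Finset.sum_congr rfl fun i _ => Finset.sum_congr rfl fun j _ => by ring
    have e2 : hom d Q p * hom d P q = ∑ i ∈ Finset.range (d + 1), ∑ j ∈ Finset.range (d + 1),
        P.coeff i * Q.coeff j * (p.1 ^ j * p.2 ^ (d - j) * (q.1 ^ i * q.2 ^ (d - i))) := by
      simp only [hom, Finset.sum_mul_sum]
      rw [Finset.sum_comm]
      exact Finset.sum_congr rfl fun i _ => Finset.sum_congr rfl fun j _ => by ring
    simp only [det, lift]
    rw [e1, e2, ← Finset.sum_sub_distrib]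
    refine Finset.sum_congr rfl fun i _ => ?_
    rw [← Finset.sum_sub_distrib]
    exact Finset.sum_congr rfl fun j _ => by ring
  rw [h1]
  refine Valuation.map_sum_le _ fun i hi => Valuation.map_sum_le _ fun j hj => ?_
  rw [map_mul]
  refine mul_le_of_le_one_of_le ?_ ?_
  · rw [map_mul]; exact mul_le_one' (hP i) (hQ j)
  · have hi' := Finset.mem_range.mp hi
    have hj' := Finset.mem_range.mp hj
    exact mono_le hp.fst hp.snd hq.fst hq.snd (by omega) (by omega)

end val

end Pool.Agent.H421.Cy
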