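import Mathlib

/-!
# Rational maps on the projective line over a number field: local conditions

Points of the projective line over a field `K` are the lines through nonzero vectors of `K × K`; the
vector `(x, 1)` stands for the point `x` and `(1, 0)` for infinity.
-/

set_option autoImplicit false

open Polynomial NumberField IsDedekindDomain

namespace Pool.Agent.H421.Cy

/-- the determinant of two vectors -/
def det {K : Type} [Field K] (p q : K × K) : K := p.1 * q.2 - p.2 * q.1

/-- the value of the form `∑ a_i X ^ i Y ^ (d - i)` with the coefficients `a_i` of `P` -/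
def hom {L : Type} [Field L] (d : ℕ) (P : Polynomial L) (p : L × L) : L :=
  ∑ i ∈ Finset.range (d + 1), P.coeff i * p.1 ^ i * p.2 ^ (d - i)

/-- the map `[P : Q]` of degree `d` on vectors -/
def lift {L : Type} [Field L] (d : ℕ) (P Q : Polynomial L) (p : L × L) : L × L :=
  (hom d P p, hom d Q p)

/-- `P / Q` is a rational map of degree `d` -/
def IsRat {K : Type} [Field K] (d : ℕ) (P Q : K[X]) : Prop :=
  IsCoprime P Q ∧ max P.natDegree Q.natDegree = d

/-- the self-map of `ℙ¹(K)` given by `[P : Q]` (as forms of degree `d`); the case distinction is only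
needed when `IsRat d P Q` fails -/
noncomputable def ratMap {K : Type} [Field K] (d : ℕ) (P Q : K[X])
    (x : Projectivization K (K × K)) : Projectivization K (K × K) :=
  open Classical in if h : lift d P Q x.rep ≠ 0 then Projectivization.mk K (lift d P Q x.rep) h else x

/-- the linear map with the matrix `A` -/
def tw {L : Type} [Field L] (A : Matrix (Fin 2) (Fin 2) L) (p : L × L) : L × L :=
  (A 0 0 * p.1 + A 0 1 * p.2, A 1 0 * p.1 + A 1 1 * p.2)

/-- `[P : Q]` is conjugate to `[P' : Q']` by the matrix `A` -/
def Conj {L : Type} [Field L] (d : ℕ) (A : Matrix (Fin 2) (Fin 2) L) (P Q P' Q' : Polynomial L) :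
    Prop :=
  A.det ≠ 0 ∧ ∃ κ : L, κ ≠ 0 ∧ ∀ p, lift d P Q (tw A p) = κ • tw A (lift d P' Q' p)

section val

variable {L : Type} [Field L] {Γ : Type} [LinearOrderedCommGroupWithZero Γ]

/-- integral coordinates, one of them a unit -/
def Normal (w : Valuation L Γ) (p : L × L) : Prop := max (w p.1) (w p.2) = 1

/-- an expanding disk for the map `[P : Q]`: the complement `U` of the closed unit disk is mapped into
itself (`inv`) and contracted for the chordal distance (`con`), and two points of one residue class of
the unit disk, whose images are in the unit disk, are stretched by a factor `h ^ (-m)`, `h < 1`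
(`exp`) -/
structure Expands (w : Valuation L Γ) (m d : ℕ) (P Q : Polynomial L) : Prop where
  inv : ∀ p, Normal w p → w p.2 < 1 → w (hom d Q p) < w (hom d P p)
  con : ∀ p q, Normal w p → Normal w q → w p.2 < 1 → w q.2 < 1 → det p q ≠ 0 →
    w (det (lift d P Q p) (lift d P Q q)) < w (det p q) * (w (hom d P p) * w (hom d P q))
  exp : ∀ x y, w x ≤ 1 → w y ≤ 1 → w (x - y) < 1 → x ≠ y → Q.eval x ≠ 0 → Q.eval y ≠ 0 →
    w (P.eval x) ≤ w (Q.eval x) → w (P.eval y) ≤ w (Q.eval y) →
    ∃ h < 1, w (x - y) = h ^ m * w (P.eval x / Q.eval x - P.eval y / Q.eval y)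

end val

variable {K : Type} [Field K] [NumberField K]

/-- potentially good reduction: over some extension `(L, w)` of `(K, v)` the map is conjugate to
`[P' : Q']` with integral coefficients, whose reduction has no common zero in the points of the
projective line over the residue field of `L` -/
def PotGood (v : HeightOneSpectrum (𝓞 K)) (d : ℕ) (P Q : K[X]) : Prop :=
  ∃ (L : Type) (_ : Field L) (_ : Algebra K L) (Γ : Type) (_ : LinearOrderedCommGroupWithZero Γ)
    (w : Valuation L Γ) (j : WithZero (Multiplicative ℤ) →*₀ Γ), StrictMono j ∧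
    (∀ x : K, w (algebraMap K L x) = j (v.valuation K x)) ∧
    ∃ (A : Matrix (Fin 2) (Fin 2) L) (P' Q' : Polynomial L),
      Conj d A (P.map (algebraMap K L)) (Q.map (algebraMap K L)) P' Q' ∧
      (∀ i, w (P'.coeff i) ≤ 1) ∧ (∀ i, w (Q'.coeff i) ≤ 1) ∧
      ∀ p, Normal w p → Normal w (lift d P' Q' p)

/-- the map is conjugate over `K` to a map with an `m`-divisible expanding disk at `v` -/
def ExpandsAt (v : HeightOneSpectrum (𝓞 K)) (m d : ℕ) (P Q : K[X]) : Prop :=
  ∃ (A : Matrix (Fin 2) (Fin 2) K) (P' Q' : K[X]), Conj d A P Q P' Q' ∧ P'.natDegree ≤ d ∧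
    Q'.natDegree ≤ d ∧ Expands (v.valuation K) m d P' Q'

end Pool.Agent.H421.Cy
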