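import Pool.Agent.H421.CyD

/-!
# Rational maps: cycles at primes of potentially good reduction and at expanding primes
-/

set_option autoImplicit false

open Polynomial IsDedekindDomain Pool.Agent.H422.HE

namespace Pool.Agent.H421.Cy

section good

variable {L : Type} [Field L] {Γ : Type} [LinearOrderedCommGroupWithZero Γ] {w : Valuation L Γ}

/-- coordinates adapted to a conjugation -/
lemma exists_coord {A : Matrix (Fin 2) (Fin 2) L} (hA : A.det ≠ 0) {p : L × L} (hp : p ≠ 0) :
    ∃ t : L, ∃ q : L × L, t ≠ 0 ∧ Normal w q ∧ p = t • tw A q := by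
  obtain ⟨r, hr⟩ := exists_tw hA p
  have hr0 : r ≠ 0 := tw_ne (by rwa [hr])
  obtain ⟨t, q, ht, hq, rfl⟩ := exists_normal (w := w) hr0
  exact ⟨t, q, ht, hq, by rw [← hr, tw_smul]⟩

lemma coord_det {A : Matrix (Fin 2) (Fin 2) L} {p p' q q' : L × L} {t t' : L}
    (h : p = t • tw A q) (h' : p' = t' • tw A q') : det p p' = t * t' * A.det * det q q' := by
  rw [h, h', det_smul_left, det_smul_right, det_tw]; ring

lemma coord_step {d : ℕ} {A : Matrix (Fin 2) (Fin 2) L} {P Q P' Q' : Polynomial L}
    (hc : Conj d A P Q P' Q') {p p' q q' : L × L} {t t' : L} (ht : t ≠ 0) (ht' : t' ≠ 0)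
    (h : p = t • tw A q) (h' : p' = t' • tw A q') (hd : det (lift d P Q p) p' = 0) :
    det (lift d P' Q' q) q' = 0 := by
  obtain ⟨hA, κ, hκ, hc⟩ := hc
  rw [h, h', lift_smul, hc, det_smul_left, det_smul_left, det_smul_right, det_tw] at hd
  have := mul_eq_zero.mp hd
  rcases this with h1 | h1
  · exact absurd h1 (pow_ne_zero _ ht)
  rcases mul_eq_zero.mp h1 with h2 | h2
  · exact absurd h2 hκ
  rcases mul_eq_zero.mp h2 with h3 | h3
  · exact absurd h3 ht'
  exact (mul_eq_zero.mp h3).resolve_left hA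

/-- a cycle at a prime of good reduction -/
theorem good_cyc {n : ℕ} (hn : 0 < n) {d : ℕ} {A : Matrix (Fin 2) (Fin 2) L}
    {P Q P' Q' : Polynomial L} (hc : Conj d A P Q P' Q') (hP : ∀ i, w (P'.coeff i) ≤ 1)
    (hQ : ∀ i, w (Q'.coeff i) ≤ 1) (hred : ∀ p, Normal w p → Normal w (lift d P' Q' p))
    {p : ℕ → L × L} (hp0 : ∀ i, p i ≠ 0) (hstep : ∀ i, det (lift d P Q (p i)) (p (i + 1)) = 0)
    (hper : ∀ i, det (p i) (p (i + n)) = 0) :
    ∃ s E : ℕ → Γ, (∀ i, s i ≠ 0) ∧ Cyc n E ∧
      ∀ a b, a ≤ b → w (det (p a) (p b)) = s a * s b * E (b - a) := by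
  have hA := hc.1
  choose t q ht hq hpq using fun i => exists_coord (w := w) hA (hp0 i)
  -- the distances
  set D : ℕ → ℕ → Γ := fun i j => w (det (q i) (q j)) with hD
  have hsymm : ∀ i j, D i j = D j i := fun i j => by
    simp only [hD]
    rw [det_swap, Valuation.map_neg]
  have hle : ∀ i j, D (i + 1) (j + 1) ≤ D i j := by
    have hs : ∀ i, ∃ c, w c = 1 ∧ lift d P' Q' (q i) = c • q (i + 1) := by
      intro i
      have h1 := coord_step hc (ht i) (ht (i + 1)) (hpq i) (hpq (i + 1)) (hstep i)
      obtain ⟨c, hcc⟩ := exists_smul (hq (i + 1)).ne h1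
      exact ⟨c, normal_smul (hred _ (hq i)) (hq (i + 1)) hcc, hcc⟩
    intro i j
    obtain ⟨c, hc1, hc2⟩ := hs i
    obtain ⟨c', hc1', hc2'⟩ := hs j
    have h2 := lift_le (d := d) hP hQ (hq i) (hq j)
    rw [hc2, hc2', det_smul_left, det_smul_right, map_mul, map_mul, hc1, hc1', one_mul,
      one_mul] at h2
    exact h2
  have hperD : ∀ i j, D j (i + n) = D j i := by
    intro i j
    have h1 : det (q i) (q (i + n)) = 0 := by
      have h2 := hper i
      rw [coord_det (hpq i) (hpq (i + n))] at h2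
      exact (mul_eq_zero.mp h2).resolve_left
        (mul_ne_zero (mul_ne_zero (ht _) (ht _)) hA)
    obtain ⟨c, hcc⟩ := exists_smul (hq (i + n)).ne h1
    have hc1 := normal_smul (hq i) (hq (i + n)) hcc
    simp only [hD]
    rw [hcc, det_smul_right, map_mul, hc1, one_mul]
  have hperD' : ∀ i j, D (i + n) j = D i j := fun i j => by
    rw [hsymm, hperD, hsymm]
  have hlek : ∀ k i j, D (i + k) (j + k) ≤ D i j := by
    intro k
    induction k with
    | zero => intro i j; exact le_rfl
    | succ k ih =>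
      intro i j
      exact (hle (i + k) (j + k)).trans (ih i j)
  have heq : ∀ i j, D (i + 1) (j + 1) = D i j := by
    intro i j
    refine le_antisymm (hle i j) ?_
    have h1 : D i j = D (i + n) (j + n) := by rw [hperD', hperD]
    rw [h1]
    have h2 := hlek (n - 1) (i + 1) (j + 1)
    have e1 : i + 1 + (n - 1) = i + n := by omega
    have e2 : j + 1 + (n - 1) = j + n := by omega
    rwa [e1, e2] at h2
  have heqk : ∀ i a, D i (i + a) = D 0 a := by
    intro i a
    induction i with
    | zero => rw [zero_add]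
    | succ i ih =>
      rw [← ih, ← heq i (i + a)]
      congr 1
      omega
  refine ⟨fun i => w (t i), fun a => w A.det * D 0 a, fun i => (Valuation.ne_zero_iff _).mpr (ht i),
    ⟨?_, ?_, ?_⟩, ?_⟩
  · simp [hD, det, mul_comm]
  · intro a b
    have h1 : D 0 (a + b) ≤ max (D 0 a) (D 0 b) := by
      rw [← heqk a b]
      exact chord_ultra (hq 0) (hq a) (hq (a + b))
    have h2 := mul_le_mul_right h1 (w A.det)
    rcases le_total (D 0 a) (D 0 b) with h3 | h3
    · rw [max_eq_right h3] at h2
      exact h2.trans (le_max_right _ _)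
    · rw [max_eq_left h3] at h2
      exact h2.trans (le_max_left _ _)
  · intro a
    rw [hperD]
  · intro a b hab
    obtain ⟨c, rfl⟩ := Nat.exists_eq_add_of_le hab
    rw [coord_det (hpq a) (hpq (a + c)), map_mul, map_mul, map_mul]
    have h1 : w (det (q a) (q (a + c))) = D 0 c := heqk a c
    rw [h1, Nat.add_sub_cancel_left]
    exact mul_assoc _ _ _

end good

section expand

variable {L : Type} [Field L] {Γ : Type} [LinearOrderedCommGroupWithZero Γ] {w : Valuation L Γ}

lemma taylor_pow {x y : L} (hx : w x ≤ 1) (hy : w y ≤ 1) (n : ℕ) :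
    w (x ^ n - y ^ n - n * y ^ (n - 1) * (x - y)) ≤ w (x - y) ^ 2 := by
  have hnat : ∀ k : ℕ, w (k : L) ≤ 1 := fun k => by
    induction k with
    | zero => simp
    | succ k ih =>
      rw [Nat.cast_succ]
      exact (Valuation.map_add _ _ _).trans (max_le ih (by rw [map_one]))
  induction n with
  | zero => simp
  | succ n ih =>
    have h1 : x ^ (n + 1) - y ^ (n + 1) - ((n + 1 : ℕ) : L) * y ^ (n + 1 - 1) * (x - y) =
        x * (x ^ n - y ^ n - n * y ^ (n - 1) * (x - y)) + n * y ^ (n - 1) * (x - y) ^ 2 := by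
      rcases Nat.eq_zero_or_pos n with rfl | hn
      · simp
      · obtain ⟨k, rfl⟩ := Nat.exists_eq_add_of_lt hn
        simp only [zero_add, Nat.add_sub_cancel]
        push_cast
        ring
    rw [h1]
    refine (Valuation.map_add _ _ _).trans (max_le ?_ ?_)
    · rw [map_mul]
      exact mul_le_of_le_one_of_le hx ih
    · rw [map_mul, map_pow]
      refine mul_le_of_le_one_of_le ?_ le_rfl
      rw [map_mul, map_pow]
      exact mul_le_one' (hnat n) (pow_le_one₀ zero_le hy)

lemma taylor_poly {P : Polynomial L} (hP : ∀ i, w (P.coeff i) ≤ 1) {x y : L} (hx : w x ≤ 1)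
    (hy : w y ≤ 1) : w (P.eval x - P.eval y - P.derivative.eval y * (x - y)) ≤ w (x - y) ^ 2 := by
  have h1 : P.eval x - P.eval y - P.derivative.eval y * (x - y) =
      ∑ i ∈ Finset.range (P.natDegree + 1), P.coeff i * (x ^ i - y ^ i - i * y ^ (i - 1) * (x - y)) := by
    rw [eval_eq_sum_range, eval_eq_sum_range, derivative_eval, sum_over_range]
    · rw [Finset.sum_mul, ← Finset.sum_sub_distrib, ← Finset.sum_sub_distrib]
      exact Finset.sum_congr rfl fun i _ => by ring
    · intro i; simp
  rw [h1]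
  refine Valuation.map_sum_le _ fun i _ => ?_
  rw [map_mul]
  exact mul_le_of_le_one_of_le (hP i) (taylor_pow hx hy i)

/-- simple residue classes are stretched isometrically -/
lemma stretch {P Q : Polynomial L} (hP : ∀ i, w (P.coeff i) ≤ 1) (hQ : ∀ i, w (Q.coeff i) ≤ 1)
    {x y : L} (hx : w x ≤ 1) (hy : w y ≤ 1) (hxy : w (x - y) < 1) (hPy : w (P.eval y) < 1)
    (hd : w (P.derivative.eval y) = 1) (hQy : w (Q.eval y) = 1) :
    w (P.eval x * Q.eval y - P.eval y * Q.eval x) = w (x - y) := by
  rcases eq_or_ne x y with rfl | hne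
  · rw [mul_comm, sub_self, sub_self]
  have h0 : w (x - y) ≠ 0 := (Valuation.ne_zero_iff _).mpr (sub_ne_zero.mpr hne)
  have h0' : 0 < w (x - y) := zero_lt_iff.mpr h0
  have h1 : w (P.eval x - P.eval y) = w (x - y) := by
    have e1 : P.eval x - P.eval y = P.derivative.eval y * (x - y) +
      (P.eval x - P.eval y - P.derivative.eval y * (x - y)) := by ring
    have e2 : w (P.derivative.eval y * (x - y)) = w (x - y) := by rw [map_mul, hd, one_mul]
    have e3 : w (P.eval x - P.eval y - P.derivative.eval y * (x - y)) <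
        w (P.derivative.eval y * (x - y)) := by
      rw [e2]
      refine (taylor_poly hP hx hy).trans_lt ?_
      rw [sq]
      calc w (x - y) * w (x - y) < 1 * w (x - y) := mul_lt_mul_of_pos_right hxy h0'
        _ = w (x - y) := one_mul _
    rw [e1, Valuation.map_add_eq_of_lt_left _ e3, e2]
  have h2 : w (Q.eval x - Q.eval y) ≤ w (x - y) := eval_sub_le w hQ hx hy
  have e1 : P.eval x * Q.eval y - P.eval y * Q.eval x =
      (P.eval x - P.eval y) * Q.eval y - P.eval y * (Q.eval x - Q.eval y) := by ring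
  have e2 : w ((P.eval x - P.eval y) * Q.eval y) = w (x - y) := by rw [map_mul, h1, hQy, mul_one]
  have e3 : w (P.eval y * (Q.eval x - Q.eval y)) < w ((P.eval x - P.eval y) * Q.eval y) := by
    rw [e2, map_mul]
    calc w (P.eval y) * w (Q.eval x - Q.eval y) ≤ w (P.eval y) * w (x - y) :=
          mul_le_mul_right h2 _
      _ < 1 * w (x - y) := mul_lt_mul_of_pos_right hPy h0'
      _ = w (x - y) := one_mul _
  rw [e1, Valuation.map_sub_eq_of_lt_left _ e3, e2]

lemma hom_le {d : ℕ} {P : Polynomial L} (hP : ∀ i, w (P.coeff i) ≤ 1) {q : L × L}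
    (hq : Normal w q) : w (hom d P q) ≤ 1 := by
  refine Valuation.map_sum_le _ fun i _ => ?_
  rw [map_mul, map_mul, map_pow, map_pow]
  exact mul_le_one' (mul_le_one' (hP i) (pow_le_one₀ zero_le hq.fst)) (pow_le_one₀ zero_le hq.snd)

lemma hom_inf {d : ℕ} {P : Polynomial L} (hP : ∀ i, w (P.coeff i) ≤ 1) (hl : w (P.coeff d) = 1)
    {q : L × L} (hq : Normal w q) (h2 : w q.2 < 1) : w (hom d P q) = 1 := by
  have h1 : w q.1 = 1 := by
    rcases max_choice (w q.1) (w q.2) with h | h
    · exact h.symm.trans hq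
    · exact absurd (h.symm.trans hq) h2.ne
  rw [hom, Finset.sum_range_succ]
  have e1 : w (P.coeff d * q.1 ^ d * q.2 ^ (d - d)) = 1 := by
    rw [Nat.sub_self, pow_zero, mul_one, map_mul, map_pow, hl, h1, one_pow, one_mul]
  have e2 : w (∑ i ∈ Finset.range d, P.coeff i * q.1 ^ i * q.2 ^ (d - i)) <
      w (P.coeff d * q.1 ^ d * q.2 ^ (d - d)) := by
    rw [e1]
    refine Valuation.map_sum_lt _ one_ne_zero fun i hi => ?_
    have hi' := Finset.mem_range.mp hi
    rw [map_mul, map_mul, map_pow, map_pow, h1, one_pow, mul_one]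
    refine lt_of_le_of_lt (mul_le_of_le_one_of_le (hP i) le_rfl) ?_
    exact pow_lt_one₀ zero_le h2 (by omega)
  rw [Valuation.map_add_eq_of_lt_right _ e2, e1]

lemma hom_aff {d : ℕ} {P : Polynomial L} (hd : P.natDegree ≤ d) {q : L × L} (h2 : q.2 ≠ 0) :
    hom d P q = q.2 ^ d * P.eval (q.1 / q.2) := by
  rw [hom, eval_eq_sum_range' (n := d + 1) (by omega), Finset.mul_sum]
  refine Finset.sum_congr rfl fun i hi => ?_
  have hid : d = i + (d - i) := by
    have := Finset.mem_range.mp hi
    omega
  have hc : q.2 ^ d = q.2 ^ i * q.2 ^ (d - i) := by rw [← pow_add, ← hid]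
  rw [hc, div_pow]
  field_simp

lemma hom_C_mul (d : ℕ) (P : Polynomial L) (ε : L) (q : L × L) :
    hom d (C ε * P) q = ε * hom d P q := by
  simp only [hom, coeff_C_mul, Finset.mul_sum]
  exact Finset.sum_congr rfl fun i _ => by ring

/-- a cycle at an expanding prime -/
theorem exp_cyc {n : ℕ} (hn : 0 < n) {d : ℕ} {A : Matrix (Fin 2) (Fin 2) L}
    {P Q P' Q' : Polynomial L} (hc : Conj d A P Q P' Q') {m : ℕ} (hm : 0 < m)
    (he : Expands w m d P' Q') (hdP : P'.natDegree ≤ d) (hdQ : Q'.natDegree ≤ d)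
    {p : ℕ → L × L} (hp0 : ∀ i, p i ≠ 0) (hstep : ∀ i, det (lift d P Q (p i)) (p (i + 1)) = 0)
    (hnz : ∀ i, lift d P Q (p i) ≠ 0)
    (hper : ∀ i, det (p i) (p (i + n)) = 0) (hne : det (p 0) (p 1) ≠ 0) :
    ∃ (s : ℕ → Γ) (c : Γ), (∀ i, s i ≠ 0) ∧ c ≠ 0 ∧
      ∀ a b, ∃ g, w (det (p a) (p b)) = c * (s a * s b) * g ^ m := by
  have hA := hc.1
  choose t q ht hq hpq using fun i => exists_coord (w := w) hA (hp0 i)
  have hst := fun i => coord_step hc (ht i) (ht (i + 1)) (hpq i) (hpq (i + 1)) (hstep i)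
  have hnz' : ∀ i, lift d P' Q' (q i) ≠ 0 := by
    intro i h0
    obtain ⟨-, κ, hκ, hcc⟩ := hc
    apply hnz i
    rw [hpq i, lift_smul, hcc, h0]
    ext <;> simp [tw]
  set D : ℕ → ℕ → Γ := fun i j => w (det (q i) (q j)) with hD
  have hsymm : ∀ i j, D i j = D j i := fun i j => by
    simp only [hD]
    rw [det_swap, Valuation.map_neg]
  have hqn : ∀ i, ∃ c, w c = 1 ∧ q i = c • q (i + n) := by
    intro i
    have h1 : det (q i) (q (i + n)) = 0 := by
      have h2 := hper i
      rw [coord_det (hpq i) (hpq (i + n))] at h2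
      exact (mul_eq_zero.mp h2).resolve_left
        (mul_ne_zero (mul_ne_zero (ht _) (ht _)) hA)
    obtain ⟨c, hcc⟩ := exists_smul (hq (i + n)).ne h1
    exact ⟨c, normal_smul (hq i) (hq (i + n)) hcc, hcc⟩
  have hperD : ∀ i j, D j (i + n) = D j i := by
    intro i j
    obtain ⟨c, hc1, hcc⟩ := hqn i
    simp only [hD]
    rw [hcc, det_smul_right, map_mul, hc1, one_mul]
  have hperD' : ∀ i j, D (i + n) j = D i j := fun i j => by
    rw [hsymm, hperD, hsymm]
  have hqs : ∀ i, ∃ c : L, q (i + 1) = c • lift d P' Q' (q i) := by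
    intro i
    refine exists_smul (hnz' i) ?_
    rw [det_swap, hst i, neg_zero]
  -- the disk at infinity
  have hfst : ∀ i, w (q i).2 < 1 → w (q i).1 = 1 := by
    intro i hi
    rcases max_choice (w (q i).1) (w (q i).2) with h | h
    · exact h.symm.trans (hq i)
    · exact absurd (h.symm.trans (hq i)) hi.ne
  have hU : ∀ i, ¬ w (q i).2 < 1 := by
    have hU2 : ∀ i, w (q i).2 < 1 → w (q (i + 1)).2 < 1 := by
      intro i hi
      obtain ⟨c, hcc⟩ := hqs i
      have h1 := he.inv (q i) (hq i) hi
      have e1 : w (q (i + 1)).1 = w c * w (hom d P' (q i)) := by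
        rw [hcc]; simp only [Prod.smul_fst, smul_eq_mul, map_mul, lift]
      have e2 : w (q (i + 1)).2 = w c * w (hom d Q' (q i)) := by
        rw [hcc]; simp only [Prod.smul_snd, smul_eq_mul, map_mul, lift]
      have hc0 : 0 < w c := by
        rw [zero_lt_iff, Valuation.ne_zero_iff]
        rintro rfl
        exact (hq (i + 1)).ne (by rw [hcc, zero_smul])
      refine lt_of_lt_of_le ?_ (hq (i + 1)).fst
      rw [e1, e2]
      exact mul_lt_mul_of_pos_left h1 hc0
    have hU3 : ∀ i, w (q (i + n)).2 < 1 → w (q i).2 < 1 := by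
      intro i hi
      obtain ⟨c, hc1, hcc⟩ := hqn i
      rw [hcc]
      simp only [Prod.smul_snd, smul_eq_mul]
      rwa [map_mul, hc1, one_mul]
    have hU4 : ∀ i k, w (q i).2 < 1 → w (q (i + k)).2 < 1 := by
      intro i k hi
      induction k with
      | zero => exact hi
      | succ k ih => exact hU2 _ ih
    have hU5 : ∀ i k, w (q (i + k * n)).2 < 1 → w (q i).2 < 1 := by
      intro i k
      induction k with
      | zero => intro h; simpa using h
      | succ k ih =>
        intro h
        apply ih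
        apply hU3
        have e : i + k * n + n = i + (k + 1) * n := by ring
        rwa [e]
    intro i hi
    have hall : ∀ k, w (q k).2 < 1 := by
      intro k
      apply hU5 k i
      have h1 : i ≤ k + i * n := le_trans (Nat.le_mul_of_pos_right i hn) (Nat.le_add_left _ _)
      obtain ⟨l, hl⟩ := Nat.exists_eq_add_of_le h1
      rw [hl]
      exact hU4 i l hi
    have hcon : ∀ i j, D i j ≠ 0 → D (i + 1) (j + 1) < D i j := by
      intro i j hij
      obtain ⟨c, hcc⟩ := hqs i
      obtain ⟨c', hcc'⟩ := hqs j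
      have h0 : det (q i) (q j) ≠ 0 := (Valuation.ne_zero_iff _).mp hij
      have h1 := he.con (q i) (q j) (hq i) (hq j) (hall i) (hall j) h0
      have e1 : w c * w (hom d P' (q i)) = 1 := by
        rw [← hfst (i + 1) (hall _), hcc]
        simp only [Prod.smul_fst, smul_eq_mul, map_mul, lift]
      have e1' : w c' * w (hom d P' (q j)) = 1 := by
        rw [← hfst (j + 1) (hall _), hcc']
        simp only [Prod.smul_fst, smul_eq_mul, map_mul, lift]
      have h2 : D (i + 1) (j + 1) = w c * w c' * w (det (lift d P' Q' (q i))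
          (lift d P' Q' (q j))) := by
        simp only [hD]
        rw [hcc, hcc', det_smul_left, det_smul_right, map_mul, map_mul, mul_assoc]
      have hc0 : 0 < w c * w c' := by
        rw [zero_lt_iff]
        refine mul_ne_zero ?_ ?_
        · intro h; rw [h, zero_mul] at e1; exact zero_ne_one e1
        · intro h; rw [h, zero_mul] at e1'; exact zero_ne_one e1'
      rw [h2]
      refine lt_of_lt_of_eq (mul_lt_mul_of_pos_left h1 hc0) ?_
      have e2 : w c * w c' * (w (det (q i) (q j)) * (w (hom d P' (q i)) * w (hom d P' (q j)))) =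
          (w c * w (hom d P' (q i))) * (w c' * w (hom d P' (q j))) * w (det (q i) (q j)) := by
        rw [mul_comm (w (det (q i) (q j))), ← mul_assoc, mul_mul_mul_comm]
      rw [e2, e1, e1', one_mul, one_mul]
    have h3 : D 0 1 ≠ 0 := by
      simp only [hD]
      rw [Valuation.ne_zero_iff]
      intro h0
      apply hne
      rw [coord_det (hpq 0) (hpq 1), h0, mul_zero]
    have hconk : ∀ k, D k (k + 1) ≤ D 0 1 ∧ (0 < k → D k (k + 1) < D 0 1) := by
      intro k
      induction k with
      | zero => exact ⟨le_rfl, fun h => absurd h (lt_irrefl 0)⟩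
      | succ k ih =>
        have h4 : D (k + 1) (k + 1 + 1) < D 0 1 := by
          by_cases h5 : D k (k + 1) = 0
          · -- the distance cannot vanish, but this is not needed
            have h6 : det (q k) (q (k + 1)) = 0 := (Valuation.zero_iff _).mp h5
            have h7 : D (k + 1) (k + 1 + 1) = 0 := by
              obtain ⟨c, hcc⟩ := exists_smul (hq (k + 1)).ne h6
              obtain ⟨e, hee⟩ := hqs k
              obtain ⟨e', hee'⟩ := hqs (k + 1)
              have e1 : q (k + 1) = (e * c ^ d) • lift d P' Q' (q (k + 1)) := by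
                conv_lhs => rw [hee, hcc, lift_smul, smul_smul]
              have e2 : det (q (k + 1)) (q (k + 1 + 1)) =
                  det ((e * c ^ d) • lift d P' Q' (q (k + 1))) (e' • lift d P' Q' (q (k + 1))) := by
                rw [← e1, ← hee']
              simp only [hD]
              rw [e2, det_smul_left, det_smul_right]
              simp only [det]
              rw [mul_comm (lift d P' Q' (q (k + 1))).1, sub_self, mul_zero, mul_zero, map_zero]
            rw [h7]
            exact zero_lt_iff.mpr h3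
          · exact (hcon k (k + 1) h5).trans_le ih.1
        exact ⟨h4.le, fun _ => h4⟩
    have h2 : D n (n + 1) = D 0 1 := by
      have e1 : D n (n + 1) = D (0 + n) (1 + n) := by rw [zero_add, add_comm 1 n]
      rw [e1, hperD', hperD]
    exact absurd h2 ((hconk n).2 hn).ne
  -- all points are affine
  have hq2 : ∀ i, w (q i).2 = 1 := fun i => le_antisymm (hq i).snd (not_lt.mp (hU i))
  have hq20 : ∀ i, (q i).2 ≠ 0 := fun i h0 => by
    have := hq2 i
    rw [h0, map_zero] at this
    exact zero_ne_one this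
  set x : ℕ → L := fun i => (q i).1 / (q i).2 with hx
  have hx1 : ∀ i, w (x i) ≤ 1 := fun i => by
    simp only [hx]
    rw [map_div₀, hq2, div_one]
    exact (hq i).fst
  have hDx : ∀ i j, D i j = w (x i - x j) := by
    intro i j
    have h1 : det (q i) (q j) = (q i).2 * (q j).2 * (x i - x j) := by
      have := hq20 i
      have := hq20 j
      simp only [det, hx]
      field_simp
    simp only [hD]
    rw [h1, map_mul, map_mul, hq2, hq2, one_mul, one_mul]
  have hstx : ∀ i, P'.eval (x i) = Q'.eval (x i) * x (i + 1) := by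
    intro i
    have h1 := hst i
    simp only [det, lift] at h1
    rw [hom_aff hdP (hq20 i), hom_aff hdQ (hq20 i)] at h1
    have h2 : (q i).2 ^ d * (q (i + 1)).2 * (P'.eval (x i) - Q'.eval (x i) * x (i + 1)) = 0 := by
      have := hq20 (i + 1)
      simp only [hx]
      field_simp
      field_simp at h1
      linear_combination h1
    have h3 := (mul_eq_zero.mp h2).resolve_left (mul_ne_zero (pow_ne_zero _ (hq20 i)) (hq20 _))
    exact sub_eq_zero.mp h3
  have hQ0 : ∀ i, Q'.eval (x i) ≠ 0 := by
    intro i h0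
    apply hnz' i
    have h1 := hstx i
    rw [h0, zero_mul] at h1
    ext
    · simp only [lift, Prod.fst_zero]
      rw [hom_aff hdP (hq20 i)]
      exact mul_eq_zero_of_right _ h1
    · simp only [lift, Prod.snd_zero]
      rw [hom_aff hdQ (hq20 i)]
      exact mul_eq_zero_of_right _ h0
  have hfx : ∀ i, P'.eval (x i) / Q'.eval (x i) = x (i + 1) := fun i => by
    rw [hstx i, mul_div_cancel_left₀ _ (hQ0 i)]
  have hPQ : ∀ i, w (P'.eval (x i)) ≤ w (Q'.eval (x i)) := fun i => by
    rw [hstx i, map_mul]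
    exact mul_le_of_le_one_right' (hx1 _)
  have hstr : ∀ i j, D i j < 1 → ∃ h < 1, D i j = h ^ m * D (i + 1) (j + 1) := by
    intro i j hij
    by_cases hxx : x i = x j
    · refine ⟨0, zero_lt_one, ?_⟩
      rw [hDx, hxx, sub_self, map_zero, zero_pow hm.ne', zero_mul]
    · rw [hDx] at hij ⊢
      obtain ⟨h, hh, h1⟩ := he.exp (x i) (x j) (hx1 i) (hx1 j) hij hxx (hQ0 i) (hQ0 j) (hPQ i) (hPQ j)
      rw [hfx, hfx] at h1
      exact ⟨h, hh, by rw [h1, hDx]⟩
  have hDle : ∀ i j, D i j ≤ 1 := fun i j => by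
    rw [hDx]
    exact (Valuation.map_sub _ _ _).trans (max_le (hx1 i) (hx1 j))
  have hpow : ∀ i j k, (∃ g, D i j = g ^ m) ∨
      ∃ H ≤ 1, (0 < k → H < 1) ∧ D i j = H ^ m * D (i + k) (j + k) := by
    intro i j k
    induction k with
    | zero => right; exact ⟨1, le_rfl, fun h => absurd h (lt_irrefl 0), by simp⟩
    | succ k ih =>
      rcases ih with h | ⟨H, hH1, -, h⟩
      · exact Or.inl h
      · rcases (hDle (i + k) (j + k)).lt_or_eq with h1 | h1
        · right
          obtain ⟨h', hh', h2⟩ := hstr _ _ h1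
          have h3 : H * h' < 1 := lt_of_le_of_lt (mul_le_of_le_one_of_le hH1 le_rfl) hh'
          refine ⟨H * h', h3.le, fun _ => h3, ?_⟩
          rw [h, h2, mul_pow, mul_assoc]
          rfl
        · left
          exact ⟨H, by rw [h, h1, mul_one]⟩
  have hfin : ∀ i j, ∃ g, D i j = g ^ m := by
    intro i j
    rcases hpow i j n with h | ⟨H, -, hH, h⟩
    · exact h
    · rw [hperD', hperD] at h
      by_cases h0 : D i j = 0
      · exact ⟨0, by rw [h0, zero_pow hm.ne']⟩
      · exfalso
        have h4 : H ^ m < 1 := pow_lt_one₀ zero_le (hH hn) hm.ne'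
        have h5 : H ^ m * D i j < 1 * D i j := mul_lt_mul_of_pos_right h4 (zero_lt_iff.mpr h0)
        rw [one_mul] at h5
        exact absurd h h5.ne'
  refine ⟨fun i => w (t i), w A.det, fun i => (Valuation.ne_zero_iff _).mpr (ht i),
    (Valuation.ne_zero_iff _).mpr hA, fun a b => ?_⟩
  obtain ⟨g, hg⟩ := hfin a b
  refine ⟨g, ?_⟩
  have h1 : w (det (q a) (q b)) = g ^ m := hg
  rw [coord_det (hpq a) (hpq b), map_mul, map_mul, map_mul, h1, mul_comm (w (t a) * w (t b))]

end expand

end Pool.Agent.H421.Cy
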