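import Pool.Agent.H421.CyE

/-!
# Rational maps on the projective line: the bound for the periods
-/

set_option autoImplicit false

open Polynomial NumberField IsDedekindDomain

namespace Pool.Agent.H421.Cy

section defs

variable {K : Type} [Field K]

lemma IsRat.lift_ne {d : ℕ} {P Q : K[X]} (h : IsRat d P Q) (hd : 1 ≤ d) {p : K × K} (hp : p ≠ 0) :
    lift d P Q p ≠ 0 := by
  intro h0
  obtain ⟨⟨a, b, hab⟩, hdeg⟩ := h
  have h1 : hom d P p = 0 := congrArg Prod.fst h0
  have h2 : hom d Q p = 0 := congrArg Prod.snd h0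
  by_cases hp2 : p.2 = 0
  · have hp1 : p.1 ≠ 0 := fun h => hp (Prod.ext h hp2)
    have key : ∀ R : K[X], hom d R p = 0 → R.coeff d = 0 := by
      intro R hR
      rw [hom, Finset.sum_range_succ, Finset.sum_eq_zero, zero_add, Nat.sub_self, pow_zero,
        mul_one] at hR
      · exact (mul_eq_zero.mp hR).resolve_right (pow_ne_zero _ hp1)
      · intro i hi
        have hi' := Finset.mem_range.mp hi
        rw [hp2, zero_pow (by omega), mul_zero]
    have hP := key P h1
    have hQ := key Q h2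
    rcases max_choice P.natDegree Q.natDegree with h | h
    · rw [← hdeg, h] at hP
      have : P = 0 := leadingCoeff_eq_zero.mp hP
      rw [hdeg] at h
      rw [this, natDegree_zero] at h
      omega
    · rw [← hdeg, h] at hQ
      have : Q = 0 := leadingCoeff_eq_zero.mp hQ
      rw [hdeg] at h
      rw [this, natDegree_zero] at h
      omega
  · rw [hom_aff (by omega) hp2] at h1 h2
    have e1 := (mul_eq_zero.mp h1).resolve_left (pow_ne_zero _ hp2)
    have e2 := (mul_eq_zero.mp h2).resolve_left (pow_ne_zero _ hp2)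
    have := congrArg (eval (p.1 / p.2)) hab
    rw [eval_add, eval_mul, eval_mul, e1, e2, mul_zero, mul_zero, add_zero, eval_one] at this
    exact zero_ne_one this

lemma mk_eq_iff {p q : K × K} (hp : p ≠ 0) (hq : q ≠ 0) :
    Projectivization.mk K p hp = Projectivization.mk K q hq ↔ det p q = 0 := by
  rw [Projectivization.mk_eq_mk_iff']
  constructor
  · rintro ⟨a, rfl⟩
    simp only [det, Prod.smul_fst, Prod.smul_snd, smul_eq_mul]; ring
  · intro h
    obtain ⟨c, hc⟩ := exists_smul hq h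
    exact ⟨c, hc.symm⟩

lemma eq_iff_det (x y : Projectivization K (K × K)) : x = y ↔ det x.rep y.rep = 0 := by
  rw [← mk_eq_iff x.rep_nonzero y.rep_nonzero, x.mk_rep, y.mk_rep]

lemma det_self (p : K × K) : det p p = 0 := by simp only [det]; ring

/-- one step of the map on representatives -/
lemma ratMap_step (d : ℕ) (P Q : K[X]) (x : Projectivization K (K × K)) :
    det (lift d P Q x.rep) (ratMap d P Q x).rep = 0 := by
  by_cases h : lift d P Q x.rep = 0
  · rw [h]; simp [det]
  · have h1 : ratMap d P Q x = Projectivization.mk K (lift d P Q x.rep) h := by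
      rw [ratMap, dif_pos h]
    rw [h1, ← mk_eq_iff h (Projectivization.rep_nonzero _), Projectivization.mk_rep]

end defs

variable {K : Type} [Field K] [NumberField K]

lemma PotGood.cycAt {v : HeightOneSpectrum (𝓞 K)} {d : ℕ} {P Q : K[X]} (h : PotGood v d P Q)
    {n : ℕ} (hn : 0 < n) {p : ℕ → K × K} (hp0 : ∀ i, p i ≠ 0)
    (hstep : ∀ i, det (lift d P Q (p i)) (p (i + 1)) = 0)
    (hper : ∀ i, det (p i) (p (i + n)) = 0) : CycAt v n p := by
  obtain ⟨L, _, _, Γ, _, w, j, hj, hw, A, P', Q', hc, hP, hQ, hred⟩ := h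
  set φ := algebraMap K L with hφ
  set pL : ℕ → L × L := fun i => (φ (p i).1, φ (p i).2) with hpL
  have hdet : ∀ a b : K × K, det (φ a.1, φ a.2) (φ b.1, φ b.2) = φ (det a b) := by
    intro a b; simp only [det, map_sub, map_mul]
  have hhom : ∀ (R : K[X]) (a : K × K), hom d (R.map φ) (φ a.1, φ a.2) = φ (hom d R a) := by
    intro R a
    simp only [hom, coeff_map, map_sum, map_mul, map_pow]
  have g1 : ∀ i, pL i ≠ 0 := by
    intro i h0
    have h1 : φ (p i).1 = 0 := congrArg Prod.fst h0
    have h2 : φ (p i).2 = 0 := congrArg Prod.snd h0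
    exact hp0 i (Prod.ext ((map_eq_zero φ).mp h1) ((map_eq_zero φ).mp h2))
  have g2 : ∀ i, det (lift d (P.map φ) (Q.map φ) (pL i)) (pL (i + 1)) = 0 := by
    intro i
    have h1 : lift d (P.map φ) (Q.map φ) (pL i) =
        (φ (lift d P Q (p i)).1, φ (lift d P Q (p i)).2) := by
      simp only [lift, hpL, hhom]
    rw [h1]
    simp only [hpL]
    rw [hdet, hstep, map_zero]
  have g3 : ∀ i, det (pL i) (pL (i + n)) = 0 := by
    intro i
    simp only [hpL]
    rw [hdet, hper, map_zero]
  obtain ⟨s, E, hs, hE, hd⟩ := good_cyc (w := w) hn hc hP hQ hred g1 g2 g3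
  refine ⟨Γ, inferInstance, j, s, E, hj.injective, hs, hE, fun a b hab => ?_⟩
  rw [← hw, ← hdet]
  exact hd a b hab

lemma ExpandsAt.powAt {v : HeightOneSpectrum (𝓞 K)} {m d : ℕ} (hm : 0 < m) {P Q : K[X]}
    (h : ExpandsAt v m d P Q) {n : ℕ} (hn : 0 < n) {p : ℕ → K × K} (hp0 : ∀ i, p i ≠ 0)
    (hstep : ∀ i, det (lift d P Q (p i)) (p (i + 1)) = 0) (hnz : ∀ i, lift d P Q (p i) ≠ 0)
    (hper : ∀ i, det (p i) (p (i + n)) = 0) (hne : det (p 0) (p 1) ≠ 0) : PowAt v m p := by
  obtain ⟨A, P', Q', hc, h1, h2, he⟩ := h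
  exact exp_cyc hn hc hm he h1 h2 hp0 hstep hnz hper hne

/-- **The bound for the periods.** -/
theorem period_bound (K : Type) [Field K] [NumberField K] {S : Set (HeightOneSpectrum (𝓞 K))}
    (hS : S.Finite) {m : ℕ} (hm : 4 ≤ m) : ∃ B : ℕ, ∀ (d : ℕ) (P Q : K[X]),
      1 ≤ d → IsRat d P Q → (∀ v ∉ S, PotGood v d P Q ∨ ExpandsAt v m d P Q) →
      ∀ x ∈ Function.periodicPts (ratMap d P Q),
        (∀ N, N ∣ Function.minimalPeriod (ratMap d P Q) x → Nat.Coprime N 6 → N ≤ B) ∧
        (6 ≤ m → Even m → Function.minimalPeriod (ratMap d P Q) x ≤ B) := by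
  obtain ⟨B, hB⟩ := abstract_bound K hS hm
  refine ⟨B + 1, fun d P Q hd hPQ hloc x hx => ?_⟩
  set f := ratMap d P Q with hf
  set n := Function.minimalPeriod f x with hn
  have hn0 : 0 < n := Function.minimalPeriod_pos_of_mem_periodicPts hx
  set p : ℕ → K × K := fun i => (f^[i] x).rep with hp
  have hp0 : ∀ i, p i ≠ 0 := fun i => Projectivization.rep_nonzero _
  have hiff : ∀ i j, det (p i) (p j) = 0 ↔ i ≡ j [MOD n] := by
    intro i j
    simp only [hp]
    rw [← eq_iff_det]
    constructor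
    · intro h
      rw [← Function.iterate_mod_minimalPeriod_eq (n := i),
        ← Function.iterate_mod_minimalPeriod_eq (n := j)] at h
      exact Function.iterate_injOn_Iio_minimalPeriod (Nat.mod_lt _ hn0) (Nat.mod_lt _ hn0) h
    · intro h
      rw [← Function.iterate_mod_minimalPeriod_eq (n := i),
        ← Function.iterate_mod_minimalPeriod_eq (n := j)]
      exact congrArg (fun k => f^[k] x) h
  rcases Nat.eq_or_lt_of_le (show 1 ≤ n from hn0) with h1 | h1
  · refine ⟨fun N hN _ => ?_, fun _ _ => by omega⟩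
    have := Nat.le_of_dvd hn0 hN
    omega
  have hstep : ∀ i, det (lift d P Q (p i)) (p (i + 1)) = 0 := by
    intro i
    have h2 := ratMap_step d P Q (f^[i] x)
    simp only [hp, Function.iterate_succ_apply']
    exact h2
  have hper : ∀ i, det (p i) (p (i + n)) = 0 := fun i => (hiff _ _).mpr (by
    rw [Nat.ModEq, Nat.add_mod_right])
  have hne : det (p 0) (p 1) ≠ 0 := fun h0 => by
    have := (hiff _ _).mp h0
    rw [Nat.ModEq, Nat.zero_mod, Nat.mod_eq_of_lt h1] at this
    omega
  have hl : Loc S m n p := by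
    refine ⟨hiff, fun v hv => ?_⟩
    rcases hloc v hv with h2 | h2
    · exact Or.inl (h2.cycAt hn0 hp0 hstep hper)
    · exact Or.inr (h2.powAt (by omega) hn0 hp0 hstep (fun i => hPQ.lift_ne hd (hp0 i)) hper hne)
  obtain ⟨h2, h3⟩ := hB n p hn0 hl
  exact ⟨fun N hN hN6 => (h2 N hN hN6).trans (Nat.le_succ _),
    fun h6 hev => (h3 h6 hev).trans (Nat.le_succ _)⟩

end Pool.Agent.H421.Cy
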