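import Pool.Agent.H421.CyF

/-!
# The number of periodic points
-/

set_option autoImplicit false

open Polynomial NumberField IsDedekindDomain

namespace Pool.Agent.H421.Cy

section iter

variable {K : Type} [Field K]

/-- the numerator and denominator of the iterates, started at the pair `(A, B)` -/
noncomputable def itp (d : ℕ) (P Q : K[X]) (AB : K[X] × K[X]) : ℕ → K[X] × K[X]
  | 0 => AB
  | N + 1 => (∑ i ∈ Finset.range (d + 1), C (P.coeff i) * (itp d P Q AB N).1 ^ i *
      (itp d P Q AB N).2 ^ (d - i), ∑ i ∈ Finset.range (d + 1), C (Q.coeff i) *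
      (itp d P Q AB N).1 ^ i * (itp d P Q AB N).2 ^ (d - i))

lemma itp_eval (d : ℕ) (P Q : K[X]) (AB : K[X] × K[X]) (N : ℕ) (y : K) :
    (((itp d P Q AB N).1.eval y, (itp d P Q AB N).2.eval y) : K × K) =
      (lift d P Q)^[N] (AB.1.eval y, AB.2.eval y) := by
  induction N with
  | zero => rfl
  | succ N ih =>
    rw [Function.iterate_succ_apply', ← ih]
    simp only [itp, lift, hom, eval_finsetSum, eval_mul, eval_C, eval_pow]

lemma itp_deg (d : ℕ) (P Q : K[X]) (AB : K[X] × K[X]) (hA : AB.1.natDegree ≤ 1)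
    (hB : AB.2.natDegree ≤ 1) (N : ℕ) :
    (itp d P Q AB N).1.natDegree ≤ d ^ N ∧ (itp d P Q AB N).2.natDegree ≤ d ^ N := by
  induction N with
  | zero => simpa [itp] using ⟨hA, hB⟩
  | succ N ih =>
    have key : ∀ R : K[X], (∑ i ∈ Finset.range (d + 1), C (R.coeff i) * (itp d P Q AB N).1 ^ i *
      (itp d P Q AB N).2 ^ (d - i)).natDegree ≤ d ^ (N + 1) := by
      intro R
      refine natDegree_sum_le_of_forall_le _ _ fun i hi => ?_
      have hid : i ≤ d := by have := Finset.mem_range.mp hi; omega
      have h1 : ((itp d P Q AB N).1 ^ i).natDegree ≤ i * d ^ N :=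
        natDegree_pow_le.trans (Nat.mul_le_mul_left _ ih.1)
      have h2 : ((itp d P Q AB N).2 ^ (d - i)).natDegree ≤ (d - i) * d ^ N :=
        natDegree_pow_le.trans (Nat.mul_le_mul_left _ ih.2)
      have h3 : (C (R.coeff i) * (itp d P Q AB N).1 ^ i).natDegree ≤ i * d ^ N :=
        (natDegree_C_mul_le _ _).trans h1
      refine natDegree_mul_le.trans ?_
      calc _ ≤ i * d ^ N + (d - i) * d ^ N := add_le_add h3 h2
        _ = d ^ (N + 1) := by
          rw [← add_mul, Nat.add_sub_cancel' hid, pow_succ']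
    exact ⟨key P, key Q⟩

lemma iterate_lift_smul (d : ℕ) (P Q : K[X]) (N : ℕ) (c : K) (p : K × K) :
    (lift d P Q)^[N] (c • p) = c ^ (d ^ N) • (lift d P Q)^[N] p := by
  induction N with
  | zero => simp
  | succ N ih =>
    rw [Function.iterate_succ_apply', ih, lift_smul, Function.iterate_succ_apply', ← pow_mul,
      pow_succ]

lemma IsRat.iter_ne {d : ℕ} {P Q : K[X]} (h : IsRat d P Q) (hd : 1 ≤ d) (N : ℕ) {p : K × K}
    (hp : p ≠ 0) : (lift d P Q)^[N] p ≠ 0 := by
  induction N with
  | zero => exact hp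
  | succ N ih =>
    rw [Function.iterate_succ_apply']
    exact h.lift_ne hd ih

/-- the iterates are not the identity -/
lemma iter_not_id [IsAlgClosed K] [Infinite K] {d : ℕ} {P Q : K[X]} (h : IsRat d P Q) (hd : 2 ≤ d)
    {N : ℕ} (hN : 0 < N) : (itp d P Q (X, 1) N).1 - X * (itp d P Q (X, 1) N).2 ≠ 0 := by
  intro h0
  have hPX : (itp d P Q (X, 1) N).1 = X * (itp d P Q (X, 1) N).2 := sub_eq_zero.mp h0
  have hdN : 2 ≤ d ^ N := hd.trans (Nat.le_self_pow hN.ne' d)
  -- the second component is constant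
  have hdeg0 : (itp d P Q (X, 1) N).2.degree = 0 := by
    by_contra hdeg
    obtain ⟨β, hβ⟩ := IsAlgClosed.exists_root _ hdeg
    have h1 := itp_eval d P Q (X, 1) N β
    rw [hPX, eval_mul, hβ.eq_zero, mul_zero] at h1
    refine h.iter_ne (by omega) N ?_ h1.symm
    intro hc
    have := congrArg Prod.snd hc
    simp at this
  obtain ⟨c, hc⟩ : ∃ c, (itp d P Q (X, 1) N).2 = C c := ⟨_, eq_C_of_degree_le_zero hdeg0.le⟩
  -- the other chart
  have h2 : ∀ y : K, y ≠ 0 → (itp d P Q (1, X) N).1.eval y * y = c * y ^ (d ^ N) := by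
    intro y hy
    have e1 := itp_eval d P Q (1, X) N y
    have e2 := itp_eval d P Q (X, 1) N y⁻¹
    rw [hPX, hc] at e2
    simp only [eval_mul, eval_X, eval_C, eval_one] at e1 e2
    have e3 : ((1, y) : K × K) = y • (y⁻¹, 1) := by
      ext <;> simp [hy]
    rw [e3, iterate_lift_smul, ← e2] at e1
    have e4 := congrArg Prod.fst e1
    simp only [Prod.smul_fst, smul_eq_mul] at e4
    rw [e4]
    field_simp
  have h3 : (itp d P Q (1, X) N).1 * X = C c * X ^ (d ^ N) := by
    apply Polynomial.funext
    intro y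
    by_cases hy : y = 0
    · subst hy
      simp [zero_pow (show d ^ N ≠ 0 by omega)]
    · rw [eval_mul, eval_X, h2 y hy]; simp
  have h2' : ∀ y : K, y ≠ 0 → (itp d P Q (1, X) N).2.eval y = c * y ^ (d ^ N) := by
    intro y hy
    have e1 := itp_eval d P Q (1, X) N y
    have e2 := itp_eval d P Q (X, 1) N y⁻¹
    rw [hPX, hc] at e2
    simp only [eval_mul, eval_X, eval_C, eval_one] at e1 e2
    have e3 : ((1, y) : K × K) = y • (y⁻¹, 1) := by
      ext <;> simp [hy]
    rw [e3, iterate_lift_smul, ← e2] at e1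
    have e4 := congrArg Prod.snd e1
    simp only [Prod.smul_snd, smul_eq_mul] at e4
    rw [e4, mul_comm]
  have h4 : (itp d P Q (1, X) N).2 = C c * X ^ (d ^ N) := by
    have : ((itp d P Q (1, X) N).2 - C c * X ^ (d ^ N)) * X = 0 := by
      apply Polynomial.funext
      intro y
      by_cases hy : y = 0
      · subst hy; simp
      · rw [eval_mul, eval_sub, h2' y hy]; simp
    exact sub_eq_zero.mp ((mul_eq_zero.mp this).resolve_right X_ne_zero)
  have h5 : (itp d P Q (1, X) N).1 = C c * X ^ (d ^ N - 1) := by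
    have : (itp d P Q (1, X) N).1 * X = (C c * X ^ (d ^ N - 1)) * X := by
      rw [h3, mul_assoc, ← pow_succ, Nat.sub_add_cancel (by omega)]
    exact mul_right_cancel₀ X_ne_zero this
  have h6 := itp_eval d P Q (1, X) N 0
  rw [h4, h5] at h6
  simp only [eval_mul, eval_C, eval_pow, eval_X, eval_one] at h6
  rw [zero_pow (by omega), zero_pow (by omega), mul_zero] at h6
  refine h.iter_ne (by omega) N ?_ h6.symm
  intro hcon
  have := congrArg Prod.fst hcon
  simp at this

end iter

section count

variable {K : Type} [Field K]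

lemma itp_map {L : Type} [Field L] (φ : K →+* L) (d : ℕ) (P Q : K[X]) (AB : K[X] × K[X]) (N : ℕ) :
    itp d (P.map φ) (Q.map φ) (AB.1.map φ, AB.2.map φ) N =
      ((itp d P Q AB N).1.map φ, (itp d P Q AB N).2.map φ) := by
  induction N with
  | zero => rfl
  | succ N ih =>
    simp only [itp, ih]
    ext1 <;> simp only [Polynomial.map_sum, Polynomial.map_mul, Polynomial.map_pow, map_C,
      coeff_map]

lemma IsRat.map {L : Type} [Field L] (φ : K →+* L) {d : ℕ} {P Q : K[X]} (h : IsRat d P Q) :
    IsRat d (P.map φ) (Q.map φ) := by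
  refine ⟨?_, by rw [natDegree_map, natDegree_map]; exact h.2⟩
  obtain ⟨a, b, hab⟩ := h.1
  refine ⟨a.map φ, b.map φ, ?_⟩
  rw [← Polynomial.map_mul, ← Polynomial.map_mul, ← Polynomial.map_add, hab, Polynomial.map_one]

lemma fix_poly_ne {d : ℕ} {P Q : K[X]} [CharZero K] (h : IsRat d P Q) (hd : 2 ≤ d)
    {N : ℕ} (hN : 0 < N) : (itp d P Q (X, 1) N).1 - X * (itp d P Q (X, 1) N).2 ≠ 0 := by
  intro h0
  have h1 := iter_not_id (h.map (algebraMap K (AlgebraicClosure K))) hd hN
  have h2 := itp_map (algebraMap K (AlgebraicClosure K)) d P Q (X, 1) N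
  simp only [map_X, Polynomial.map_one] at h2
  apply h1
  rw [h2]
  have h3 := congrArg (Polynomial.map (algebraMap K (AlgebraicClosure K))) h0
  rwa [Polynomial.map_sub, Polynomial.map_mul, map_X, Polynomial.map_zero] at h3

lemma iterate_rep {d : ℕ} {P Q : K[X]} (x : Projectivization K (K × K)) (N : ℕ) :
    det ((lift d P Q)^[N] x.rep) ((ratMap d P Q)^[N] x).rep = 0 := by
  induction N with
  | zero => exact det_self _
  | succ N ih =>
    rw [Function.iterate_succ_apply', Function.iterate_succ_apply']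
    obtain ⟨c, hc⟩ := exists_smul (Projectivization.rep_nonzero _) ih
    rw [hc, lift_smul, det_smul_left, ratMap_step, mul_zero]

/-- **The number of points fixed by the iterates.** -/
lemma fixed_encard {d : ℕ} {P Q : K[X]} [CharZero K] (h : IsRat d P Q) (hd : 2 ≤ d)
    {N : ℕ} (hN : 0 < N) :
    {x : Projectivization K (K × K) | (ratMap d P Q)^[N] x = x}.encard ≤ (d ^ N + 2 : ℕ) := by
  classical
  set R := (itp d P Q (X, 1) N).1 - X * (itp d P Q (X, 1) N).2 with hR
  have hR0 : R ≠ 0 := fix_poly_ne h hd hN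
  have hdeg := itp_deg d P Q (X, 1) natDegree_X_le (by simp) N
  have hRd : R.natDegree ≤ d ^ N + 1 := by
    refine (natDegree_sub_le _ _).trans (max_le (hdeg.1.trans (Nat.le_succ _)) ?_)
    refine natDegree_mul_le.trans ?_
    have := natDegree_X_le (R := K)
    have := hdeg.2
    omega
  have hne : ∀ r : K, ((r, 1) : K × K) ≠ 0 := fun r h => one_ne_zero (congrArg Prod.snd h)
  have hne' : ((1, 0) : K × K) ≠ 0 := fun h => one_ne_zero (congrArg Prod.fst h)
  have hsub : {x : Projectivization K (K × K) | (ratMap d P Q)^[N] x = x} ⊆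
      ((insert (Projectivization.mk K (1, 0) hne')
        (R.roots.toFinset.image fun r => Projectivization.mk K (r, 1) (hne r)) : Finset _) :
          Set (Projectivization K (K × K))) := by
    intro x hx
    rw [Finset.mem_coe, Finset.mem_insert, Finset.mem_image]
    have hx' : (ratMap d P Q)^[N] x = x := hx
    have h1 := iterate_rep (d := d) (P := P) (Q := Q) x N
    rw [hx'] at h1
    by_cases hb : x.rep.2 = 0
    · left
      rw [← x.mk_rep, mk_eq_iff x.rep_nonzero]
      simp only [det, hb]; ring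
    · right
      refine ⟨x.rep.1 / x.rep.2, ?_, ?_⟩
      · rw [Multiset.mem_toFinset, mem_roots hR0, IsRoot.def, hR, eval_sub, eval_mul, eval_X]
        have e1 := itp_eval d P Q (X, 1) N (x.rep.1 / x.rep.2)
        simp only [eval_X, eval_one] at e1
        have e2 : ((x.rep.1 / x.rep.2, 1) : K × K) = (x.rep.2)⁻¹ • x.rep := by
          ext
          · simp only [Prod.smul_fst, smul_eq_mul]; field_simp
          · simp [hb]
        rw [e2, iterate_lift_smul] at e1
        obtain ⟨c, hc⟩ := exists_smul x.rep_nonzero h1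
        rw [hc] at e1
        have e3 := congrArg Prod.fst e1
        have e4 := congrArg Prod.snd e1
        simp only [Prod.smul_fst, Prod.smul_snd, smul_eq_mul] at e3 e4
        rw [e3, e4]
        field_simp
        ring
      · conv_rhs => rw [← x.mk_rep]
        rw [mk_eq_iff _ x.rep_nonzero]
        simp only [det]
        field_simp
        ring
  refine (Set.encard_le_encard hsub).trans ?_
  rw [Set.encard_coe_eq_coe_finsetCard]
  have hcard : (insert (Projectivization.mk K (1, 0) hne')
      (R.roots.toFinset.image fun r => Projectivization.mk K (r, 1) (hne r))).card ≤ d ^ N + 2 := by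
    refine (Finset.card_insert_le _ _).trans ?_
    have e1 : (R.roots.toFinset.image fun r => Projectivization.mk K (r, 1) (hne r)).card ≤ d ^ N + 1 :=
      Finset.card_image_le.trans ((Multiset.toFinset_card_le _).trans ((card_roots' R).trans hRd))
    omega
  exact_mod_cast hcard

end count

/-- **The number of periodic points.** -/
theorem periodic_bound (K : Type) [Field K] [NumberField K] {S : Set (HeightOneSpectrum (𝓞 K))}
    (hS : S.Finite) {m : ℕ} (hm : 6 ≤ m) (hev : Even m) : ∃ (B : ℕ), ∀ (d : ℕ) (P Q : K[X]),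
      2 ≤ d → IsRat d P Q → (∀ v ∉ S, PotGood v d P Q ∨ ExpandsAt v m d P Q) →
      (Function.periodicPts (ratMap d P Q)).encard ≤ (d ^ B + 2 : ℕ) := by
  obtain ⟨B, hB⟩ := period_bound K hS (m := m) (by omega)
  refine ⟨B.factorial, fun d P Q hd hPQ hloc => ?_⟩
  refine (Set.encard_le_encard ?_).trans (fixed_encard hPQ hd (Nat.factorial_pos B))
  intro x hx
  have h1 := (hB d P Q (by omega) hPQ hloc x hx).2 hm hev
  have h2 : Function.minimalPeriod (ratMap d P Q) x ∣ B.factorial :=
    Nat.dvd_factorial (Function.minimalPeriod_pos_of_mem_periodicPts hx) h1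
  exact (Function.isPeriodicPt_minimalPeriod _ _).trans_dvd h2

end Pool.Agent.H421.Cy
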