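import Pool.Agent.H421.CyG

/-!
# The rational maps `P(z) / Q(z) + t`
-/

set_option autoImplicit false

open Polynomial NumberField IsDedekindDomain Pool.Agent.H422.HE

namespace Pool.Agent.H421.Cy

section basic

variable {K : Type} [Field K]

lemma tw_one (p : K × K) : tw (1 : Matrix (Fin 2) (Fin 2) K) p = p := by
  ext <;> simp [tw]

lemma conj_one (d : ℕ) (P Q : K[X]) : Conj d 1 P Q P Q :=
  ⟨by simp, 1, one_ne_zero, fun p => by rw [tw_one, tw_one, one_smul]⟩

lemma hom_add (d : ℕ) (P Q : K[X]) (t : K) (p : K × K) :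
    hom d (P + C t * Q) p = hom d P p + t * hom d Q p := by
  simp only [hom, coeff_add, coeff_C_mul, Finset.mul_sum]
  rw [← Finset.sum_add_distrib]
  exact Finset.sum_congr rfl fun i _ => by ring

end basic

section val

variable {K : Type} [Field K] {Γ : Type} [LinearOrderedCommGroupWithZero Γ] {w : Valuation K Γ}

/-- `P`, `Q` are integral, `deg P ≤ deg Q = d`, `Q` has a unit as leading coefficient and its
rational zeros modulo `w` are simple and are no zeros of `P` -/
structure Nice (w : Valuation K Γ) (d : ℕ) (P Q : K[X]) : Prop where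
  cP : ∀ i, w (P.coeff i) ≤ 1
  cQ : ∀ i, w (Q.coeff i) ≤ 1
  lead : w (Q.coeff d) = 1
  simple : ∀ x, w x ≤ 1 → w (Q.eval x) < 1 → w (P.eval x) = 1 ∧ w (Q.derivative.eval x) = 1

lemma Nice.good {d : ℕ} {P Q : K[X]} (h : Nice w d P Q) (hP : P.natDegree ≤ d)
    (hQ : Q.natDegree ≤ d) {t : K} (ht : w t ≤ 1) :
    (∀ i, w ((P + C t * Q).coeff i) ≤ 1) ∧ ∀ p, Normal w p → Normal w (lift d (P + C t * Q) Q p) := by
  have hint : ∀ i, w ((P + C t * Q).coeff i) ≤ 1 := by
    intro i
    rw [coeff_add, coeff_C_mul]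
    refine (Valuation.map_add _ _ _).trans (max_le (h.cP i) ?_)
    rw [map_mul]; exact mul_le_one' ht (h.cQ i)
  refine ⟨hint, fun p hp => ?_⟩
  refine le_antisymm (max_le (hom_le hint hp) (hom_le h.cQ hp)) ?_
  rcases hp.snd.lt_or_eq with h2 | h2
  · exact (hom_inf h.cQ h.lead hp h2).ge.trans (le_max_right _ _)
  have hp2 : p.2 ≠ 0 := fun h0 => by rw [h0, map_zero] at h2; exact zero_ne_one h2
  have hx : w (p.1 / p.2) ≤ 1 := by rw [map_div₀, h2, div_one]; exact hp.fst
  have e2 : w (hom d Q p) = w (Q.eval (p.1 / p.2)) := by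
    rw [hom_aff hQ hp2, map_mul, map_pow, h2, one_pow, one_mul]
  rcases (eval_le_one w h.cQ hx).lt_or_eq with h3 | h3
  · obtain ⟨h4, -⟩ := h.simple _ hx h3
    have hd : (P + C t * Q).natDegree ≤ d :=
      (natDegree_add_le _ _).trans (max_le hP ((natDegree_C_mul_le _ _).trans hQ))
    have e1 : w (hom d (P + C t * Q) p) = 1 := by
      rw [hom_aff hd hp2, map_mul, map_pow, h2, one_pow, one_mul, eval_add, eval_mul, eval_C]
      have h5 : w (t * Q.eval (p.1 / p.2)) < w (P.eval (p.1 / p.2)) := by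
        rw [h4, map_mul]
        exact lt_of_le_of_lt (mul_le_of_le_one_of_le ht le_rfl) h3
      rw [Valuation.map_add_eq_of_lt_left _ h5, h4]
    exact e1.ge.trans (le_max_left _ _)
  · refine le_trans (le_of_eq ?_) (le_max_right _ _)
    simp only [lift]
    rw [e2, h3]

lemma Nice.expands {d : ℕ} {P Q : K[X]} (h : Nice w d P Q) {t : K} {k : ℕ} {g : Γ}
    (ht1 : 1 < w t) (ht : w t = g ^ k) : Expands w (2 * k) d (P + C t * Q) Q := by
  have hwt : w t ≠ 0 := (zero_lt_one.trans ht1).ne'
  have ht0 : t ≠ 0 := (Valuation.ne_zero_iff _).mp hwt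
  have hinf : ∀ p, Normal w p → w p.2 < 1 → w (hom d (P + C t * Q) p) = w t := by
    intro p hp hp2
    have h1 : w (t * hom d Q p) = w t := by
      rw [map_mul, hom_inf h.cQ h.lead hp hp2, mul_one]
    have h2 : w (hom d P p) < w (t * hom d Q p) := by
      rw [h1]; exact (hom_le h.cP hp).trans_lt ht1
    rw [hom_add, Valuation.map_add_eq_of_lt_right _ h2, h1]
  refine ⟨?_, ?_, ?_⟩
  · intro p hp hp2
    rw [hinf p hp hp2, hom_inf h.cQ h.lead hp hp2]
    exact ht1
  · intro p q hp hq hp2 hq2 hpq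
    rw [hinf p hp hp2, hinf q hq hq2]
    have e1 : det (lift d (P + C t * Q) Q p) (lift d (P + C t * Q) Q q) =
        det (lift d P Q p) (lift d P Q q) := by
      simp only [det, lift, hom_add]; ring
    rw [e1]
    refine (lift_le h.cP h.cQ hp hq).trans_lt ?_
    have h0 : 0 < w (det p q) := zero_lt_iff.mpr ((Valuation.ne_zero_iff _).mpr hpq)
    have h1 : 1 < w t * w t := one_lt_mul_of_lt_of_le' ht1 ht1.le
    calc w (det p q) = w (det p q) * 1 := (mul_one _).symm
      _ < w (det p q) * (w t * w t) := mul_lt_mul_of_pos_left h1 h0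
  · intro x y hx hy hxy hne hQx hQy hPx hPy
    have key : ∀ z, w z ≤ 1 → w ((P + C t * Q).eval z) ≤ w (Q.eval z) →
        w (P.eval z) = 1 ∧ w (Q.derivative.eval z) = 1 ∧ w (Q.eval z) < 1 ∧
        w t * w (Q.eval z) = 1 := by
      intro z hz hPz
      rw [eval_add, eval_mul, eval_C] at hPz
      have hQz : w (Q.eval z) < 1 := by
        refine lt_of_le_of_ne (eval_le_one w h.cQ hz) fun h1 => ?_
        have h2 : w (t * Q.eval z) = w t := by rw [map_mul, h1, mul_one]
        have h3 : w (P.eval z) < w (t * Q.eval z) := by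
          rw [h2]; exact (eval_le_one w h.cP hz).trans_lt ht1
        rw [Valuation.map_add_eq_of_lt_right _ h3, h2, h1] at hPz
        exact absurd ht1 (not_lt.mpr hPz)
      obtain ⟨h4, h5⟩ := h.simple z hz hQz
      refine ⟨h4, h5, hQz, ?_⟩
      rw [← map_mul]
      by_contra hcon
      have h6 : w (P.eval z) ≠ w (t * Q.eval z) := by rw [h4]; exact fun h => hcon h.symm
      have h7 := Valuation.map_add_of_distinct_val w h6
      rw [h7, h4] at hPz
      exact absurd hQz (not_lt.mpr ((le_max_left _ _).trans hPz))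
    obtain ⟨px, -, qx, tx⟩ := key x hx hPx
    obtain ⟨py, dy, qy, ty⟩ := key y hy hPy
    have hst := stretch h.cQ h.cP hx hy hxy qy dy py
    have hg : 1 < g := by
      by_contra hcon
      rw [not_lt] at hcon
      have := pow_le_one₀ (n := k) zero_le hcon
      rw [← ht] at this
      exact absurd ht1 (not_lt.mpr this)
    have hg0 : g ≠ 0 := (zero_lt_one.trans hg).ne'
    refine ⟨g⁻¹, inv_lt_one_of_one_lt₀ hg, ?_⟩
    have e1 : (P + C t * Q).eval x / Q.eval x - (P + C t * Q).eval y / Q.eval y =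
        - ((Q.eval x * P.eval y - Q.eval y * P.eval x) / (Q.eval x * Q.eval y)) := by
      simp only [eval_add, eval_mul, eval_C]
      field_simp
      ring
    have e2 : w (Q.eval x * Q.eval y) = (w t * w t)⁻¹ := by
      refine eq_inv_of_mul_eq_one_left ?_
      rw [map_mul, mul_mul_mul_comm, mul_comm (w (Q.eval x)), tx, mul_comm (w (Q.eval y)), ty,
        one_mul]
    rw [e1, Valuation.map_neg, map_div₀, hst, e2, div_inv_eq_mul, inv_pow, two_mul, pow_add,
      ← ht, mul_comm (w (x - y)), ← mul_assoc, inv_mul_cancel₀ (mul_ne_zero hwt hwt), one_mul]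

end val

section main

lemma Nice.isRat {K : Type} [Field K] {d : ℕ} {P Q : K[X]} (hPQ : IsCoprime P Q)
    (hP : P.natDegree ≤ d) (hQ : Q.natDegree = d) (t : K) : IsRat d (P + C t * Q) Q := by
  refine ⟨?_, ?_⟩
  · obtain ⟨a, b, hab⟩ := hPQ
    refine ⟨a, b - a * C t, ?_⟩
    linear_combination hab
  · refine le_antisymm (max_le ?_ hQ.le) (hQ.ge.trans (le_max_right _ _))
    exact (natDegree_add_le _ _).trans (max_le hP ((natDegree_C_mul_le _ _).trans hQ.le))

/-- **The maps `P / Q + t`**: uniform in `P`, `Q` and `t`. -/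
theorem nice_bound (K : Type) [Field K] [NumberField K] {S : Set (HeightOneSpectrum (𝓞 K))}
    (hS : S.Finite) {k : ℕ} (hk : 3 ≤ k) : ∃ (B : ℕ), ∀ (d : ℕ) (P Q : K[X]) (t : K),
      2 ≤ d → IsCoprime P Q → P.natDegree ≤ d → Q.natDegree = d →
      (∀ v ∉ S, Nice (v.valuation K) d P Q ∧
        (v.valuation K t ≤ 1 ∨ ∃ g, v.valuation K t = g ^ k)) →
      (∀ x ∈ Function.periodicPts (ratMap d (P + C t * Q) Q),
        Function.minimalPeriod (ratMap d (P + C t * Q) Q) x ≤ B) ∧
      (Function.periodicPts (ratMap d (P + C t * Q) Q)).encard ≤ (d ^ B.factorial + 2 : ℕ) := by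
  have hloc : ∀ (d : ℕ) (P Q : K[X]) (t : K), P.natDegree ≤ d → Q.natDegree = d →
      (∀ v ∉ S, Nice (v.valuation K) d P Q ∧
        (v.valuation K t ≤ 1 ∨ ∃ g, v.valuation K t = g ^ k)) →
      ∀ v ∉ S, PotGood v d (P + C t * Q) Q ∨ ExpandsAt v (2 * k) d (P + C t * Q) Q := by
    intro d P Q t hP hQ h v hv
    obtain ⟨hn, ht⟩ := h v hv
    by_cases h1 : v.valuation K t ≤ 1
    · left
      obtain ⟨h2, h3⟩ := hn.good hP hQ.le h1
      refine ⟨K, inferInstance, inferInstance, WithZero (Multiplicative ℤ), inferInstance,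
        v.valuation K, MonoidWithZeroHom.id _, strictMono_id, fun x => rfl, 1,
        P + C t * Q, Q, ?_, h2, hn.cQ, h3⟩
      have e1 : (P + C t * Q).map (algebraMap K K) = P + C t * Q := Polynomial.map_id
      have e2 : Q.map (algebraMap K K) = Q := Polynomial.map_id
      rw [e1, e2]
      exact conj_one d _ _
    · right
      obtain ⟨g, hg⟩ := ht.resolve_left h1
      exact ⟨1, P + C t * Q, Q, conj_one d _ _,
        (natDegree_add_le _ _).trans (max_le hP ((natDegree_C_mul_le _ _).trans hQ.le)), hQ.le,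
        hn.expands (not_le.mp h1) hg⟩
  obtain ⟨B, hB⟩ := period_bound K hS (m := 2 * k) (by omega)
  refine ⟨B, fun d P Q t hd hPQ hP hQ h => ?_⟩
  have hrat := Nice.isRat hPQ hP hQ t
  have h1 : ∀ x ∈ Function.periodicPts (ratMap d (P + C t * Q) Q),
      Function.minimalPeriod (ratMap d (P + C t * Q) Q) x ≤ B := fun x hx =>
    (hB d _ _ (by omega) hrat (hloc d P Q t hP hQ h) x hx).2 (by omega) (even_two_mul k)
  refine ⟨h1, (Set.encard_le_encard ?_).trans (fixed_encard hrat hd (Nat.factorial_pos B))⟩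
  intro x hx
  have h2 : Function.minimalPeriod (ratMap d (P + C t * Q) Q) x ∣ B.factorial :=
    Nat.dvd_factorial (Function.minimalPeriod_pos_of_mem_periodicPts hx) (h1 x hx)
  exact (Function.isPeriodicPt_minimalPeriod _ _).trans_dvd h2

end main

end Pool.Agent.H421.Cy
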