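import Pool.Agent.H421.CyH

/-!
# The rational maps `P(z) / Q(z) + t` for fixed `P`, `Q`
-/

set_option autoImplicit false

open Polynomial NumberField IsDedekindDomain Pool.Agent.H422.HE

namespace Pool.Agent.H421.Cy

lemma bezout_val {K : Type} [Field K] {Γ : Type} [LinearOrderedCommGroupWithZero Γ]
    {w : Valuation K Γ} {P Q a b : K[X]} (hP : IntP w P) (ha : IntP w a) (hb : IntP w b)
    (h : a * P + b * Q = 1) {x : K} (hx : w x ≤ 1) (hQ : w (Q.eval x) < 1) : w (P.eval x) = 1 := by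
  refine le_antisymm (eval_le_one w hP hx) ?_
  by_contra hcon
  rw [not_le] at hcon
  have h1 : w ((a * P + b * Q).eval x) = 1 := by rw [h, eval_one, map_one]
  have h2 : w ((a * P + b * Q).eval x) < 1 := by
    rw [eval_add, eval_mul, eval_mul]
    refine Valuation.map_add_lt _ ?_ ?_
    · rw [map_mul]; exact lt_of_le_of_lt (mul_le_of_le_one_of_le (eval_le_one w ha hx) le_rfl) hcon
    · rw [map_mul]; exact lt_of_le_of_lt (mul_le_of_le_one_of_le (eval_le_one w hb hx) le_rfl) hQ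
  exact h2.ne h1

variable {K : Type} [Field K] [NumberField K]

lemma nice_finite {P Q : K[X]} (hPQ : IsCoprime P Q) (hQ : Q.Separable) :
    {v : HeightOneSpectrum (𝓞 K) | ¬ Nice (v.valuation K) Q.natDegree P Q}.Finite := by
  obtain ⟨a, b, hab⟩ := hPQ
  obtain ⟨a', b', hab'⟩ := hQ
  have hQ0 : Q ≠ 0 := by
    rintro rfl
    have := congrArg (eval 0) hab'
    simp at this
  refine (((((finite_intP P).union (finite_intP Q)).union ((finite_intP a).union (finite_intP b))).union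
    (((finite_intP a').union (finite_intP b')).union (finite_intP Q.derivative))).union
    (finite_unit Q.leadingCoeff (leadingCoeff_ne_zero.mpr hQ0))).subset ?_
  intro v hv
  by_contra hcon
  simp only [Set.mem_union, Set.mem_ofPred_eq, not_or, not_not] at hcon
  obtain ⟨⟨⟨⟨h1, h2⟩, h3, h4⟩, ⟨h5, h6⟩, h7⟩, h8⟩ := hcon
  refine hv ⟨h1, h2, h8, fun x hx hQx => ⟨bezout_val h1 h3 h4 hab hx hQx, ?_⟩⟩
  exact bezout_val (P := Q.derivative) (Q := Q) h7 h6 h5 (by rw [add_comm]; exact hab') hx hQx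

/-- **The maps `P / Q + t`**, fixed `P`, `Q`. -/
theorem family_bound (K : Type) [Field K] [NumberField K] {S : Set (HeightOneSpectrum (𝓞 K))}
    (hS : S.Finite) {k : ℕ} (hk : 3 ≤ k) (P Q : K[X]) (hPQ : IsCoprime P Q) (hQ : Q.Separable)
    (hd : 2 ≤ Q.natDegree) (hP : P.natDegree ≤ Q.natDegree) :
    ∃ (B : ℕ), ∀ t : K, (∀ v ∉ S, v.valuation K t ≤ 1 ∨ ∃ g, v.valuation K t = g ^ k) →
      (Function.periodicPts (ratMap Q.natDegree (P + C t * Q) Q)).encard ≤ (B : ℕ) := by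
  obtain ⟨B, hB⟩ := nice_bound K (hS.union (nice_finite hPQ hQ)) hk
  refine ⟨_, fun t ht => (hB Q.natDegree P Q t hd hPQ hP rfl fun v hv => ?_).2⟩
  simp only [Set.mem_union, Set.mem_ofPred_eq, not_or, not_not] at hv
  exact ⟨hv.2, ht v hv.1⟩

/-- **Main theorem.** -/
theorem main (K : Type) [Field K] [NumberField K] {S : Set (HeightOneSpectrum (𝓞 K))}
    (hS : S.Finite) (m : ℕ) (hm : 4 ≤ m) : ∃ B : ℕ, ∀ (d : ℕ) (P Q : K[X]), 1 ≤ d → IsRat d P Q →
      (∀ v ∉ S, PotGood v d P Q ∨ ExpandsAt v m d P Q) →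
      (∀ x ∈ Function.periodicPts (ratMap d P Q), ∀ N,
        N ∣ Function.minimalPeriod (ratMap d P Q) x → Nat.Coprime N 6 → N ≤ B) ∧
      (6 ≤ m → Even m →
        (∀ x ∈ Function.periodicPts (ratMap d P Q), Function.minimalPeriod (ratMap d P Q) x ≤ B) ∧
        (2 ≤ d → (Function.periodicPts (ratMap d P Q)).encard ≤ (d ^ B + 2 : ℕ))) := by
  obtain ⟨B, hB⟩ := period_bound K hS hm
  have hBB : B ≤ B.factorial := Nat.self_le_factorial B
  refine ⟨B.factorial, fun d P Q hd hPQ hloc => ⟨fun x hx N hN hN6 =>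
    ((hB d P Q hd hPQ hloc x hx).1 N hN hN6).trans hBB, fun hm6 hev => ⟨fun x hx =>
      ((hB d P Q hd hPQ hloc x hx).2 hm6 hev).trans hBB, fun hd2 => ?_⟩⟩⟩
  refine (Set.encard_le_encard ?_).trans (fixed_encard hPQ hd2 (Nat.factorial_pos B))
  intro x hx
  have h1 := (hB d P Q hd hPQ hloc x hx).2 hm6 hev
  have h2 : Function.minimalPeriod (ratMap d P Q) x ∣ B.factorial :=
    Nat.dvd_factorial (Function.minimalPeriod_pos_of_mem_periodicPts hx) h1
  exact (Function.isPeriodicPt_minimalPeriod _ _).trans_dvd h2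

end Pool.Agent.H421.Cy
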