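import Pool.Graph.R_pool_sql_team_seeded_3997aac3.Q103.FS.Core0
import Pool.Graph.R_pool_sql_team_seeded_3997aac3.Q103.FS.Bdg
import Pool.Graph.R_pool_sql_team_seeded_3997aac3.Q103.OP.All
import Pool.Graph.R_seed8.Y681.BI.Fam
import Pool.Graph.R_seed8.Y706.B13
import Pool.Graph.R_seed8.Y706.CH.Stm7

/-!
# Families of rational maps over number fields, without exceptions
-/

set_option autoImplicit false

namespace Pool.Agent.H421.Fam

open Pool.Agent.Y706 Pool.Agent.Y706.BI Pool.Agent.Y681.BI
open Pool.Agent.H936R2 Pool.Agent.H927R2.RD H294UB Pool.Agent.W275.UB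
  Pool.Agent.W193.UB Pool.Agent.W277.UH Pool.Agent.W277.UG Pool.Agent.W277.UC NumberField Filter
  Topology Polynomial

/-- families over number fields, points of bounded degree: all families which are not isotrivial -/
theorem fam : ∃ N : ℕ → ℕ → ℕ, ∀ (k : Type) [Field k] [NumberField k] (J : Type) [Fintype J]
    (ω : Module.Basis J ℤ (𝓞 k)) (d B : ℕ), 2 ≤ d → 1 ≤ B →
    ∀ (m : ℕ) (P Q : (MvPolynomial (Fin m) k)[X]), max P.natDegree Q.natDegree = d →
      IsCoprime (generic P) (generic Q) → ¬ IsoAlg k (genBar P) (genBar Q) d →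
      AlmostAll ω m {v | v 0 ≠ 0 ∧ IsCoprime (special v P) (special v Q) ∧
        max (special v P).natDegree (special v Q).natDegree = d ∧
        (preperB (special v P) (special v Q) d B).encard ≤ ((N B d : ℕ) : ℕ∞)} := by
  classical
  have hb := fun (B d : ℕ) => Pool.Agent.Q103.FS.bdg.{0, 0} Pool.Agent.Q103.FS.orbB_zero.{0} 1 B d
  have hb' : ∀ B d : ℕ, ∃ N : ℕ, 2 ≤ d →
    ∀ (k : Type) (K : Type) [Field k] [CharP k 0] [Field K] [Algebra k K] (t : K),
    Transcendental k t → FiniteDimensional (IntermediateField.adjoin k {t}) K →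
    Module.finrank (IntermediateField.adjoin k {t}) K ≤ 1 →
    ∀ (L : IntermediateField K (AlgebraicClosure K)), FiniteDimensional K L →
    Module.finrank K L ≤ B → ∀ P Q : (AlgebraicClosure K)[X], (∀ m, P.coeff m ∈ L) →
    (∀ m, Q.coeff m ∈ L) → IsCoprime P Q → max P.natDegree Q.natDegree = d →
    ¬ IsoAlg k P Q d →
    {z : Option (AlgebraicClosure K) |
      (Set.range fun m : ℕ => (ratP1 P Q d)^[m] z).Finite ∧
      ∀ x, z = some x → ∃ E : IntermediateField K (AlgebraicClosure K), FiniteDimensional K E ∧
        Module.finrank K E ≤ B ∧ x ∈ E}.encard ≤ ((N : ℕ) : ℕ∞) := by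
    intro B d
    by_cases hd : 2 ≤ d
    · obtain ⟨N, hN⟩ := hb B d hd
      exact ⟨N, fun _ => hN⟩
    · exact ⟨0, fun h => absurd h hd⟩
  choose N hN using hb'
  refine ⟨N, ?_⟩
  intro k _ _ J _ ω d B hd hB m P Q hmaxP hco hiso
  have hcz0 : CharZero (RF k m) :=
    charZero_of_injective_algebraMap (R := k) (algebraMap k _).injective
  have hinj : Function.Injective (algebraMap (MvPolynomial (Fin m) k) (RF k m)) :=
    IsFractionRing.injective _ _
  have hmax : max (generic P).natDegree (generic Q).natDegree = d := by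
    rw [generic, generic, Polynomial.natDegree_map_eq_of_injective hinj,
      Polynomial.natDegree_map_eq_of_injective hinj]
    exact hmaxP
  -- a variable
  obtain ⟨i, hi⟩ : ∃ i : Fin m, ¬ IsoAlg (others k i) (genBar P) (genBar Q) d := by
    by_contra hcon
    push Not at hcon
    exact hiso (Pool.Agent.Q103.OP.t_FLD k m d hd P Q ⟨hco, hmax⟩ hcon)
  have hczF : CharZero (others k i) := by
    constructor
    intro a b hab
    have := congrArg (algebraMap (others k i) (RF k m)) hab
    rw [map_natCast, map_natCast] at this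
    exact_mod_cast this
  have hcpF : CharP (others k i) 0 := CharP.ofCharZero _
  obtain ⟨hfd, hfr⟩ := finrank_one_of (F := others k i) (gen_sub i)
  have h1 : (PB (AlgebraicClosure (RF k m)) (generic P) (generic Q) d B).encard ≤
      ((N B d : ℕ) : ℕ∞) := by
    refine hN B d hd (others k i) (RF k m)
      (algebraMap (MvPolynomial (Fin m) k) (RF k m) (MvPolynomial.X i))
      (tr_sub i) hfd hfr ⊥ inferInstance ?_ (genBar P) (genBar Q) ?_ ?_ ?_ ?_ hi
    · rw [IntermediateField.finrank_bot]
      exact hB
    · intro j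
      unfold genBar
      rw [coeff_map]
      exact IntermediateField.algebraMap_mem _ _
    · intro j
      unfold genBar
      rw [coeff_map]
      exact IntermediateField.algebraMap_mem _ _
    · exact (isCoprime_map _).mpr hco
    · unfold genBar
      rw [natDegree_map_eq_of_injective (algebraMap (RF k m) _).injective,
        natDegree_map_eq_of_injective (algebraMap (RF k m) _).injective]
      exact hmax
  have h2 := fewB_of_encard (by omega) hmax hco B _ h1
  obtain ⟨s, hM⟩ := monIn_of_good (by omega) hmax hco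
  have hcoe : co (generic P) (generic Q) d =
      fun i => algebraMap (MvPolynomial (Fin m) k) (RF k m) (co P Q d i) := by
    rw [co_map]
    rfl
  rw [hcoe] at h2 hM
  have h3 := paramB ω (AlgebraicClosure k) hd (co P Q d) hM h2
  refine Pool.Agent.W275.ND.ratioV ω (ι := Fin (m + 1)) _ ?_
  intro ε hε
  refine (h3 ε hε).mono ?_
  intro w hw hcon
  apply hw
  obtain ⟨g1, ⟨s', g2⟩, g3⟩ := hcon
  have htp : (fun i => MvPolynomial.eval (tp ω w) (co P Q d i)) =
      co (P.map (MvPolynomial.eval (tp ω w))) (Q.map (MvPolynomial.eval (tp ω w))) d := by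
    rw [co_map]
  rw [htp] at g2 g3
  set p := P.map (MvPolynomial.eval (tp ω w)) with hp
  set q := Q.map (MvPolynomial.eval (tp ω w)) with hq
  have hpd : p.natDegree ≤ d := Polynomial.natDegree_map_le.trans ((le_max_left _ _).trans hmaxP.le)
  have hqd : q.natDegree ≤ d := Polynomial.natDegree_map_le.trans ((le_max_right _ _).trans hmaxP.le)
  obtain ⟨hco', hmax'⟩ := of_monIn hpd hqd g2
  have g4 := encard_of_fewB (by omega) hmax' hco' hB _ g3
  refine ⟨g1, hco', hmax', ?_⟩
  have hsub : preperB p q d B ⊆ PB (AlgebraicClosure k) p q d B := by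
    rintro z ⟨hz1, hz2⟩
    refine ⟨hz1, ?_⟩
    intro x hx
    have hint : IsIntegral k x := (Algebra.IsAlgebraic.isAlgebraic (R := k) x).isIntegral
    refine ⟨IntermediateField.adjoin k {x}, IntermediateField.adjoin.finiteDimensional hint, ?_,
      IntermediateField.mem_adjoin_simple_self k x⟩
    rw [IntermediateField.adjoin.finrank hint]
    exact hz2 x hx
  exact (Set.encard_le_encard hsub).trans g4

end Pool.Agent.H421.Fam
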