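import Pool.Agent.H421.OpQ1
import Pool.Agent.H421.OpQ2
import Pool.Agent.H421.OpQ3
import Pool.Agent.H421.OpQ4
import Pool.Agent.H421.OpS13
import Pool.Agent.H421.OpS157
import Pool.Agent.H421.OpT

/-!
# All primes `P ≤ 199`, `P = 1 (mod 4)`: the case that `P` is the Euler prime
-/

namespace Pool.Agent.H421.Op

theorem hasEuler : HasEuler 199 200 := by
  intro P hP h4 hle N D
  have h : ∀ n < 200, n.Prime → n % 4 = 1 → n ∈ [5, 13, 17, 29, 37, 41, 53, 61, 73, 89, 97, 101, 109,
      113, 137, 149, 157, 173, 181, 193, 197] := by decide +kernel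
  have h1 := h P (by omega) hP h4
  simp only [List.mem_cons, List.not_mem_nil, or_false] at h1
  rcases h1 with rfl | rfl | rfl | rfl | rfl | rfl | rfl | rfl | rfl | rfl | rfl | rfl | rfl | rfl | rfl | rfl | rfl | rfl | rfl | rfl | rfl
  · exact fullP_sound hP (by norm_num) okP5 D
  · exact fullR_sound hP (by norm_num) okP13 D (two13 D) rsP13
  · exact fullP_sound hP (by norm_num) okP17 D
  · exact fullP_sound hP (by norm_num) okP29 D
  · exact fullP_sound hP (by norm_num) okP37 D
  · exact fullP_sound hP (by norm_num) okP41 D
  · exact fullP_sound hP (by norm_num) okP53 D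
  · exact fullP_sound hP (by norm_num) okP61 D
  · exact fullP_sound hP (by norm_num) okP73 D
  · exact fullP_sound hP (by norm_num) okP89 D
  · exact fullP_sound hP (by norm_num) okP97 D
  · exact fullP_sound hP (by norm_num) okP101 D
  · exact fullP_sound hP (by norm_num) okP109 D
  · exact fullP_sound hP (by norm_num) okP113 D
  · exact fullP_sound hP (by norm_num) okP137 D
  · exact fullP_sound hP (by norm_num) okP149 D
  · exact fullR_sound hP (by norm_num) okP157 D (two157 D) rsP157
  · exact fullP_sound hP (by norm_num) okP173 D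
  · exact fullP_sound hP (by norm_num) okP181 D
  · exact fullP_sound hP (by norm_num) okP193 D
  · exact fullP_sound hP (by norm_num) okP197 D

end Pool.Agent.H421.Op
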