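import Pool.Agent.H421.OpV
import Pool.Agent.H421.OpG1
import Pool.Agent.H421.OpG2
import Pool.Agent.H421.OpG3
import Pool.Agent.H421.OpG4
import Pool.Agent.H421.OpG5
import Pool.Agent.H421.OpG6
import Pool.Agent.H421.OpG7
import Pool.Agent.H421.OpG8
import Pool.Agent.H421.OpG9
import Pool.Agent.H421.OpG10

/-!
# Odd perfect numbers whose even exponents `e` have a common divisor of the numbers `e + 1`
-/

namespace Pool.Agent.H421.Op

theorem hasCert : HasCert 199 200 := by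
  intro P hP h2 hle
  have h : ∀ n < 200, n.Prime → n = 2 ∨ n ∈ [3, 5, 7, 11, 13, 17, 19, 23, 29, 31, 37, 41, 43, 47, 53, 59, 61, 67, 71, 73, 79, 83, 89, 97, 101, 103, 107, 109, 113, 127, 131, 137, 139, 149, 151, 157, 163, 167, 173, 179, 181, 191, 193, 197, 199] := by decide +kernel
  have h1 := (h P (by omega) hP).resolve_left h2
  simp only [List.mem_cons, List.not_mem_nil, or_false] at h1
  rcases h1 with rfl | rfl | rfl | rfl | rfl | rfl | rfl | rfl | rfl | rfl | rfl | rfl | rfl | rfl | rfl | rfl | rfl | rfl | rfl | rfl | rfl | rfl | rfl | rfl | rfl | rfl | rfl | rfl | rfl | rfl | rfl | rfl | rfl | rfl | rfl | rfl | rfl | rfl | rfl | rfl | rfl | rfl | rfl | rfl | rfl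
  · exact ⟨_, _, _, ok3⟩
  · exact ⟨_, _, _, ok5⟩
  · exact ⟨_, _, _, ok7⟩
  · exact ⟨_, _, _, ok11⟩
  · exact ⟨_, _, _, ok13⟩
  · exact ⟨_, _, _, ok17⟩
  · exact ⟨_, _, _, ok19⟩
  · exact ⟨_, _, _, ok23⟩
  · exact ⟨_, _, _, ok29⟩
  · exact ⟨_, _, _, ok31⟩
  · exact ⟨_, _, _, ok37⟩
  · exact ⟨_, _, _, ok41⟩
  · exact ⟨_, _, _, ok43⟩
  · exact ⟨_, _, _, ok47⟩
  · exact ⟨_, _, _, ok53⟩
  · exact ⟨_, _, _, ok59⟩
  · exact ⟨_, _, _, ok61⟩
  · exact ⟨_, _, _, ok67⟩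
  · exact ⟨_, _, _, ok71⟩
  · exact ⟨_, _, _, ok73⟩
  · exact ⟨_, _, _, ok79⟩
  · exact ⟨_, _, _, ok83⟩
  · exact ⟨_, _, _, ok89⟩
  · exact ⟨_, _, _, ok97⟩
  · exact ⟨_, _, _, ok101⟩
  · exact ⟨_, _, _, ok103⟩
  · exact ⟨_, _, _, ok107⟩
  · exact ⟨_, _, _, ok109⟩
  · exact ⟨_, _, _, ok113⟩
  · exact ⟨_, _, _, ok127⟩
  · exact ⟨_, _, _, ok131⟩
  · exact ⟨_, _, _, ok137⟩
  · exact ⟨_, _, _, ok139⟩
  · exact ⟨_, _, _, ok149⟩
  · exact ⟨_, _, _, ok151⟩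
  · exact ⟨_, _, _, ok157⟩
  · exact ⟨_, _, _, ok163⟩
  · exact ⟨_, _, _, ok167⟩
  · exact ⟨_, _, _, ok173⟩
  · exact ⟨_, _, _, ok179⟩
  · exact ⟨_, _, _, ok181⟩
  · exact ⟨_, _, _, ok191⟩
  · exact ⟨_, _, _, ok193⟩
  · exact ⟨_, _, _, ok197⟩
  · exact ⟨_, _, _, ok199⟩

/-- All even exponents equal. -/
theorem equal_exponents (N b : ℕ) (ho : Odd N) (hN : N.Perfect)
    (h : ∀ q ∈ N.primeFactors, Even (N.factorization q) → N.factorization q = 2 * b) :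
    100 ≤ b := by
  have := part2 hasCert (by norm_num) ho hN h
  omega

/-- A common divisor `m > 1` of the numbers `e + 1`. -/
theorem common_divisor (N m : ℕ) (ho : Odd N) (hN : N.Perfect) (hm : 1 < m)
    (h : ∀ q ∈ N.primeFactors, Even (N.factorization q) → m ∣ N.factorization q + 1) :
    (∃ q, q.Prime ∧ q ^ 200 ∣ N) ∧ ∀ P, P.Prime → P ≤ 199 → P ∣ m → P ^ 200 ∣ N := by
  refine ⟨part4 hasCert hasEuler (by norm_num) (by decide) ho hN hm h, fun P hP hle hPm => ?_⟩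
  have hP2 : P ≠ 2 := by
    rintro rfl
    obtain ⟨q, hq, hqN, hqe⟩ := exists_even ho hN
    have hmq := hPm.trans (h q (Nat.mem_primeFactors.2 ⟨hq, hqN, hN.2.ne'⟩) hqe)
    obtain ⟨k, hk⟩ := hqe
    omega
  exact part3 hasCert hasEuler ho hN hP hP2 hle fun q hq he => hPm.trans (h q hq he)

end Pool.Agent.H421.Op
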