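import Pool.Agent.H421.OpM

/-!
# All even exponents equal to `P - 1`
-/

namespace Pool.Agent.H421.Op

open Finset

/-- A certificate for `P` with `K ≥ P` excludes odd perfect numbers all of whose even exponents are
equal to `P - 1`. -/
theorem no_equal {P K : ℕ} {L : List (ℕ × ℕ × ℕ × List (ℕ × ℕ))} {big : List ℕ} {c : Cert}
    (hP : P.Prime) (hP2 : P ≠ 2) (hK : P ≤ K) (hf : full P K L big c = true) {N : ℕ} (ho : Odd N)
    (hperf : N.Perfect)
    (h : ∀ q ∈ N.primeFactors, Even (N.factorization q) → N.factorization q + 1 = P) : False := by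
  have hN : N ≠ 0 := hperf.2.ne'
  have hs := sg_of_perfect hperf
  obtain ⟨p, h1, h2, h3, h4, h5⟩ := euler hN ho hs
  have he : ∀ q, q.Prime → q ∣ N → q ≠ p → N.factorization q + 1 = P := fun q hq hqN hqp =>
    h q (Nat.mem_primeFactors.2 ⟨hq, hqN, hN⟩) (h5 q hq hqN hqp)
  have D : Opn N p P := ⟨hN, ho, hs, h1, h2, h3, h4, h5, fun q hq hqN hqp => by
    rw [he q hq hqN hqp]⟩
  by_cases hPp : P = p
  · subst hPp
    refine not_euler D h1 hP2 1 one_ne_zero ?_ rfl
    intro q hq hqN hqp
    rw [he q hq hqN hqp, pow_one]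
  · have hPN := kanold D hP hP2 hPp
    have h6 := (hP.pow_dvd_iff_le_factorization hN).1 (full_sound hP hP2 hf D hPp)
    have := he P hP hPN hPp
    omega

end Pool.Agent.H421.Op
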