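import Mathlib
import Pool.Agent.H422.UC.Local

/-!
# `e x ^ d + 1`: one nonarchimedean place

The local part for all twists of the unicritical polynomials.  Uses the general lemmas of
`Pool.Agent.H422.UC` (helper422).
-/

set_option autoImplicit false

open Polynomial Pool.Agent.H422.UC

namespace Pool.Agent.H421.TW

/-- the map `x ↦ e x ^ d + 1` -/
def GG {K : Type*} [Field K] (d : ℕ) (e : K) : K → K := fun x => e * x ^ d + 1

section

variable {K : Type*} [Field K] {Γ : Type*} [LinearOrderedCommGroupWithZero Γ] (v : Valuation K Γ)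
  {d : ℕ} {e : K}

lemma GG_sub (x y : K) : GG d e x - GG d e y = e * (x ^ d - y ^ d) := by simp only [GG]; ring

lemma GG_root {ζ y : K} (h : ζ ^ d = 1) : GG d e (ζ * y) = GG d e y := by
  simp only [GG]; rw [mul_pow, h, one_mul]

lemma pre_rt {ζ y : K} (h : ζ ^ d = 1) (hy : Pre (GG d e) y) : Pre (GG d e) (ζ * y) := by
  apply Pre.of_step
  rw [GG_root h]
  exact hy.step

/-- escape region -/
lemma escape_step {x : K} (h1 : 1 < v e * v x ^ (d - 1)) (h2 : 1 < v e * v x ^ d) (hd : 2 ≤ d) :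
    v x < v (GG d e x) ∧ v (GG d e x) = v e * v x ^ d := by
  have h3 : v (GG d e x) = v e * v x ^ d := by
    rw [GG, Valuation.map_add_eq_of_lt_left, map_mul, map_pow]
    rw [map_mul, map_pow, map_one]; exact h2
  refine ⟨?_, h3⟩
  have hx0 : v x ≠ 0 := by
    intro h
    rw [h, zero_pow (by omega), mul_zero] at h2
    exact absurd h2 (not_lt.mpr zero_le)
  rw [h3]
  have h4 : v e * v x ^ d = (v e * v x ^ (d - 1)) * v x := by
    rw [mul_assoc, ← pow_succ, Nat.sub_add_cancel (by omega)]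
  rw [h4]
  calc v x = 1 * v x := (one_mul _).symm
    _ < (v e * v x ^ (d - 1)) * v x := (mul_lt_mul_iff_left₀ (zero_lt_iff.mpr hx0)).mpr h1

lemma not_escape (hd : 2 ≤ d) {x : K} (hx : Pre (GG d e) x) :
    ¬ (1 < v e * v x ^ (d - 1) ∧ 1 < v e * v x ^ d) := by
  rintro ⟨h1, h2⟩
  have key : ∀ n : ℕ, (1 < v e * v ((GG d e)^[n] x) ^ (d - 1) ∧
      1 < v e * v ((GG d e)^[n] x) ^ d) := by
    intro n
    induction n with
    | zero => exact ⟨h1, h2⟩
    | succ n ih =>
      obtain ⟨i1, i2⟩ := ih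
      obtain ⟨j1, j2⟩ := escape_step v i1 i2 hd
      rw [Function.iterate_succ_apply']
      refine ⟨i1.trans_le ?_, i2.trans_le ?_⟩
      · exact mul_le_mul' le_rfl (pow_le_pow_left₀ zero_le j1.le _)
      · exact mul_le_mul' le_rfl (pow_le_pow_left₀ zero_le j1.le _)
  have mono : StrictMono (fun n : ℕ => v ((GG d e)^[n] x)) := by
    apply strictMono_nat_of_lt_succ
    intro n
    rw [Function.iterate_succ_apply']
    exact (escape_step v (key n).1 (key n).2 hd).1
  obtain ⟨m, n, hmn, he⟩ := hx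
  have := mono hmn
  simp only [he] at this
  exact lt_irrefl _ this

/-- good places -/
lemma u_le_one (hd : 2 ≤ d) (he : v e ≤ 1) {x : K} (hx : Pre (GG d e) x) :
    v e * v x ^ (d - 1) ≤ 1 := by
  by_contra h
  rw [not_le] at h
  apply not_escape v hd hx
  refine ⟨h, ?_⟩
  have h1 : 1 < v x := by
    by_contra hcon
    rw [not_lt] at hcon
    exact absurd h (not_lt.mpr (mul_le_one' he (pow_le_one' hcon _)))
  calc 1 < v e * v x ^ (d - 1) := h
    _ = v e * v x ^ (d - 1) * 1 := (mul_one _).symm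
    _ ≤ v e * v x ^ (d - 1) * v x := mul_le_mul' le_rfl h1.le
    _ = v e * v x ^ d := by rw [mul_assoc, ← pow_succ, Nat.sub_add_cancel (by omega)]

/-- bad places -/
lemma v_pow_eq (hd : 2 ≤ d) (he : 1 < v e) {x : K} (hx : Pre (GG d e) x) :
    v e * v x ^ d = 1 := by
  rcases lt_trichotomy (v e * v x ^ d) 1 with h | h | h
  · exfalso
    have h1 : v (GG d e x) = 1 := by
      rw [GG, Valuation.map_add_eq_of_lt_right, map_one]
      rw [map_mul, map_pow, map_one]; exact h
    apply not_escape v hd hx.step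
    rw [h1, one_pow, one_pow, mul_one]
    exact ⟨he, he⟩
  · exact h
  · exfalso
    apply not_escape v hd hx
    refine ⟨?_, h⟩
    by_contra h1
    rw [not_lt] at h1
    have h2 : v x < 1 := by
      by_contra hcon
      rw [not_lt] at hcon
      have : 1 < v e * v x ^ (d - 1) := by
        calc 1 < v e := he
          _ = v e * 1 := (mul_one _).symm
          _ ≤ v e * v x ^ (d - 1) := mul_le_mul' le_rfl (one_le_pow₀ hcon)
      exact absurd this (not_lt.mpr h1)
    have h3 : v e * v x ^ d ≤ 1 := by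
      calc v e * v x ^ d = v e * v x ^ (d - 1) * v x := by
            rw [mul_assoc, ← pow_succ, Nat.sub_add_cancel (by omega)]
        _ ≤ 1 * 1 := mul_le_mul' h1 h2.le
        _ = 1 := one_mul _
    exact absurd h (not_lt.mpr h3)

/-- at bad places the value of a preperiodic point is determined -/
lemma v_eq_inv (hd : 2 ≤ d) {γ : Γ} (hγ : v e = γ ^ d) (hg1 : 1 < γ) {x : K}
    (hx : Pre (GG d e) x) : v x = γ⁻¹ := by
  have he : 1 < v e := by rw [hγ]; exact one_lt_pow₀ hg1 (by omega)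
  have h := v_pow_eq v hd he hx
  have hg0 : γ ≠ 0 := ne_of_gt (lt_trans zero_lt_one hg1)
  rw [hγ, ← mul_pow] at h
  have h2 : γ * v x = 1 := (pow_eq_one_iff_of_nonneg zero_le (by omega)).mp h
  exact eq_inv_of_mul_eq_one_right h2

variable {ζ₀ : K} (hζ : IsPrimitiveRoot ζ₀ d)

include hζ in
/-- the normalized distance of the images -/
lemma u_prod (hd : 2 ≤ d) (x y : K) :
    v e * v (GG d e x - GG d e y) ^ (d - 1) =
      ∏ ζ ∈ nthRootsFinset d (1 : K), (v e * v (x - ζ * y) ^ (d - 1)) := by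
  rw [GG_sub, map_mul, prod_eq v hζ hd, Finset.prod_mul_distrib, Finset.prod_const,
    hζ.card_nthRootsFinset, Finset.prod_pow, mul_pow, ← mul_assoc, ← pow_succ',
    Nat.sub_add_cancel (by omega)]

lemma u_sub_le (hd : 2 ≤ d) (he : v e ≤ 1) {x y ζ : K} (hx : Pre (GG d e) x)
    (hy : Pre (GG d e) y) (h : ζ ^ d = 1) : v e * v (x - ζ * y) ^ (d - 1) ≤ 1 := by
  have h1 : v (x - ζ * y) ≤ max (v x) (v (ζ * y)) := v.map_sub _ _
  rcases le_max_iff.mp h1 with h2 | h2
  · exact (mul_le_mul' le_rfl (pow_le_pow_left₀ zero_le h2 _)).trans (u_le_one v hd he hx)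
  · exact (mul_le_mul' le_rfl (pow_le_pow_left₀ zero_le h2 _)).trans
      (u_le_one v hd he (pre_rt h hy))

include hζ in
/-- good places: differences of periodic points -/
theorem good_per (hd : 2 ≤ d) (he0 : e ≠ 0) (he : v e ≤ 1) {x y : K} (hx : Per (GG d e) x)
    (hy : Per (GG d e) y) (hne : x ≠ y) {ζ : K} (h : ζ ^ d = 1) (h1 : ζ ≠ 1) :
    v e * v (x - ζ * y) ^ (d - 1) = 1 := by
  classical
  have hve : v e ≠ 0 := (Valuation.ne_zero_iff _).mpr he0
  -- the product
  have hpr : ∀ x y : K, v e * v (GG d e x - GG d e y) ^ (d - 1) =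
      (v e * v (x - y) ^ (d - 1)) *
        ∏ ζ ∈ (nthRootsFinset d (1 : K)).erase 1, (v e * v (x - ζ * y) ^ (d - 1)) := by
    intro x y
    rw [u_prod v hζ hd, ← Finset.mul_prod_erase _ (fun ζ => v e * v (x - ζ * y) ^ (d - 1))
      ((mem_roots' hd).mpr (one_pow d)), one_mul]
  have hQ : ∀ {x y : K}, Pre (GG d e) x → Pre (GG d e) y →
      ∏ ζ ∈ (nthRootsFinset d (1 : K)).erase 1, (v e * v (x - ζ * y) ^ (d - 1)) ≤ 1 := by
    intro x y hx hy
    apply Finset.prod_le_one'
    intro ζ hζ'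
    exact u_sub_le v hd he hx hy ((mem_roots' hd).mp (Finset.mem_of_mem_erase hζ'))
  have hstep : ∀ {x y : K}, Pre (GG d e) x → Pre (GG d e) y →
      v e * v (GG d e x - GG d e y) ^ (d - 1) ≤ v e * v (x - y) ^ (d - 1) := by
    intro x y hx hy
    rw [hpr]
    calc (v e * v (x - y) ^ (d - 1)) * _ ≤ (v e * v (x - y) ^ (d - 1)) * 1 :=
          mul_le_mul' le_rfl (hQ hx hy)
      _ = v e * v (x - y) ^ (d - 1) := mul_one _
  have hit : ∀ k : ℕ, v e * v ((GG d e)^[k + 1] x - (GG d e)^[k + 1] y) ^ (d - 1) ≤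
      v e * v (GG d e x - GG d e y) ^ (d - 1) := by
    intro k
    induction k with
    | zero => exact le_rfl
    | succ k ih =>
      rw [Function.iterate_succ_apply' _ (k + 1) x, Function.iterate_succ_apply' _ (k + 1) y]
      exact (hstep (hx.pre.iter _) (hy.pre.iter _)).trans ih
  obtain ⟨n, hn, e1, e2⟩ := common_period hx hy
  have h2 := hit (n - 1)
  rw [Nat.sub_add_cancel hn, e1, e2, hpr] at h2
  have hxy : v e * v (x - y) ^ (d - 1) ≠ 0 :=
    mul_ne_zero hve (pow_ne_zero _ ((Valuation.ne_zero_iff _).mpr (sub_ne_zero.mpr hne)))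
  have h3 : ∏ ζ ∈ (nthRootsFinset d (1 : K)).erase 1, (v e * v (x - ζ * y) ^ (d - 1)) = 1 := by
    refine le_antisymm (hQ hx.pre hy.pre) ?_
    have h4 : (v e * v (x - y) ^ (d - 1)) * 1 ≤ (v e * v (x - y) ^ (d - 1)) *
        ∏ ζ ∈ (nthRootsFinset d (1 : K)).erase 1, (v e * v (x - ζ * y) ^ (d - 1)) := by
      rw [mul_one]; exact h2
    exact (mul_le_mul_iff_right₀ (zero_lt_iff.mpr hxy)).mp h4
  refine all_eq_one _ _ (fun ζ' hζ' => ?_) h3 ζ ?_
  · exact u_sub_le v hd he hx.pre hy.pre ((mem_roots' hd).mp (Finset.mem_of_mem_erase hζ'))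
  · exact Finset.mem_erase.mpr ⟨h1, (mem_roots' hd).mpr h⟩

variable {γ : Γ}

include hζ in
/-- bad places: one step -/
lemma bad_stepG (hd : 2 ≤ d) (hγ : v e = γ ^ d) (hg1 : 1 < γ)
    (htame : ∀ ζ : K, ζ ^ d = 1 → ζ ≠ 1 → v (1 - ζ) = 1)
    {x y : K} (hy : Pre (GG d e) y) (h : v (x - y) < v y) :
    v (GG d e x - GG d e y) = γ * v (x - y) := by
  have hg0 : γ ≠ 0 := ne_of_gt (lt_trans zero_lt_one hg1)
  have hvy := v_eq_inv v hd hγ hg1 hy
  rw [GG_sub, map_mul, bad_step v hζ hd htame h, hvy, hγ, ← mul_assoc]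
  congr 1
  rw [inv_pow]
  nth_rewrite 1 [show d = (d - 1) + 1 by omega]
  rw [pow_succ, mul_comm (γ ^ (d - 1)) γ, mul_assoc, mul_inv_cancel₀ (pow_ne_zero _ hg0), mul_one]

include hζ in
/-- bad places: differences of never merging points -/
lemma bad_diff (hd : 2 ≤ d) (hγ : v e = γ ^ d) (hg1 : 1 < γ)
    (htame : ∀ ζ : K, ζ ^ d = 1 → ζ ≠ 1 → v (1 - ζ) = 1) :
    ∀ (n : ℕ) {x y : K}, Pre (GG d e) x → Pre (GG d e) y →
      v ((GG d e)^[n] x - (GG d e)^[n] y) = v ((GG d e)^[n] y) →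
      ∃ k : ℕ, v (x - y) * γ ^ k = v y := by
  intro n
  induction n with
  | zero =>
    intro x y _ _ h
    simp only [Function.iterate_zero, id] at h
    exact ⟨0, by rw [pow_zero, mul_one, h]⟩
  | succ n ih =>
    intro x y hx hy h
    rw [Function.iterate_succ_apply, Function.iterate_succ_apply] at h
    obtain ⟨k, hk⟩ := ih hx.step hy.step h
    have hvx := v_eq_inv v hd hγ hg1 hx
    have hvy := v_eq_inv v hd hγ hg1 hy
    have hle : v (x - y) ≤ v y := by
      refine (v.map_sub _ _).trans ?_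
      rw [hvx, hvy, max_self]
    rcases lt_or_eq_of_le hle with h1 | h1
    · rw [bad_stepG v hζ hd hγ hg1 htame hy h1, v_eq_inv v hd hγ hg1 hy.step] at hk
      refine ⟨k + 1, ?_⟩
      rw [hvy, pow_succ, ← hk]
      rw [mul_comm γ (v (x - y)), mul_assoc, mul_comm γ (γ ^ k)]
    · exact ⟨0, by rw [pow_zero, mul_one, h1]⟩

include hζ in
theorem bad_NM (hd : 2 ≤ d) (hγ : v e = γ ^ d) (hg1 : 1 < γ)
    (htame : ∀ ζ : K, ζ ^ d = 1 → ζ ≠ 1 → v (1 - ζ) = 1) {x y : K} (hx : Pre (GG d e) x)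
    (hy : Pre (GG d e) y) (hn : NM (GG d e) x y) : ∃ k : ℕ, v (x - y) * γ ^ k = v y := by
  by_cases hex : ∃ n, v ((GG d e)^[n] x - (GG d e)^[n] y) = v ((GG d e)^[n] y)
  · obtain ⟨n, h⟩ := hex
    exact bad_diff v hζ hd hγ hg1 htame n hx hy h
  · exfalso
    push Not at hex
    have hvy := v_eq_inv v hd hγ hg1 hy
    have hlt : ∀ n, v ((GG d e)^[n] x - (GG d e)^[n] y) < v ((GG d e)^[n] y) := by
      intro n
      have h1 := v_eq_inv v hd hγ hg1 (hx.iter n)
      have h2 := v_eq_inv v hd hγ hg1 (hy.iter n)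
      refine lt_of_le_of_ne ?_ (hex n)
      refine (v.map_sub _ _).trans ?_
      rw [h1, h2, max_self]
    have hpow : ∀ n, v ((GG d e)^[n] x - (GG d e)^[n] y) = γ ^ n * v (x - y) := by
      intro n
      induction n with
      | zero => simp
      | succ n ih =>
        rw [Function.iterate_succ_apply', Function.iterate_succ_apply',
          bad_stepG v hζ hd hγ hg1 htame (hy.iter n) (hlt n), ih, pow_succ', mul_assoc]
    obtain ⟨k, p, hp, e1, e2⟩ := common_pre hx hy
    have h3 := hpow (k + p)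
    rw [e1, e2, hpow k] at h3
    have hxy : v (x - y) ≠ 0 := (Valuation.ne_zero_iff _).mpr (sub_ne_zero.mpr (hn 0))
    have h4 : γ ^ k = γ ^ (k + p) := mul_right_cancel₀ hxy h3
    have h6 : γ ^ k < γ ^ (k + p) := pow_lt_pow_right₀ hg1 (by omega)
    rw [← h4] at h6
    exact lt_irrefl _ h6

include hζ in
/-- bad places: all factors -/
theorem bad_all (hd : 2 ≤ d) (hγ : v e = γ ^ d) (hg1 : 1 < γ)
    (htame : ∀ ζ : K, ζ ^ d = 1 → ζ ≠ 1 → v (1 - ζ) = 1) {x y : K} (hx : Pre (GG d e) x)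
    (hy : Pre (GG d e) y) (hn : NM (GG d e) x y) {ζ : K} (h : ζ ^ d = 1) :
    ∃ k : ℕ, v (x - ζ * y) * γ ^ k = v y := by
  have hn' : NM (GG d e) x (ζ * y) := by
    intro n
    match n with
    | 0 =>
      intro h1
      simp only [Function.iterate_zero, id] at h1
      apply hn 1
      rw [Function.iterate_one, h1, GG_root h]
    | n + 1 =>
      rw [Function.iterate_succ_apply, Function.iterate_succ_apply, GG_root h]
      have := hn (n + 1)
      rwa [Function.iterate_succ_apply, Function.iterate_succ_apply] at this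
  obtain ⟨g, hg⟩ := bad_NM v hζ hd hγ hg1 htame hx (pre_rt h hy) hn'
  refine ⟨g, ?_⟩
  rw [hg, map_mul, root_v v hd h, one_mul]

end

end Pool.Agent.H421.TW
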