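import Mathlib
import Pool.Agent.H421.TwA

/-!
# `e x ^ d + 1`: tails
-/

set_option autoImplicit false

open Polynomial Pool.Agent.H422.UC

namespace Pool.Agent.H421.TW

section

variable {K : Type*} [Field K] {Γ : Type*} [LinearOrderedCommGroupWithZero Γ] (v : Valuation K Γ)
  {d : ℕ} {e : K} {ζ₀ : K} (hζ : IsPrimitiveRoot ζ₀ d)

/-- these never merge -/
theorem tail_NM {w ζ₁ : K} (hw : Per (GG d e) w) (h1 : ζ₁ ^ d = 1)
    (hnp : ¬ Per (GG d e) (ζ₁ * w)) {k : ℕ} {x y : K} (hy : Per (GG d e) y)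
    (hx : (GG d e)^[k] x = ζ₁ * w) (hyw : (GG d e)^[k] y ≠ w) : NM (GG d e) x y := by
  intro n hn
  rcases Nat.lt_or_ge k n with hkn | hkn
  · obtain ⟨j, rfl⟩ : ∃ j, n = j + 1 + k := ⟨n - k - 1, by omega⟩
    rw [Function.iterate_add_apply, Function.iterate_add_apply _ _ _ y, hx,
      Function.iterate_succ_apply, GG_root h1, ← Function.iterate_succ_apply] at hn
    exact hyw (per_inj (hy.iter k) hw hn.symm)
  · have e1 : (GG d e)^[k - n] ((GG d e)^[n] x) = (GG d e)^[k - n] ((GG d e)^[n] y) := by rw [hn]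
    rw [← Function.iterate_add_apply, ← Function.iterate_add_apply, Nat.sub_add_cancel hkn, hx] at e1
    apply hnp
    rw [e1]
    exact hy.iter k

include hζ in
/-- A point whose orbit passes through a non-periodic `ζ₁ w`, and a periodic point: good places. -/
theorem good_tail (hd : 2 ≤ d) (he0 : e ≠ 0) (he : v e ≤ 1) {w ζ₁ : K} (hw : Per (GG d e) w)
    (h1 : ζ₁ ^ d = 1) (hnp : ¬ Per (GG d e) (ζ₁ * w)) (k : ℕ) :
    ∀ {x y : K}, Pre (GG d e) x → Per (GG d e) y → (GG d e)^[k] x = ζ₁ * w →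
      (GG d e)^[k] y ≠ w → v e * v (x - y) ^ (d - 1) = 1 ∧
        (1 ≤ k → ∀ ζ : K, ζ ^ d = 1 → v e * v (x - ζ * y) ^ (d - 1) = 1) := by
  classical
  have hζ1 : ζ₁ ≠ 1 := by
    rintro rfl
    rw [one_mul] at hnp
    exact hnp hw
  have hζ0 : ζ₁ ≠ 0 := by
    rintro rfl
    rw [zero_pow (by omega)] at h1
    exact zero_ne_one h1
  induction k with
  | zero =>
    intro x y _ hy hx hyw
    simp only [Function.iterate_zero, id] at hx hyw
    refine ⟨?_, fun h => by omega⟩
    have h2 : x - y = ζ₁ * (w - ζ₁⁻¹ * y) := by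
      rw [hx]; field_simp
    rw [h2, map_mul, root_v v hd h1, one_mul]
    refine good_per v hζ hd he0 he hw hy (Ne.symm hyw) ?_ ?_
    · rw [inv_pow, h1, inv_one]
    · intro h
      apply hζ1
      rw [← inv_inv ζ₁, h, inv_one]
  | succ k ih =>
    intro x y hx hy h2 h3
    rw [Function.iterate_succ_apply] at h2 h3
    obtain ⟨h4, -⟩ := ih hx.step hy.step h2 h3
    rw [u_prod v hζ hd] at h4
    have hall := all_eq_one (nthRootsFinset d (1 : K)) (fun ζ => v e * v (x - ζ * y) ^ (d - 1)) (by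
      intro ζ hζ'
      rw [mem_roots' hd] at hζ'
      exact u_sub_le v hd he hx hy.pre hζ') h4
    refine ⟨?_, fun _ ζ hζ' => hall ζ ((mem_roots' hd).mpr hζ')⟩
    have := hall 1 ((mem_roots' hd).mpr (one_pow d))
    simpa using this

lemma eq_of_u {a b : K} (hd : 2 ≤ d) (he0 : e ≠ 0)
    (h : v e * v a ^ (d - 1) = v e * v b ^ (d - 1)) : v a = v b := by
  have hve : v e ≠ 0 := (Valuation.ne_zero_iff _).mpr he0
  exact (pow_left_inj₀ zero_le zero_le (by omega)).mp (mul_left_cancel₀ hve h)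

include hζ in
/-- The preimage of `ζ₁ z`, `z` a fixed point. -/
theorem fixed_tail (hd : 2 ≤ d) (he0 : e ≠ 0) {m : ℕ}
    (hbad : 1 < v e → ∃ δ : Γ, v e = (δ ^ m) ^ d ∧ 1 < δ ^ m)
    (htame : ∀ ζ : K, ζ ^ d = 1 → ζ ≠ 1 → v (1 - ζ) = 1)
    {z x ζ₁ : K} (hz : GG d e z = z) (hz0 : z ≠ 0) (h1 : ζ₁ ^ d = 1) (hζ1 : ζ₁ ≠ 1)
    (hx : GG d e x = ζ₁ * z) {ζ ζ' : K} (h : ζ ^ d = 1) (h' : ζ' ^ d = 1) :
    ∃ g, v (x - ζ * z) = g ^ m * v (x - ζ' * z) := by
  classical
  have hzp : Pre (GG d e) z := ⟨0, 1, by omega, by rw [Function.iterate_one]; exact hz.symm⟩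
  have hxp : Pre (GG d e) x := by
    apply Pre.of_step
    rw [hx]
    exact pre_rt h1 hzp
  have hid : e * (x ^ d - z ^ d) = (ζ₁ - 1) * z := by
    rw [← GG_sub, hx, hz]; ring
  have hv1 : v (ζ₁ - 1) = 1 := by
    rw [Valuation.map_sub_swap]; exact htame ζ₁ h1 hζ1
  have hvz : v z ≠ 0 := (Valuation.ne_zero_iff _).mpr hz0
  have hve : v e ≠ 0 := (Valuation.ne_zero_iff _).mpr he0
  have hval : v (e * (x ^ d - z ^ d)) = v z := by rw [hid, map_mul, hv1, one_mul]
  rcases lt_or_ge 1 (v e) with hc | hc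
  · -- bad places
    obtain ⟨δ, hδ, hδ1⟩ := hbad hc
    have hδ0 : δ ^ m ≠ 0 := ne_of_gt (lt_trans zero_lt_one hδ1)
    have key : ∀ ζ : K, ζ ^ d = 1 → ∃ g, v (x - ζ * z) = g ^ m * v z ∧ g ^ m ≠ 0 := by
      intro ζ h
      have hxz : v x = v z := by
        rw [v_eq_inv v hd hδ hδ1 hxp, v_eq_inv v hd hδ hδ1 hzp]
      have hζz : v (ζ * z) = v z := by rw [map_mul, root_v v hd h, one_mul]
      have hle : v (x - ζ * z) ≤ v z := by
        refine (v.map_sub _ _).trans ?_
        rw [hxz, hζz, max_self]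
      rcases lt_or_eq_of_le hle with h2 | h2
      · have h3 := bad_stepG v hζ hd hδ hδ1 htame (x := x) (pre_rt h hzp) (by rw [hζz]; exact h2)
        rw [GG_root h, GG_sub, hval] at h3
        refine ⟨δ⁻¹, ?_, ?_⟩
        · rw [inv_pow, inv_mul_eq_div, eq_div_iff hδ0, mul_comm]
          exact h3.symm
        · rw [inv_pow]; exact inv_ne_zero hδ0
      · exact ⟨1, by rw [one_pow, one_mul, h2], by rw [one_pow]; exact one_ne_zero⟩
    obtain ⟨g, hg, -⟩ := key ζ h
    obtain ⟨g', hg', hg0⟩ := key ζ' h'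
    refine ⟨g / g', ?_⟩
    rw [hg, hg', div_pow, ← mul_assoc, div_mul_cancel₀ _ hg0]
  · have hz1 := u_le_one v hd hc hzp
    have hx1 := u_le_one v hd hc hxp
    rcases lt_or_eq_of_le hz1 with h2 | h2
    · -- the normalized size of `z` is less than one
      have h3 : v (e * z ^ d) < v z := by
        rw [map_mul, map_pow]
        calc v e * v z ^ d = (v e * v z ^ (d - 1)) * v z := by
              rw [mul_assoc, ← pow_succ, Nat.sub_add_cancel (by omega)]
          _ < 1 * v z := (mul_lt_mul_iff_left₀ (zero_lt_iff.mpr hvz)).mpr h2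
          _ = v z := one_mul _
      have h4 : v (e * x ^ d) = v z := by
        have : e * x ^ d = e * (x ^ d - z ^ d) + e * z ^ d := by ring
        rw [this, Valuation.map_add_eq_of_lt_left, hval]
        rw [hval]; exact h3
      have h5 : v z < v x := by
        by_contra hcon
        rw [not_lt] at hcon
        have h6 : v (e * x ^ d) ≤ v (e * z ^ d) := by
          rw [map_mul, map_mul, map_pow, map_pow]
          exact mul_le_mul' le_rfl (pow_le_pow_left₀ zero_le hcon d)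
        rw [h4] at h6
        exact absurd h3 (not_lt.mpr h6)
      have key : ∀ ζ : K, ζ ^ d = 1 → v (x - ζ * z) = v x := by
        intro ζ h
        apply Valuation.map_sub_eq_of_lt_left
        rw [map_mul, root_v v hd h, one_mul]
        exact h5
      exact ⟨1, by rw [key ζ h, key ζ' h', one_pow, one_mul]⟩
    · have h3 : ∏ ζ ∈ nthRootsFinset d (1 : K), (v e * v (x - ζ * z) ^ (d - 1)) = 1 := by
        rw [← u_prod v hζ hd, GG_sub, hval, h2]
      have hall := all_eq_one (nthRootsFinset d (1 : K))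
        (fun ζ => v e * v (x - ζ * z) ^ (d - 1)) (by
        intro ζ hζ'
        rw [mem_roots' hd] at hζ'
        exact u_sub_le v hd hc hxp hzp hζ') h3
      refine ⟨1, ?_⟩
      have e1 := hall ζ ((mem_roots' hd).mpr h)
      have e2 := hall ζ' ((mem_roots' hd).mpr h')
      rw [one_pow, one_mul]
      exact eq_of_u v hd he0 (e1.trans e2.symm)

end

end Pool.Agent.H421.TW
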