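import Mathlib
import Pool.Agent.H421.TwB
import Pool.Agent.H422.UC.Global

/-!
# `e x ^ d + 1` over a number field containing the `d`-th roots of unity
-/

set_option autoImplicit false

open Polynomial IsDedekindDomain NumberField

namespace Pool.Agent.H421.TW

open Pool.Agent.H422.UC Pool.Agent.H422.HE

section

variable {K : Type} [Field K] [NumberField K] {d m : ℕ} {ζ₀ : K}
  {S : Set (HeightOneSpectrum (𝓞 K))}

/-- the finite set of ratios -/
def Rat (S : Set (HeightOneSpectrum (𝓞 K))) (d m : ℕ) : Set K :=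
  {t : K | ∀ v ∉ S ∪ Sbad K d, ∀ r ∈ rts K d, ∀ s ∈ rts K d,
    ∃ g, v.valuation K (t - r) = g ^ m * v.valuation K (t - s)}

/-- the range of the exponents -/
def Range (m d : ℕ) : Prop := (4 ≤ m ∧ 4 ≤ d) ∨ (3 ≤ m ∧ 5 ≤ d) ∨ (2 ≤ m ∧ 6 ≤ d)

lemma Rat_finite (hζ : IsPrimitiveRoot ζ₀ d) (hS : S.Finite) (h : Range m d) :
    (Rat S d m).Finite := by
  classical
  have hd : 2 ≤ d := by rcases h with h | h | h <;> omega
  have hc : (rts K d).card = d - 1 := by
    rw [rts, Finset.card_erase_of_mem ((mem_roots' hd).mpr (one_pow d)), hζ.card_nthRootsFinset]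
  apply pow_fin_proj K (hS.union (Sbad_finite hd))
  rw [hc]
  rcases h with h | h | h <;> omega

/-- the condition on the parameter, strong form -/
def Adm (S : Set (HeightOneSpectrum (𝓞 K))) (d m : ℕ) (e : K) : Prop :=
  ∀ v ∉ S, 1 < v.valuation K e → ∃ δ, v.valuation K e = (δ ^ m) ^ d

lemma Adm.one_lt {v : HeightOneSpectrum (𝓞 K)} {e : K} {δ : WithZero (Multiplicative ℤ)}
    (h1 : 1 < v.valuation K e) (h : v.valuation K e = (δ ^ m) ^ d) : 1 < δ ^ m := by
  by_contra hcon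
  rw [not_lt] at hcon
  rw [h] at h1
  exact absurd h1 (not_lt.mpr (pow_le_one' hcon d))

variable {e : K} (hζ : IsPrimitiveRoot ζ₀ d)

include hζ in
/-- never merging preperiodic pairs which are good at the good places -/
lemma ratio_of (hd : 2 ≤ d) (he0 : e ≠ 0) (hadm : Adm S d m e) {x y : K}
    (hx : Pre (GG d e) x) (hy : Pre (GG d e) y) (hy0 : y ≠ 0)
    (hn : NM (GG d e) x y)
    (hgood : ∀ v : HeightOneSpectrum (𝓞 K), v.valuation K e ≤ 1 → ∀ ζ ∈ rts K d,
      v.valuation K e * v.valuation K (x - ζ * y) ^ (d - 1) = 1) : x / y ∈ Rat S d m := by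
  intro v hv r hr s hs
  rw [Set.mem_union, not_or] at hv
  have e0 : ∀ r : K, x / y - r = (x - r * y) / y := by intro r; field_simp
  suffices hsuf : ∃ g, v.valuation K (x - r * y) = g ^ m * v.valuation K (x - s * y) by
    obtain ⟨g, hg⟩ := hsuf
    exact ⟨g, by rw [e0, e0, map_div₀, map_div₀, hg, mul_div_assoc]⟩
  rcases lt_or_ge 1 (v.valuation K e) with hc | hc
  · have htame := tame_of hd hv.2
    obtain ⟨δ, hδ⟩ := hadm v hv.1 hc
    have hδ1 := Adm.one_lt hc hδ
    have hδ0 : δ ^ m ≠ 0 := ne_of_gt (lt_trans zero_lt_one hδ1)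
    obtain ⟨k, hk⟩ := bad_all (v.valuation K) hζ hd hδ hδ1 htame hx hy hn ((mem_rts hd).mp hr).1
    obtain ⟨k', hk'⟩ := bad_all (v.valuation K) hζ hd hδ hδ1 htame hx hy hn ((mem_rts hd).mp hs).1
    refine ⟨δ ^ k' / δ ^ k, ?_⟩
    have h1 : (δ ^ m) ^ k ≠ 0 := pow_ne_zero _ hδ0
    rw [div_pow, ← pow_mul, ← pow_mul, mul_comm k' m, mul_comm k m, pow_mul, pow_mul]
    rw [div_mul_eq_mul_div, eq_div_iff h1, hk, mul_comm, hk']
  · refine ⟨1, ?_⟩
    rw [one_pow, one_mul]
    exact eq_of_u (v.valuation K) hd he0 ((hgood v hc r hr).trans (hgood v hc s hs).symm)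

include hζ in
lemma ratio_per (hd : 2 ≤ d) (he0 : e ≠ 0) (hadm : Adm S d m e) {x y : K}
    (hx : Per (GG d e) x) (hy : Per (GG d e) y) (hy0 : y ≠ 0) (hne : x ≠ y) :
    x / y ∈ Rat S d m := by
  apply ratio_of hζ hd he0 hadm hx.pre hy.pre hy0 (per_NM hx hy hne)
  intro v hc ζ hζ'
  obtain ⟨h1, h2⟩ := (mem_rts hd).mp hζ'
  exact good_per (v.valuation K) hζ hd he0 hc hx hy hne h1 h2

include hζ in
lemma ratio_tail (hd : 2 ≤ d) (he0 : e ≠ 0) (hadm : Adm S d m e) {w ζ₁ : K}
    (hw : Per (GG d e) w) (h1 : ζ₁ ^ d = 1)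
    (hnp : ¬ Per (GG d e) (ζ₁ * w)) {k : ℕ} (hk : 1 ≤ k) {x y : K} (hx : Pre (GG d e) x)
    (hy : Per (GG d e) y) (hy0 : y ≠ 0) (e' : (GG d e)^[k] x = ζ₁ * w)
    (hyw : (GG d e)^[k] y ≠ w) : x / y ∈ Rat S d m := by
  apply ratio_of hζ hd he0 hadm hx hy.pre hy0 (tail_NM hw h1 hnp hy e' hyw)
  intro v hc ζ hζ'
  obtain ⟨h2, -⟩ := (mem_rts hd).mp hζ'
  exact (good_tail (v.valuation K) hζ hd he0 hc hw h1 hnp k hx hy e' hyw).2 hk ζ h2

include hζ in
lemma ratio_fixed (hd : 2 ≤ d) (he0 : e ≠ 0) (hadm : Adm S d m e) {z x ζ₁ : K}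
    (hz : GG d e z = z) (hz0 : z ≠ 0) (h1 : ζ₁ ^ d = 1)
    (hζ1 : ζ₁ ≠ 1) (hx : GG d e x = ζ₁ * z) : x / z ∈ Rat S d m := by
  intro v hv r hr s hs
  rw [Set.mem_union, not_or] at hv
  have e0 : ∀ r : K, x / z - r = (x - r * z) / z := by intro r; field_simp
  obtain ⟨g, hg⟩ := fixed_tail (v.valuation K) hζ hd he0 (m := m) (fun hc => by
      obtain ⟨δ, hδ⟩ := hadm v hv.1 hc
      exact ⟨δ, hδ, Adm.one_lt hc hδ⟩) (tame_of hd hv.2) hz hz0 h1 hζ1 hx
    ((mem_rts hd).mp hr).1 ((mem_rts hd).mp hs).1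
  exact ⟨g, by rw [e0, e0, map_div₀, map_div₀, hg, mul_div_assoc]⟩

/-- the exceptional parameters -/
def Exc (S : Set (HeightOneSpectrum (𝓞 K))) (d m : ℕ) : Set K :=
  {-1} ∪ Set.image2 (fun t t' => (t * (t' - 1) / (t ^ d - 1)) *
      (t - (t * (t' - 1) / (t ^ d - 1))) ^ (d - 1)) (Rat S d m) (Rat S d m) ∪
    ((fun t => ((t - 1) / (t ^ d - 1)) * (1 - ((t - 1) / (t ^ d - 1))) ^ (d - 1)) '' (Rat S d m)) ∪
    Set.image2 (fun t ζ => ((ζ - 1) / (t ^ d - 1)) * (1 - ((ζ - 1) / (t ^ d - 1))) ^ (d - 1))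
      (Rat S d m) (rts K d)

include hζ in
lemma Exc_finite (hS : S.Finite) (h : Range m d) : (Exc S d m).Finite := by
  have hR := Rat_finite hζ hS h
  exact (((Set.finite_singleton _).union (hR.image2 _ hR)).union (hR.image _)).union
    (hR.image2 _ (rts K d).finite_toSet)

lemma e_of {x t s : K} (hd : 2 ≤ d) (h1 : e * x ^ (d - 1) = s) (h2 : x * (t - s) = 1) :
    s * (t - s) ^ (d - 1) = e := by
  rw [← h1, mul_assoc, ← mul_pow]
  rw [h1, h2, one_pow, mul_one]

lemma x_pow (hd : 2 ≤ d) (x : K) : x ^ d = x ^ (d - 1) * x := by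
  rw [← pow_succ, Nat.sub_add_cancel (by omega)]

include hζ in
/-- three consecutive points -/
lemma exc_three (hd : 2 ≤ d) (he0 : e ≠ 0) (hadm : Adm S d m e) {x : K}
    (hx : Per (GG d e) x) (hx0 : x ≠ 0) (hy0 : GG d e x ≠ 0) (hne : GG d e x ≠ x) :
    e ∈ Exc S d m := by
  set y := GG d e x with hy
  set z := GG d e y with hz
  have hyp : Per (GG d e) y := hx.step
  have hzy : z ≠ y := by
    intro h
    apply hne
    apply per_inj hyp hx (k := 1)
    rw [Function.iterate_one, ← hz, h]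
  have ht : y / x ∈ Rat S d m := ratio_per hζ hd he0 hadm hyp hx hx0 hne
  have ht' : z / y ∈ Rat S d m := ratio_per hζ hd he0 hadm hyp.step hyp hy0 hzy
  have key : z - y = e * (y ^ d - x ^ d) := by
    rw [← GG_sub, ← hz, ← hy]
  have h3 : (y / x) ^ d - 1 ≠ 0 := by
    intro h
    apply hzy
    have : y ^ d - x ^ d = 0 := by
      have hxd : x ^ d ≠ 0 := pow_ne_zero _ hx0
      rw [div_pow, sub_eq_zero, div_eq_one_iff_eq hxd] at h
      rw [h, sub_self]
    rw [this, mul_zero] at key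
    exact sub_eq_zero.mp key
  have h4 : e * x ^ (d - 1) = (y / x) * (z / y - 1) / ((y / x) ^ d - 1) := by
    rw [eq_div_iff h3]
    have hxd : x ^ (d - 1) ≠ 0 := pow_ne_zero _ hx0
    have h5 : x ^ (d - 1) * ((y / x) ^ d - 1) = (y ^ d - x ^ d) / x := by
      rw [div_pow, x_pow hd x]
      field_simp
    rw [mul_assoc, h5, mul_div_assoc', ← key]
    field_simp
  left; left; right
  refine ⟨y / x, ht, z / y, ht', ?_⟩
  apply e_of hd h4
  rw [← h4]
  have : y = e * x ^ d + 1 := rfl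
  rw [mul_sub, mul_div_cancel₀ _ hx0]
  rw [this, x_pow hd x]; ring

include hζ in
/-- a cycle of length at least two -/
theorem exc_cycle (hd : 2 ≤ d) (he0 : e ≠ 0) (hadm : Adm S d m e) {x : K}
    (hx : Per (GG d e) x) (hne : GG d e x ≠ x) : e ∈ Exc S d m := by
  -- the case of the point `0`
  have hzero : Per (GG d e) (0 : K) → e ∈ Exc S d m := by
    intro h0
    have h1 : GG d e (0 : K) = 1 := by simp [GG, zero_pow (show d ≠ 0 by omega)]
    have hp1 : Per (GG d e) (1 : K) := by rw [← h1]; exact h0.step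
    have h2 : GG d e (1 : K) = e + 1 := by simp [GG]
    by_cases h3 : e + 1 = 0
    · left; left; left
      rw [Set.mem_singleton_iff]
      linear_combination h3
    · apply exc_three hζ hd he0 hadm hp1 one_ne_zero (by rw [h2]; exact h3)
      rw [h2]
      intro h
      exact he0 (by linear_combination h)
  by_cases hx0 : x = 0
  · exact hzero (hx0 ▸ hx)
  by_cases hy0 : GG d e x = 0
  · exact hzero (hy0 ▸ hx.step)
  exact exc_three hζ hd he0 hadm hx hx0 hy0 hne

lemma fixed_ne_zero (hd : 2 ≤ d) {p : K} (hp : GG d e p = p) : p ≠ 0 := by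
  rintro rfl
  simp [GG, zero_pow (show d ≠ 0 by omega)] at hp

include hζ in
/-- two fixed points -/
theorem exc_fixed (hd : 2 ≤ d) (he0 : e ≠ 0) (hadm : Adm S d m e) {p q : K}
    (hp : GG d e p = p) (hq : GG d e q = q) (hne : p ≠ q) : e ∈ Exc S d m := by
  have hq0 := fixed_ne_zero hd hq
  have hpp : Per (GG d e) p := ⟨1, one_pos, by rw [Function.iterate_one]; exact hp⟩
  have hqp : Per (GG d e) q := ⟨1, one_pos, by rw [Function.iterate_one]; exact hq⟩
  have ht : p / q ∈ Rat S d m := ratio_per hζ hd he0 hadm hpp hqp hq0 hne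
  have key : p - q = e * (p ^ d - q ^ d) := by
    rw [← GG_sub, hp, hq]
  have h3 : (p / q) ^ d - 1 ≠ 0 := by
    intro h
    apply hne
    have : p ^ d - q ^ d = 0 := by
      have hxd : q ^ d ≠ 0 := pow_ne_zero _ hq0
      rw [div_pow, sub_eq_zero, div_eq_one_iff_eq hxd] at h
      rw [h, sub_self]
    rw [this, mul_zero] at key
    exact sub_eq_zero.mp key
  have h4 : e * q ^ (d - 1) = (p / q - 1) / ((p / q) ^ d - 1) := by
    rw [eq_div_iff h3]
    have hxd : q ^ (d - 1) ≠ 0 := pow_ne_zero _ hq0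
    have h5 : q ^ (d - 1) * ((p / q) ^ d - 1) = (p ^ d - q ^ d) / q := by
      rw [div_pow, x_pow hd q]
      field_simp
    rw [mul_assoc, h5, mul_div_assoc', ← key]
    field_simp
  left; right
  refine ⟨p / q, ht, ?_⟩
  apply e_of hd h4
  rw [← h4]
  have : q = e * q ^ d + 1 := by rw [← GG.eq_1 d e, hq]
  rw [x_pow hd q] at this
  linear_combination this

include hζ in
/-- a tail of length at least two over a fixed point -/
theorem exc_tail (hd : 2 ≤ d) (he0 : e ≠ 0) (hadm : Adm S d m e) {p x ζ₁ : K}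
    (hp : GG d e p = p) (h1 : ζ₁ ^ d = 1) (hζ1 : ζ₁ ≠ 1) (hx : GG d e x = ζ₁ * p) :
    e ∈ Exc S d m := by
  have hp0 := fixed_ne_zero hd hp
  have ht : x / p ∈ Rat S d m := ratio_fixed hζ hd he0 hadm hp hp0 h1 hζ1 hx
  have key : (ζ₁ - 1) * p = e * (x ^ d - p ^ d) := by
    rw [← GG_sub, hp, hx]; ring
  have h3 : (x / p) ^ d - 1 ≠ 0 := by
    intro h
    have : x ^ d - p ^ d = 0 := by
      have hxd : p ^ d ≠ 0 := pow_ne_zero _ hp0
      rw [div_pow, sub_eq_zero, div_eq_one_iff_eq hxd] at h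
      rw [h, sub_self]
    rw [this, mul_zero] at key
    rcases mul_eq_zero.mp key with h6 | h6
    · exact hζ1 (sub_eq_zero.mp h6)
    · exact hp0 h6
  have h4 : e * p ^ (d - 1) = (ζ₁ - 1) / ((x / p) ^ d - 1) := by
    rw [eq_div_iff h3]
    have hxd : p ^ (d - 1) ≠ 0 := pow_ne_zero _ hp0
    have h5 : p ^ (d - 1) * ((x / p) ^ d - 1) = (x ^ d - p ^ d) / p := by
      rw [div_pow, x_pow hd p]
      field_simp
    rw [mul_assoc, h5, mul_div_assoc', ← key]
    field_simp
  right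
  refine ⟨x / p, ht, ζ₁, (mem_rts hd).mpr ⟨h1, hζ1⟩, ?_⟩
  apply e_of hd h4
  rw [← h4]
  have : p = e * p ^ d + 1 := by rw [← GG.eq_1 d e, hp]
  rw [x_pow hd p] at this
  linear_combination this

include hζ in
/-- **Structure for non-exceptional parameters.** -/
theorem structure_thm (hd : 2 ≤ d) (he0 : e ≠ 0) (hadm : Adm S d m e) (hex : e ∉ Exc S d m)
    {x : K} (hx : Pre (GG d e) x) : GG d e (GG d e x) = GG d e x := by
  classical
  have hfix : ∀ z : K, Per (GG d e) z → GG d e z = z := by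
    intro z hz
    by_contra hcon
    exact hex (exc_cycle hζ hd he0 hadm hz hcon)
  have hexp := hx.exists_per
  set j := Nat.find hexp with hj
  have hjs : Per (GG d e) ((GG d e)^[j] x) := Nat.find_spec hexp
  have hz := hfix _ hjs
  rcases Nat.lt_or_ge j 2 with hj2 | hj2
  · obtain h0 | h0 : j = 0 ∨ j = 1 := by omega
    · rw [h0, Function.iterate_zero, id] at hz
      rw [hz, hz]
    · rw [h0, Function.iterate_one] at hz
      exact hz
  · exfalso
    obtain ⟨k, hk⟩ : ∃ k, j = k + 2 := ⟨j - 2, by omega⟩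
    have hnp : ¬ Per (GG d e) ((GG d e)^[k + 1] x) := Nat.find_min hexp (by omega)
    rw [hk] at hz
    set z := (GG d e)^[k + 2] x with hzdef
    set s := (GG d e)^[k + 1] x with hsdef
    have hGs : GG d e s = z := by rw [hsdef, hzdef, ← Function.iterate_succ_apply' (GG d e)]
    have hz0 := fixed_ne_zero hd hz
    have hpow : s ^ d = z ^ d := by
      have h1 : GG d e s = GG d e z := hGs.trans hz.symm
      simp only [GG] at h1
      exact mul_left_cancel₀ he0 (add_right_cancel h1)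
    have h1 : (s / z) ^ d = 1 := by
      rw [div_pow, hpow, div_self (pow_ne_zero _ hz0)]
    have hs : s = (s / z) * z := by field_simp
    have hne : s / z ≠ 1 := by
      intro h
      rw [h, one_mul] at hs
      apply hnp
      rw [hs]
      exact ⟨1, one_pos, by rw [Function.iterate_one]; exact hz⟩
    refine hex (exc_tail hζ hd he0 hadm hz h1 hne (x := (GG d e)^[k] x) ?_)
    rw [← Function.iterate_succ_apply' (GG d e), Nat.succ_eq_add_one]
    exact hs

include hζ in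
/-- any two preperiodic points have the same `d`-th power -/
theorem pow_eq_of_pre (hd : 2 ≤ d) (he0 : e ≠ 0) (hadm : Adm S d m e) (hex : e ∉ Exc S d m)
    {x y : K} (hx : Pre (GG d e) x) (hy : Pre (GG d e) y) : x ^ d = y ^ d := by
  have h1 := structure_thm hζ hd he0 hadm hex hx
  have h2 := structure_thm hζ hd he0 hadm hex hy
  have h3 : GG d e x = GG d e y := by
    by_contra hcon
    exact hex (exc_fixed hζ hd he0 hadm h1 h2 hcon)
  simp only [GG] at h3
  exact mul_left_cancel₀ he0 (add_right_cancel h3)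

end

end Pool.Agent.H421.TW
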