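import Mathlib
import Pool.Agent.H421.TwC

/-!
# `A x ^ d + b` over any number field
-/

set_option autoImplicit false

open Polynomial IsDedekindDomain NumberField

namespace Pool.Agent.H421.TW

open Pool.Agent.H422.UC Pool.Agent.H422.HE

/-! ### semiconjugacies -/

lemma iter_semi {X Y : Type*} {f : X → X} {g : Y → Y} {φ : X → Y} (h : ∀ x, φ (f x) = g (φ x))
    (n : ℕ) (x : X) : φ (f^[n] x) = g^[n] (φ x) := by
  induction n with
  | zero => rfl
  | succ n ih => rw [Function.iterate_succ_apply', Function.iterate_succ_apply', h, ih]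

lemma Pre_semi {X Y : Type*} {f : X → X} {g : Y → Y} {φ : X → Y} (h : ∀ x, φ (f x) = g (φ x))
    {x : X} (hx : Pre f x) : Pre g (φ x) := by
  obtain ⟨m, n, hmn, he⟩ := hx
  exact ⟨m, n, hmn, by rw [← iter_semi h, ← iter_semi h, he]⟩

/-- the polynomial map `x ↦ A x ^ d + b` -/
def PP {K : Type*} [Field K] (d : ℕ) (A b : K) : K → K := fun x => A * x ^ d + b

/-- scaling by `b` -/
lemma PP_semi {K : Type*} [Field K] {d : ℕ} (hd : 2 ≤ d) {A b : K} (hb : b ≠ 0) (x : K) :
    PP d A b x / b = GG d (A * b ^ (d - 1)) (x / b) := by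
  simp only [PP, GG]
  rw [div_pow]
  have h1 : b ^ d = b ^ (d - 1) * b := by rw [← pow_succ, Nat.sub_add_cancel (by omega)]
  have h2 : b ^ (d - 1) ≠ 0 := pow_ne_zero _ hb
  rw [h1]
  field_simp

/-! ### Northcott for one parameter -/

theorem northcottG (K : Type) [Field K] [NumberField K] {d : ℕ} (hd : 2 ≤ d) {e : K}
    (he : e ≠ 0) : {x : K | Pre (GG d e) x}.Finite := by
  classical
  set p : K[X] := X ^ (d - 1) - C e with hp
  have hpm : p.Monic := monic_X_pow_sub_C e (by omega)
  have hpd : p.natDegree = d - 1 := natDegree_X_pow_sub_C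
  let L := p.SplittingField
  have hsp : (p.map (algebraMap K L)).Splits := SplittingField.splits p
  have : NumberField L := NumberField.of_module_finite K L
  have hdeg : (p.map (algebraMap K L)).degree ≠ 0 := by
    rw [degree_map, degree_eq_natDegree hpm.ne_zero, hpd]
    intro h
    have := Nat.cast_eq_zero.mp h
    omega
  obtain ⟨α, hα⟩ := hsp.exists_eval_eq_zero hdeg
  have hα' : α ^ (d - 1) = algebraMap K L e := by
    have hα2 : eval α ((X ^ (d - 1) - C e : K[X]).map (algebraMap K L)) = 0 := hα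
    simp only [Polynomial.map_sub, Polynomial.map_pow, map_X, map_C, eval_sub, eval_pow, eval_X,
      eval_C] at hα2
    exact sub_eq_zero.mp hα2
  have hα0 : α ≠ 0 := by
    rintro rfl
    rw [zero_pow (by omega)] at hα'
    exact he ((_root_.map_eq_zero _).mp hα'.symm)
  have hinj : Function.Injective (fun x : K => α * algebraMap K L x) :=
    (mul_right_injective₀ hα0).comp (algebraMap K L).injective
  refine ((northcott L hd α).preimage (f := fun x : K => α * algebraMap K L x)
    hinj.injOn).subset ?_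
  intro x hx
  refine Pre_semi (f := GG d e) (g := FF d α) (φ := fun x : K => α * algebraMap K L x) ?_ hx
  intro x
  simp only [GG, FF, map_add, map_mul, map_pow, map_one]
  rw [← hα', mul_pow]
  have h1 : α ^ d = α ^ (d - 1) * α := by rw [← pow_succ, Nat.sub_add_cancel (by omega)]
  rw [h1]; ring

/-! ### the case `b = 0` -/

lemma zero_case (K : Type) [Field K] [NumberField K] {d : ℕ} (hd : 2 ≤ d) :
    ∃ B : ℕ, ∀ A : K, A ≠ 0 → ∀ T : Finset K, (∀ x ∈ T, Pre (PP d A 0) x) → T.card ≤ B := by
  classical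
  set N := (northcott K hd (0 : K)).toFinset with hN
  refine ⟨(d - 1) * N.card, ?_⟩
  intro A hA T hT
  have hmap : ∀ x ∈ T, A * x ^ (d - 1) ∈ N := by
    intro x hx
    rw [hN, Set.Finite.mem_toFinset]
    refine Pre_semi (f := PP d A 0) (g := FF d 0) (φ := fun x => A * x ^ (d - 1)) ?_ (hT x hx)
    intro x
    simp only [PP, FF, add_zero]
    rw [mul_pow, mul_pow, ← pow_mul, ← pow_mul]
    have h1 : A ^ d = A ^ (d - 1) * A := by rw [← pow_succ, Nat.sub_add_cancel (by omega)]
    rw [h1, mul_comm d (d - 1)]; ring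
  have h1 : T.card ≤ (d - 1) * (T.image (fun x => A * x ^ (d - 1))).card := by
    refine Finset.card_le_mul_card_image T (d - 1) ?_
    intro w _
    have h2 : {x ∈ T | A * x ^ (d - 1) = w} ⊆ (X ^ (d - 1) - C (w / A) : K[X]).roots.toFinset := by
      intro x hx
      rw [Finset.mem_filter] at hx
      rw [Multiset.mem_toFinset, mem_roots (monic_X_pow_sub_C _ (by omega)).ne_zero, IsRoot.def]
      simp only [eval_sub, eval_pow, eval_X, eval_C]
      rw [sub_eq_zero, eq_div_iff hA, mul_comm]
      exact hx.2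
    refine (Finset.card_le_card h2).trans ((Multiset.toFinset_card_le _).trans ?_)
    refine (card_roots' _).trans ?_
    rw [natDegree_X_pow_sub_C]
  refine h1.trans (Nat.mul_le_mul_left _ (Finset.card_le_card ?_))
  intro w hw
  obtain ⟨x, hx, rfl⟩ := Finset.mem_image.mp hw
  exact hmap x hx

/-! ### descent of the condition on the parameter -/

section ext

variable {K : Type} [Field K] [NumberField K] (L : Type) [Field L] [NumberField L] [Algebra K L]

/-- primes above a finite set of primes -/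
def above (S : Set (HeightOneSpectrum (𝓞 K))) : Set (HeightOneSpectrum (𝓞 L)) :=
  {w | w.under (𝓞 K) ∈ S}

lemma above_finite {S : Set (HeightOneSpectrum (𝓞 K))} (hS : S.Finite) :
    (above L S).Finite := by
  have hex : ∀ v : HeightOneSpectrum (𝓞 K), ∃ a : 𝓞 K, a ∈ v.asIdeal ∧ a ≠ 0 := by
    intro v
    exact Submodule.exists_mem_ne_zero_of_ne_bot v.ne_bot
  choose a ha ha0 using hex
  refine (hS.biUnion (t := fun v => {w : HeightOneSpectrum (𝓞 L) |
    w.valuation L (algebraMap K L (algebraMap (𝓞 K) K (a v))) ≠ 1}) fun v _ =>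
      finite_unit _ ?_).subset ?_
  · have : algebraMap (𝓞 K) K (a v) ≠ 0 := by simpa using ha0 v
    exact (_root_.map_ne_zero _).mpr this
  · intro w hw
    simp only [Set.mem_iUnion]
    refine ⟨w.under (𝓞 K), hw, ?_⟩
    rw [Set.mem_ofPred_eq]
    have h1 : a (w.under (𝓞 K)) ∈ (w.under (𝓞 K)).asIdeal := ha _
    rw [HeightOneSpectrum.under_asIdeal, Ideal.mem_comap] at h1
    rw [← IsScalarTower.algebraMap_apply (𝓞 K) K L, IsScalarTower.algebraMap_apply (𝓞 K) (𝓞 L) L]
    apply ne_of_lt
    exact (w.valuation_lt_one_iff_mem _).mpr h1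

/-- the value at a prime above is a power -/
lemma val_above (w : HeightOneSpectrum (𝓞 L)) : ∃ r : ℕ, ∀ x : K,
    w.valuation L (algebraMap K L x) = (w.under (𝓞 K)).valuation K x ^ r := by
  have : w.asIdeal.LiesOver (w.under (𝓞 K)).asIdeal := ⟨rfl⟩
  exact ⟨_, fun x => (HeightOneSpectrum.valuation_liesOver L (w.under (𝓞 K)) w x).symm⟩

end ext

/-- the condition on the parameter: outside `S`, if `e` is not integral at `v` and its value is
`γ ^ d` then `γ` is an `m`-th power -/
def Adm0 {K : Type} [Field K] [NumberField K] (S : Set (HeightOneSpectrum (𝓞 K))) (d m : ℕ)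
    (e : K) : Prop :=
  ∀ v ∉ S, 1 < v.valuation K e → ∀ γ, v.valuation K e = γ ^ d → ∃ δ, γ = δ ^ m

lemma Adm0.adm {K : Type} [Field K] [NumberField K] {S : Set (HeightOneSpectrum (𝓞 K))} {d m : ℕ}
    (hd : 2 ≤ d) {e : K} (h : Adm0 S d m e) {x : K} (hx : Pre (GG d e) x) (L : Type) [Field L]
    [NumberField L] [Algebra K L] : Adm (above L S) d m (algebraMap K L e) := by
  intro w hw h1
  obtain ⟨r, hr⟩ := val_above (K := K) L w
  rw [hr] at h1 ⊢
  have h2 : 1 < (w.under (𝓞 K)).valuation K e := by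
    by_contra hcon
    rw [not_lt] at hcon
    exact absurd h1 (not_lt.mpr (pow_le_one' hcon r))
  have h3 := v_pow_eq ((w.under (𝓞 K)).valuation K) hd h2 hx
  have h4 : (w.under (𝓞 K)).valuation K e = ((w.under (𝓞 K)).valuation K x)⁻¹ ^ d := by
    rw [inv_pow]
    exact eq_inv_of_mul_eq_one_left h3
  obtain ⟨δ, hδ⟩ := h _ hw h2 _ h4
  refine ⟨δ ^ r, ?_⟩
  rw [h4, hδ, ← pow_mul, ← pow_mul, ← pow_mul, ← pow_mul]
  congr 1
  ring

/-- **Main theorem.** -/
theorem main (K : Type) [Field K] [NumberField K] {d m : ℕ} (h : Range m d)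
    {S : Set (HeightOneSpectrum (𝓞 K))} (hS : S.Finite) :
    ∃ (E : Set K) (B : ℕ), E.Finite ∧ ∀ A b : K, A ≠ 0 → Adm0 S d m (A * b ^ (d - 1)) →
      (∀ T : Finset K, (∀ x ∈ T, Pre (PP d A b) x) → T.card ≤ B) ∧
      (A * b ^ (d - 1) ∉ E → ∀ x y : K, Pre (PP d A b) x → Pre (PP d A b) y → x ^ d = y ^ d) := by
  classical
  have hd : 2 ≤ d := by rcases h with h | h | h <;> omega
  have : NeZero d := ⟨by omega⟩
  have : NeZero ((d : ℕ) : K) := ⟨Nat.cast_ne_zero.mpr (by omega)⟩
  set L := CyclotomicField d K with hL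
  have hζ := IsCyclotomicExtension.zeta_spec d K L
  have hSL : (above L S).Finite := above_finite L hS
  set E : Set K := {0} ∪ (algebraMap K L) ⁻¹' (Exc (above L S) d m) with hE
  have hEfin : E.Finite := (Set.finite_singleton _).union
    ((Exc_finite hζ hSL h).preimage (algebraMap K L).injective.injOn)
  obtain ⟨B0, hB0⟩ := zero_case K hd
  set N : K → ℕ := fun e => if he : e = 0 then 0 else (northcottG K hd he).toFinset.card with hN
  refine ⟨E, B0 + ∑ e ∈ hEfin.toFinset, N e + d, hEfin, ?_⟩
  intro A b hA hadm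
  -- the second statement
  have hsec : A * b ^ (d - 1) ∉ E → ∀ x y : K, Pre (PP d A b) x → Pre (PP d A b) y →
      x ^ d = y ^ d := by
    intro hne x y hx hy
    rw [hE, Set.mem_union, not_or, Set.mem_singleton_iff, Set.mem_preimage] at hne
    obtain ⟨he0, heE⟩ := hne
    have hb : b ≠ 0 := by
      rintro rfl
      apply he0
      rw [zero_pow (by omega), mul_zero]
    have hx' : Pre (GG d (A * b ^ (d - 1))) (x / b) :=
      Pre_semi (φ := fun x => x / b) (PP_semi hd hb) hx
    have hy' : Pre (GG d (A * b ^ (d - 1))) (y / b) :=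
      Pre_semi (φ := fun x => x / b) (PP_semi hd hb) hy
    have hsemi : ∀ z : K, algebraMap K L (GG d (A * b ^ (d - 1)) z) =
        GG d (algebraMap K L (A * b ^ (d - 1))) (algebraMap K L z) := by
      intro z
      simp only [GG, map_add, map_mul, map_pow, map_one]
    have hadmL := hadm.adm hd hx' L
    have := pow_eq_of_pre hζ hd (by simpa using he0) hadmL heE (Pre_semi hsemi hx')
      (Pre_semi hsemi hy')
    rw [← map_pow, ← map_pow] at this
    have h2 := (algebraMap K L).injective this
    rw [div_pow, div_pow] at h2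
    exact (div_left_inj' (pow_ne_zero _ hb)).mp h2
  refine ⟨?_, hsec⟩
  intro T hT
  by_cases hb : b = 0
  · subst hb
    have := hB0 A hA T hT
    omega
  have he0 : A * b ^ (d - 1) ≠ 0 := mul_ne_zero hA (pow_ne_zero _ hb)
  by_cases hmem : A * b ^ (d - 1) ∈ E
  · have h1 : T.card ≤ N (A * b ^ (d - 1)) := by
      rw [hN]
      simp only [he0, dif_neg, not_false_eq_true]
      refine Finset.card_le_card_of_injOn (fun x => x / b) ?_ ?_
      · intro x hx
        rw [Finset.mem_coe, Set.Finite.mem_toFinset]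
        exact Pre_semi (φ := fun x => x / b) (PP_semi hd hb) (hT x hx)
      · intro x _ y _ hxy
        exact (div_left_inj' hb).mp hxy
    have h2 : N (A * b ^ (d - 1)) ≤ ∑ e ∈ hEfin.toFinset, N e :=
      Finset.single_le_sum (f := N) (fun _ _ => Nat.zero_le _) (hEfin.mem_toFinset.mpr hmem)
    omega
  · rcases T.eq_empty_or_nonempty with rfl | ⟨x0, hx0⟩
    · simp
    have h2 : T ⊆ (X ^ d - C (x0 ^ d) : K[X]).roots.toFinset := by
      intro x hx
      rw [Multiset.mem_toFinset, mem_roots (monic_X_pow_sub_C _ (by omega)).ne_zero, IsRoot.def]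
      simp only [eval_sub, eval_pow, eval_X, eval_C]
      rw [sub_eq_zero]
      exact hsec hmem x x0 (hT x hx) (hT x0 hx0)
    have h3 : T.card ≤ d := by
      refine (Finset.card_le_card h2).trans ((Multiset.toFinset_card_le _).trans ?_)
      refine (card_roots' _).trans ?_
      rw [natDegree_X_pow_sub_C]
    omega

end Pool.Agent.H421.TW
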