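import Mathlib
import Pool.Agent.H421.TwD

/-!
# Towers of unicritical polynomials
-/

set_option autoImplicit false

open Polynomial

namespace Pool.Agent.H421.PN

open Pool.Agent.H422.UC Pool.Agent.H421.TW

section

variable {K : Type} [Field K] {d : ℕ}

/-- the triangular map -/
def tri (d : ℕ) (A : ℕ → K) (g : ℕ → (ℕ → K) → K) : (ℕ → K) → (ℕ → K) :=
  fun y i => A i * y i ^ d + g i y

/-- the coefficients `g i` only depend on the coordinates before `i` -/
def Lower (g : ℕ → (ℕ → K) → K) : Prop :=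
  ∀ i y y', (∀ k, k < i → y k = y' k) → g i y = g i y'

/-- preperiodic in the first `L` coordinates -/
def PreL (f : (ℕ → K) → (ℕ → K)) (L : ℕ) (y : ℕ → K) : Prop :=
  ∃ s t, s < t ∧ ∀ i, i < L → (f^[s] y) i = (f^[t] y) i

/-- the first `L` parameters are eventually constant along the orbit -/
def EC (f : (ℕ → K) → (ℕ → K)) (g : ℕ → (ℕ → K) → K) (L : ℕ) (y : ℕ → K) : Prop :=
  ∀ i, i < L → ∃ n0, ∀ n, n0 ≤ n → g i (f^[n] y) = g i (f^[n0] y)

/-- truncation -/
def tr (L : ℕ) (y : ℕ → K) : ℕ → K := fun i => if i < L then y i else 0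

variable {A : ℕ → K} {g : ℕ → (ℕ → K) → K}

lemma step_congr (hg : Lower g) {L : ℕ} {y y' : ℕ → K} (h : ∀ k, k < L → y k = y' k) :
    ∀ k, k < L → tri d A g y k = tri d A g y' k := by
  intro k hk
  simp only [tri]
  rw [h k hk, hg k y y' fun i hi => h i (hi.trans hk)]

lemma iter_congr (hg : Lower g) {L : ℕ} {y y' : ℕ → K} (h : ∀ k, k < L → y k = y' k) (n : ℕ) :
    ∀ k, k < L → (tri d A g)^[n] y k = (tri d A g)^[n] y' k := by
  induction n with
  | zero => exact h
  | succ n ih =>
    intro k hk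
    rw [Function.iterate_succ_apply', Function.iterate_succ_apply']
    exact step_congr hg ih k hk

lemma g_congr (hg : Lower g) {L : ℕ} {y y' : ℕ → K} (h : ∀ k, k < L → y k = y' k) {i : ℕ}
    (hi : i ≤ L) (n : ℕ) : g i ((tri d A g)^[n] y) = g i ((tri d A g)^[n] y') :=
  hg i _ _ fun k hk => iter_congr hg h n k (hk.trans_le hi)

lemma tr_eq (L : ℕ) (y : ℕ → K) : ∀ k, k < L → tr L y k = y k := by
  intro k hk
  simp [tr, hk]

lemma PreL.congr (hg : Lower g) {L : ℕ} {y y' : ℕ → K} (h : ∀ k, k < L → y k = y' k)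
    (hp : PreL (tri d A g) L y) : PreL (tri d A g) L y' := by
  obtain ⟨s, t, hst, he⟩ := hp
  exact ⟨s, t, hst, fun i hi => by rw [← iter_congr hg h s i hi, ← iter_congr hg h t i hi, he i hi]⟩

lemma EC.congr (hg : Lower g) {L : ℕ} {y y' : ℕ → K} (h : ∀ k, k < L → y k = y' k)
    (hp : EC (tri d A g) g L y) : EC (tri d A g) g L y' := by
  intro i hi
  obtain ⟨n0, hn0⟩ := hp i hi
  exact ⟨n0, fun n hn => by rw [← g_congr hg h hi.le n, ← g_congr hg h hi.le n0, hn0 n hn]⟩

lemma PreL.iter {f : (ℕ → K) → (ℕ → K)} (hf : ∀ L y y', (∀ k, k < L → y k = y' k) →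
      ∀ k, k < L → f y k = f y' k) {L : ℕ} {y : ℕ → K} (hp : PreL f L y) (n : ℕ) :
    PreL f L (f^[n] y) := by
  obtain ⟨s, t, hst, he⟩ := hp
  refine ⟨s, t, hst, ?_⟩
  have key : ∀ n, ∀ i, i < L → (f^[n] (f^[s] y)) i = (f^[n] (f^[t] y)) i := by
    intro n
    induction n with
    | zero => exact he
    | succ n ih =>
      intro i hi
      rw [Function.iterate_succ_apply', Function.iterate_succ_apply']
      exact hf L _ _ ih i hi
  intro i hi
  rw [← Function.iterate_add_apply, ← Function.iterate_add_apply, Nat.add_comm s, Nat.add_comm t,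
    Function.iterate_add_apply, Function.iterate_add_apply]
  exact key n i hi

lemma EC.iter {f : (ℕ → K) → (ℕ → K)} {L : ℕ} {y : ℕ → K} (hp : EC f g L y) (n : ℕ) :
    EC f g L (f^[n] y) := by
  intro i hi
  obtain ⟨n0, hn0⟩ := hp i hi
  refine ⟨n0, fun k hk => ?_⟩
  rw [← Function.iterate_add_apply, ← Function.iterate_add_apply, hn0 _ (by omega),
    hn0 (n0 + n) (by omega)]

/-- the non-autonomous iteration in one coordinate -/
def ZZ (d : ℕ) (a : K) (γ : ℕ → K) : ℕ → K → K
  | 0, z => z
  | n + 1, z => a * (ZZ d a γ n z) ^ d + γ n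

lemma ZZ_fib {a : K} (ha : a ≠ 0) (hd : 0 < d) (γ : ℕ → K) (n : ℕ) [DecidableEq K] :
    ∀ (T : Finset K) (w : K), (T.filter fun z => ZZ d a γ n z = w).card ≤ d ^ n := by
  induction n with
  | zero =>
    intro T w
    have : (T.filter fun z => ZZ d a γ 0 z = w) ⊆ {w} := by
      intro z hz
      rw [Finset.mem_filter] at hz
      rw [Finset.mem_singleton]
      exact hz.2
    simpa using Finset.card_le_card this
  | succ n ih =>
    intro T w
    set T1 := T.filter fun z => ZZ d a γ (n + 1) z = w with hT1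
    have h1 : T1.card ≤ d ^ n * (T1.image (ZZ d a γ n)).card :=
      Finset.card_le_mul_card_image T1 (d ^ n) fun b _ => ih T1 b
    have h2 : T1.image (ZZ d a γ n) ⊆ (X ^ d - C ((w - γ n) / a) : K[X]).roots.toFinset := by
      intro r hr
      obtain ⟨z, hz, rfl⟩ := Finset.mem_image.mp hr
      rw [hT1, Finset.mem_filter] at hz
      have hz2 : a * (ZZ d a γ n z) ^ d + γ n = w := hz.2
      rw [Multiset.mem_toFinset, mem_roots (monic_X_pow_sub_C _ hd.ne').ne_zero, IsRoot.def]
      simp only [eval_sub, eval_pow, eval_X, eval_C]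
      rw [sub_eq_zero, eq_div_iff ha, ← hz2]; ring
    have h3 : (T1.image (ZZ d a γ n)).card ≤ d := by
      refine (Finset.card_le_card h2).trans ((Multiset.toFinset_card_le _).trans ?_)
      refine (card_roots' _).trans ?_
      rw [natDegree_X_pow_sub_C]
    calc T1.card ≤ d ^ n * (T1.image (ZZ d a γ n)).card := h1
      _ ≤ d ^ n * d := Nat.mul_le_mul_left _ h3
      _ = d ^ (n + 1) := (pow_succ _ _).symm

lemma iter_ZZ (y : ℕ → K) (L n : ℕ) :
    (tri d A g)^[n] y L = ZZ d (A L) (fun n => g L ((tri d A g)^[n] y)) n (y L) := by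
  induction n with
  | zero => rfl
  | succ n ih =>
    rw [Function.iterate_succ_apply', ZZ, ← ih]
    rfl

/-- the bounds -/
def bd (d B : ℕ) : ℕ → ℕ
  | 0 => 1
  | L + 1 => bd d B L * (d ^ (bd d B L) * B)

/-- after `M` steps the parameters are constant -/
lemma const_after {M L : ℕ} (hg : Lower g) (hM : ∀ T : Finset (ℕ → K), (∀ y ∈ T, (∀ i, L ≤ i → y i = 0) ∧
      PreL (tri d A g) L y ∧ EC (tri d A g) g L y) → T.card ≤ M)
    {y : ℕ → K} (hp : PreL (tri d A g) L y) (he : EC (tri d A g) g L y)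
    (hL : ∃ n0, ∀ n, n0 ≤ n → g L ((tri d A g)^[n] y) = g L ((tri d A g)^[n0] y)) :
    ∀ n, M ≤ n → g L ((tri d A g)^[n] y) = g L ((tri d A g)^[M] y) := by
  classical
  set f := tri d A g with hf
  obtain ⟨a, ha, b, hb, hab, heq⟩ : ∃ a ∈ Finset.range (M + 1), ∃ b ∈ Finset.range (M + 1),
      a ≠ b ∧ tr L (f^[a] y) = tr L (f^[b] y) := by
    by_contra hcon
    push Not at hcon
    have hinj : Set.InjOn (fun n => tr L (f^[n] y)) (Finset.range (M + 1)) := by
      intro a ha b hb h
      by_contra hne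
      exact hcon a ha b hb hne h
    have hcard := Finset.card_image_of_injOn hinj
    have hle := hM ((Finset.range (M + 1)).image fun n => tr L (f^[n] y)) (by
      intro z hz
      obtain ⟨n, -, rfl⟩ := Finset.mem_image.mp hz
      refine ⟨fun i hi => by simp [tr, not_lt.mpr hi], ?_, ?_⟩
      · exact PreL.congr hg (fun k hk => (tr_eq L _ k hk).symm)
          (hp.iter (fun L y y' h => step_congr hg h) n)
      · exact EC.congr hg (fun k hk => (tr_eq L _ k hk).symm) (he.iter n))
    rw [hcard, Finset.card_range] at hle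
    omega
  wlog hlt : a < b generalizing a b with H
  · exact H b hb a ha hab.symm heq.symm (by omega)
  rw [Finset.mem_range] at ha hb
  have hag : ∀ k, k < L → (f^[a] y) k = (f^[b] y) k := by
    intro k hk
    rw [← tr_eq L (f^[a] y) k hk, heq, tr_eq L _ k hk]
  have hper : ∀ n, a ≤ n → g L (f^[n + (b - a)] y) = g L (f^[n] y) := by
    intro n hn
    obtain ⟨k, rfl⟩ : ∃ k, n = k + a := ⟨n - a, by omega⟩
    have : k + a + (b - a) = k + b := by omega
    rw [this, Function.iterate_add_apply, Function.iterate_add_apply f k a]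
    exact (g_congr hg hag le_rfl k).symm
  have hper2 : ∀ n, a ≤ n → ∀ j, g L (f^[n + j * (b - a)] y) = g L (f^[n] y) := by
    intro n hn j
    induction j with
    | zero => simp
    | succ j ih =>
      rw [Nat.succ_mul, ← Nat.add_assoc, hper _ (by omega), ih]
  obtain ⟨n0, hn0⟩ := hL
  have hconst : ∀ n, a ≤ n → g L (f^[n] y) = g L (f^[n0] y) := by
    intro n hn
    rw [← hper2 n hn n0]
    apply hn0
    have : n0 * 1 ≤ n0 * (b - a) := Nat.mul_le_mul_left _ (by omega)
    omega
  intro n hn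
  rw [hconst n (by omega), hconst M (by omega)]

/-- **The tower theorem.** -/
theorem tower (hd : 0 < d) (hA : ∀ i, A i ≠ 0) (hg : Lower g) {B : ℕ}
    (hB : ∀ (i : ℕ) (b : K) (T : Finset K), (∀ x ∈ T, Pre (PP d (A i) b) x) → T.card ≤ B) :
    ∀ (L : ℕ) (T : Finset (ℕ → K)), (∀ y ∈ T, (∀ i, L ≤ i → y i = 0) ∧
      PreL (tri d A g) L y ∧ EC (tri d A g) g L y) → T.card ≤ bd d B L := by
  classical
  intro L
  induction L with
  | zero =>
    intro T hT
    have : T ⊆ {0} := by
      intro y hy
      rw [Finset.mem_singleton]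
      funext i
      exact (hT y hy).1 i (Nat.zero_le _)
    simpa [bd] using Finset.card_le_card this
  | succ L ih =>
    intro T hT
    set M := bd d B L with hMdef
    have h1 : T.card ≤ (d ^ M * B) * (T.image (tr L)).card := by
      refine Finset.card_le_mul_card_image T (d ^ M * B) ?_
      intro y' hy'
      set Fb := T.filter (fun y => tr L y = y') with hFb
      obtain ⟨y0, hy0, hy0'⟩ := Finset.mem_image.mp hy'
      have hFbm : ∀ y ∈ Fb, y ∈ T ∧ ∀ k, k < L → y k = y0 k := by
        intro y hy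
        rw [hFb, Finset.mem_filter] at hy
        refine ⟨hy.1, fun k hk => ?_⟩
        rw [← tr_eq L y k hk, hy.2, ← hy0', tr_eq L y0 k hk]
      set γ : ℕ → K := fun n => g L ((tri d A g)^[n] y0) with hγ
      have hγc : ∀ n, M ≤ n → γ n = γ M := by
        obtain ⟨-, hp, he⟩ := hT y0 hy0
        refine const_after hg ih (L := L) ?_ ?_ (he L (Nat.lt_succ_self L))
        · obtain ⟨s, t, hst, hh⟩ := hp
          exact ⟨s, t, hst, fun i hi => hh i (by omega)⟩
        · exact fun i hi => he i (by omega)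
      have hzz : ∀ y ∈ Fb, ∀ n, (tri d A g)^[n] y L = ZZ d (A L) γ n (y L) := by
        intro y hy n
        rw [iter_ZZ]
        have : (fun n => g L ((tri d A g)^[n] y)) = γ := by
          funext n
          exact g_congr hg (hFbm y hy).2 le_rfl n
        rw [this]
      have hFi : Fb.card = (Fb.image (fun y => y L)).card := by
        rw [Finset.card_image_of_injOn]
        intro y hy y2 hy2 h
        simp only at h
        obtain ⟨hyT, hyk⟩ := hFbm y hy
        obtain ⟨hyT2, hyk2⟩ := hFbm y2 hy2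
        funext i
        rcases lt_trichotomy i L with hi | hi | hi
        · rw [hyk i hi, hyk2 i hi]
        · rw [hi]; exact h
        · rw [(hT y hyT).1 i hi, (hT y2 hyT2).1 i hi]
      rw [hFi]
      set Zs := Fb.image (fun y => y L) with hZs
      have h2 : Zs.card ≤ d ^ M * (Zs.image (ZZ d (A L) γ M)).card :=
        Finset.card_le_mul_card_image Zs (d ^ M) fun b _ => ZZ_fib (hA L) hd γ M Zs b
      refine h2.trans (Nat.mul_le_mul_left _ (hB L (γ M) _ ?_))
      intro w hw
      obtain ⟨z, hz, rfl⟩ := Finset.mem_image.mp hw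
      obtain ⟨y, hy, rfl⟩ := Finset.mem_image.mp hz
      have hiter : ∀ k, (PP d (A L) (γ M))^[k] (ZZ d (A L) γ M (y L)) =
          ZZ d (A L) γ (M + k) (y L) := by
        intro k
        induction k with
        | zero => rfl
        | succ k ihk =>
          rw [Function.iterate_succ_apply', ihk, ← Nat.add_assoc, ZZ, hγc (M + k) (by omega)]
          rfl
      obtain ⟨-, ⟨s, t, hst, hh⟩, -⟩ := hT y (hFbm y hy).1
      have hag : ∀ n, ∀ k, k < L + 1 →
          ((tri d A g)^[n] ((tri d A g)^[s] y)) k = ((tri d A g)^[n] ((tri d A g)^[t] y)) k :=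
        iter_congr hg hh
      refine ⟨s, t, hst, ?_⟩
      rw [hiter, hiter, ← hzz y hy, ← hzz y hy, Function.iterate_add_apply,
        Function.iterate_add_apply]
      have := hag M L (Nat.lt_succ_self L)
      exact this
    have h2 : (T.image (tr L)).card ≤ M := by
      apply ih
      intro z hz
      obtain ⟨y, hy, rfl⟩ := Finset.mem_image.mp hz
      obtain ⟨-, ⟨s, t, hst, hh⟩, he⟩ := hT y hy
      refine ⟨fun i hi => by simp [tr, not_lt.mpr hi], ?_, ?_⟩
      · exact PreL.congr hg (fun k hk => (tr_eq L _ k hk).symm)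
          ⟨s, t, hst, fun i hi => hh i (by omega)⟩
      · exact EC.congr hg (fun k hk => (tr_eq L _ k hk).symm) fun i hi => he i (by omega)
    calc T.card ≤ (d ^ M * B) * (T.image (tr L)).card := h1
      _ ≤ (d ^ M * B) * M := Nat.mul_le_mul_left _ h2
      _ = bd d B (L + 1) := by rw [bd, ← hMdef, Nat.mul_comm]

end

end Pool.Agent.H421.PN
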