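import Mathlib
import Pool.Agent.H421.PnA

/-!
# Triangular endomorphisms of `ℙ ^ N`
-/

set_option autoImplicit false

namespace Pool.Agent.H421.PN

open Pool.Agent.H422.UC Pool.Agent.H421.TW

section

variable {K : Type} [Field K] {N d : ℕ}

lemma eval_smul_hom {p : MvPolynomial (Fin (N + 1)) K} {n : ℕ} (hp : p.IsHomogeneous n) (c : K)
    (x : Fin (N + 1) → K) : MvPolynomial.eval (c • x) p = c ^ n * MvPolynomial.eval x p := by
  rw [MvPolynomial.eval_eq', MvPolynomial.eval_eq', Finset.mul_sum]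
  apply Finset.sum_congr rfl
  intro e he
  have h1 : ∑ i, e i = n := by
    have := hp (MvPolynomial.mem_support_iff.mp he)
    rw [← this, Finsupp.weight_apply, Finsupp.sum_fintype]
    · simp
    · intro i; simp
  have h2 : ∏ i, (c • x) i ^ e i = c ^ n * ∏ i, x i ^ e i := by
    simp only [Pi.smul_apply, smul_eq_mul, mul_pow]
    rw [Finset.prod_mul_distrib, Finset.prod_pow_eq_pow_sum, h1]
  rw [h2]; ring

lemma eval_congr_vars {p : MvPolynomial (Fin (N + 1)) K} {x x' : Fin (N + 1) → K}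
    (h : ∀ k ∈ p.vars, x k = x' k) : MvPolynomial.eval x p = MvPolynomial.eval x' p := by
  apply MvPolynomial.hom_congr_vars (f₁ := MvPolynomial.eval x) (f₂ := MvPolynomial.eval x')
    (p₁ := p) (p₂ := p)
  · ext; simp
  · intro i hi _
    simp only [MvPolynomial.eval_X]
    exact h i hi
  · rfl

/-- the map on vectors -/
noncomputable def mp (f : Fin (N + 1) → MvPolynomial (Fin (N + 1)) K) :
    (Fin (N + 1) → K) → (Fin (N + 1) → K) := fun x i => MvPolynomial.eval x (f i)

/-- `f` is triangular with diagonal coefficients `a i` and lower terms `g i`. -/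
structure Tri (d : ℕ) (a : Fin (N + 1) → K) (f g : Fin (N + 1) → MvPolynomial (Fin (N + 1)) K) :
    Prop where
  /-- nonzero diagonal -/
  ne : ∀ i, a i ≠ 0
  /-- the shape -/
  eq : ∀ i, f i = MvPolynomial.C (a i) * MvPolynomial.X i ^ d + g i
  /-- homogeneous lower terms -/
  hom : ∀ i, (g i).IsHomogeneous d
  /-- lower terms only contain earlier variables -/
  vars : ∀ i, ∀ k ∈ (g i).vars, k < i

variable {a : Fin (N + 1) → K} {f g : Fin (N + 1) → MvPolynomial (Fin (N + 1)) K}

lemma Tri.eval (h : Tri d a f g) (x : Fin (N + 1) → K) (i : Fin (N + 1)) :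
    mp f x i = a i * x i ^ d + MvPolynomial.eval x (g i) := by
  simp only [mp]
  rw [h.eq i, map_add, map_mul, map_pow, MvPolynomial.eval_C, MvPolynomial.eval_X]

/-- the first nonzero coordinate -/
def First (j : Fin (N + 1)) (x : Fin (N + 1) → K) : Prop := (∀ k, k < j → x k = 0) ∧ x j ≠ 0

lemma Tri.g_zero (h : Tri d a f g) (hd : 0 < d) {j i : Fin (N + 1)} {x : Fin (N + 1) → K}
    (hx : ∀ k, k < j → x k = 0) (hij : i ≤ j) : MvPolynomial.eval x (g i) = 0 := by
  have h1 : MvPolynomial.eval x (g i) = MvPolynomial.eval ((0 : K) • x) (g i) := by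
    apply eval_congr_vars
    intro k hk
    rw [Pi.smul_apply, zero_smul]
    exact hx k ((h.vars i k hk).trans_le hij)
  rw [h1, eval_smul_hom (h.hom i), zero_pow hd.ne', zero_mul]

lemma Tri.first_step (h : Tri d a f g) (hd : 0 < d) {j : Fin (N + 1)} {x : Fin (N + 1) → K}
    (hx : First j x) : First j (mp f x) ∧ mp f x j = a j * x j ^ d := by
  obtain ⟨h1, h2⟩ := hx
  have h3 : mp f x j = a j * x j ^ d := by
    rw [h.eval, h.g_zero hd h1 le_rfl, add_zero]
  refine ⟨⟨fun k hk => ?_, ?_⟩, h3⟩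
  · rw [h.eval, h1 k hk, h.g_zero hd h1 hk.le, zero_pow hd.ne', mul_zero, add_zero]
  · rw [h3]
    exact mul_ne_zero (h.ne j) (pow_ne_zero _ h2)

lemma Tri.first_iter (h : Tri d a f g) (hd : 0 < d) {j : Fin (N + 1)} {x : Fin (N + 1) → K}
    (hx : First j x) (n : ℕ) : First j ((mp f)^[n] x) := by
  induction n with
  | zero => exact hx
  | succ n ih => rw [Function.iterate_succ_apply']; exact (h.first_step hd ih).1

/-- affine coordinates on the stratum `j` -/
def aff (j : Fin (N + 1)) (x : Fin (N + 1) → K) : ℕ → K :=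
  fun i => if h : (j : ℕ) + 1 + i < N + 1 then x ⟨(j : ℕ) + 1 + i, h⟩ / x j else 0

/-- back from the affine coordinates -/
def ext (j : Fin (N + 1)) (y : ℕ → K) : Fin (N + 1) → K :=
  fun k => if k < j then 0 else if k = j then 1 else y ((k : ℕ) - ((j : ℕ) + 1))

lemma ext_aff {j : Fin (N + 1)} {x : Fin (N + 1) → K} (hx : First j x) :
    x = x j • ext j (aff j x) := by
  obtain ⟨h1, h2⟩ := hx
  funext k
  simp only [Pi.smul_apply, smul_eq_mul, ext]
  rcases lt_trichotomy k j with hk | hk | hk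
  · rw [if_pos hk, h1 k hk, mul_zero]
  · rw [hk, if_neg (lt_irrefl _), if_pos rfl, mul_one]
  · rw [if_neg (not_lt.mpr hk.le), if_neg hk.ne']
    have h3 : (j : ℕ) < (k : ℕ) := hk
    have h4 : (j : ℕ) + 1 + ((k : ℕ) - ((j : ℕ) + 1)) = (k : ℕ) := by omega
    simp only [aff]
    rw [dif_pos (by rw [h4]; exact k.isLt)]
    have h5 : (⟨(j : ℕ) + 1 + ((k : ℕ) - ((j : ℕ) + 1)), by rw [h4]; exact k.isLt⟩ : Fin (N + 1)) = k :=
      Fin.ext h4
    rw [h5]
    field_simp

/-- the diagonal on the stratum -/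
def affA (a : Fin (N + 1) → K) (j : Fin (N + 1)) : ℕ → K :=
  fun i => if h : (j : ℕ) + 1 + i < N + 1 then a ⟨(j : ℕ) + 1 + i, h⟩ / a j else 1

/-- the parameters on the stratum -/
noncomputable def affG (a : Fin (N + 1) → K) (g : Fin (N + 1) → MvPolynomial (Fin (N + 1)) K)
    (j : Fin (N + 1)) : ℕ → (ℕ → K) → K :=
  fun i y => if h : (j : ℕ) + 1 + i < N + 1 then
    MvPolynomial.eval (ext j y) (g ⟨(j : ℕ) + 1 + i, h⟩) / a j else 0

lemma Tri.lower (h : Tri d a f g) (j : Fin (N + 1)) : Lower (affG a g j) := by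
  intro i y y' hy
  simp only [affG]
  by_cases hi : (j : ℕ) + 1 + i < N + 1
  · rw [dif_pos hi, dif_pos hi]
    congr 1
    apply eval_congr_vars
    intro k hk
    have h1 := h.vars _ k hk
    have h2 : (k : ℕ) < (j : ℕ) + 1 + i := h1
    simp only [ext]
    by_cases h3 : k < j
    · rw [if_pos h3, if_pos h3]
    · rw [if_neg h3, if_neg h3]
      by_cases h4 : k = j
      · rw [if_pos h4, if_pos h4]
      · rw [if_neg h4, if_neg h4]
        apply hy
        have h5 : (j : ℕ) < (k : ℕ) := lt_of_le_of_ne (not_lt.mp h3) fun h => h4 (Fin.ext h.symm)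
        omega
  · rw [dif_neg hi, dif_neg hi]

lemma Tri.affG_eq (h : Tri d a f g) {j : Fin (N + 1)} {x : Fin (N + 1) → K} (hx : First j x)
    {i : ℕ} (hi : (j : ℕ) + 1 + i < N + 1) :
    affG a g j i (aff j x) = MvPolynomial.eval x (g ⟨(j : ℕ) + 1 + i, hi⟩) / (a j * x j ^ d) := by
  simp only [affG]
  rw [dif_pos hi]
  have h2 := hx.2
  have h1 := h.ne j
  have h3 : MvPolynomial.eval x (g ⟨(j : ℕ) + 1 + i, hi⟩) =
      x j ^ d * MvPolynomial.eval (ext j (aff j x)) (g ⟨(j : ℕ) + 1 + i, hi⟩) := by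
    conv_lhs => rw [ext_aff hx]
    rw [eval_smul_hom (h.hom _)]
  rw [h3]
  field_simp

lemma Tri.semi (h : Tri d a f g) (hd : 0 < d) {j : Fin (N + 1)} {x : Fin (N + 1) → K}
    (hx : First j x) : aff j (mp f x) = tri d (affA a j) (affG a g j) (aff j x) := by
  obtain ⟨h1, h2⟩ := h.first_step hd hx
  funext i
  simp only [tri]
  by_cases hi : (j : ℕ) + 1 + i < N + 1
  · rw [h.affG_eq hx hi]
    simp only [aff, affA]
    rw [dif_pos hi, dif_pos hi, dif_pos hi, h2, h.eval]
    have h3 := hx.2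
    have h4 := h.ne j
    rw [div_pow]
    field_simp
  · simp only [aff, affA, affG]
    rw [dif_neg hi, dif_neg hi, dif_neg hi, dif_neg hi, zero_pow hd.ne', mul_zero, add_zero]

lemma Tri.semi_iter (h : Tri d a f g) (hd : 0 < d) {j : Fin (N + 1)} {x : Fin (N + 1) → K}
    (hx : First j x) (n : ℕ) :
    aff j ((mp f)^[n] x) = (tri d (affA a j) (affG a g j))^[n] (aff j x) := by
  induction n with
  | zero => rfl
  | succ n ih =>
    rw [Function.iterate_succ_apply', Function.iterate_succ_apply', h.semi hd (h.first_iter hd hx n),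
      ih]

/-- the point `[x]` is preperiodic -/
def PPre (f : Fin (N + 1) → MvPolynomial (Fin (N + 1)) K) (x : Fin (N + 1) → K) : Prop :=
  ∃ m n : ℕ, m < n ∧ ∃ c : K, c ≠ 0 ∧ (mp f)^[n] x = c • (mp f)^[m] x

/-- all parameters `g i / x j ^ d`, where `x j` is the first nonzero coordinate, are eventually
constant along the orbit -/
def PEC (d : ℕ) (f g : Fin (N + 1) → MvPolynomial (Fin (N + 1)) K) (x : Fin (N + 1) → K) : Prop :=
  ∀ j, First j x → ∀ i, ∃ n0, ∀ n, n0 ≤ n →
    MvPolynomial.eval ((mp f)^[n] x) (g i) / ((mp f)^[n] x) j ^ d =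
      MvPolynomial.eval ((mp f)^[n0] x) (g i) / ((mp f)^[n0] x) j ^ d

lemma aff_smul {j : Fin (N + 1)} {c : K} (hc : c ≠ 0) (x : Fin (N + 1) → K) :
    aff j (c • x) = aff j x := by
  funext i
  simp only [aff, Pi.smul_apply, smul_eq_mul]
  split_ifs
  · rw [mul_div_mul_left _ _ hc]
  · rfl

lemma exists_first {x : Fin (N + 1) → K} (hx : x ≠ 0) : ∃ j, First j x := by
  classical
  have hex : ∃ n, ∃ h : n < N + 1, x ⟨n, h⟩ ≠ 0 := by
    by_contra hcon
    push Not at hcon
    apply hx
    funext k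
    exact hcon k k.isLt
  obtain ⟨h1, h2⟩ := Nat.find_spec hex
  refine ⟨⟨Nat.find hex, h1⟩, ?_, h2⟩
  intro k hk
  by_contra hcon
  exact Nat.find_min hex (m := k) hk ⟨k.isLt, hcon⟩

/-- **Triangular endomorphisms**: the general bound. -/
theorem tri_bound (hd : 0 < d) {B : ℕ} (h : Tri d a f g)
    (hB : ∀ (i j : Fin (N + 1)) (b : K) (T : Finset K), (∀ x ∈ T, Pre (PP d (a i / a j) b) x) →
      T.card ≤ B)
    (T : Finset (Fin (N + 1) → K)) (h0 : ∀ x ∈ T, x ≠ 0)
    (h1 : ∀ x ∈ T, ∀ y ∈ T, ∀ c : K, x = c • y → x = y)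
    (h2 : ∀ x ∈ T, PPre f x) (h3 : ∀ x ∈ T, PEC d f g x) : T.card ≤ (N + 1) * bd d B N := by
  classical
  have hcover : T ⊆ Finset.univ.biUnion fun j => T.filter (First j) := by
    intro x hx
    obtain ⟨j, hj⟩ := exists_first (h0 x hx)
    rw [Finset.mem_biUnion]
    exact ⟨j, Finset.mem_univ j, Finset.mem_filter.mpr ⟨hx, hj⟩⟩
  refine (Finset.card_le_card hcover).trans (Finset.card_biUnion_le.trans ?_)
  have hj : ∀ j : Fin (N + 1), (T.filter (First j)).card ≤ bd d B N := by
    intro j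
    set Tj := T.filter (First j) with hTj
    have hTjm : ∀ x ∈ Tj, x ∈ T ∧ First j x := fun x hx => Finset.mem_filter.mp hx
    have hinj : Set.InjOn (aff j) (Tj : Set (Fin (N + 1) → K)) := by
      intro x hx x' hx' he
      obtain ⟨hxT, hxf⟩ := hTjm x hx
      obtain ⟨hxT', hxf'⟩ := hTjm x' hx'
      apply h1 x hxT x' hxT' (x j / x' j)
      have e1 : x = x j • ext j (aff j x) := ext_aff hxf
      have e2 : x' = x' j • ext j (aff j x') := ext_aff hxf'
      calc x = x j • ext j (aff j x) := e1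
        _ = x j • ext j (aff j x') := by rw [he]
        _ = (x j / x' j) • (x' j • ext j (aff j x')) := by
            rw [smul_smul, div_mul_cancel₀ _ hxf'.2]
        _ = (x j / x' j) • x' := by rw [← e2]
    rw [← Finset.card_image_of_injOn hinj]
    refine tower (A := affA a j) (g := affG a g j) hd ?_ (h.lower j) (B := B) ?_ N _ ?_
    · intro i
      simp only [affA]
      split_ifs
      · exact div_ne_zero (h.ne _) (h.ne _)
      · exact one_ne_zero
    · intro i b T hT
      simp only [affA] at hT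
      split_ifs at hT with hi
      · exact hB _ _ b T hT
      · apply hB j j b T
        rw [div_self (h.ne j)]
        exact hT
    · intro y hy
      obtain ⟨x, hx, rfl⟩ := Finset.mem_image.mp hy
      obtain ⟨hxT, hxf⟩ := hTjm x hx
      refine ⟨?_, ?_, ?_⟩
      · intro i hi
        simp only [aff]
        rw [dif_neg (by omega)]
      · obtain ⟨m, n, hmn, c, hc, he⟩ := h2 x hxT
        refine ⟨m, n, hmn, fun i _ => ?_⟩
        rw [← h.semi_iter hd hxf, ← h.semi_iter hd hxf, he, aff_smul hc]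
      · intro i _
        by_cases hi : (j : ℕ) + 1 + i < N + 1
        · obtain ⟨n0, hn0⟩ := h3 x hxT j hxf ⟨(j : ℕ) + 1 + i, hi⟩
          refine ⟨n0, fun n hn => ?_⟩
          rw [← h.semi_iter hd hxf, ← h.semi_iter hd hxf, h.affG_eq (h.first_iter hd hxf n) hi,
            h.affG_eq (h.first_iter hd hxf n0) hi]
          have := hn0 n hn
          rw [div_eq_mul_inv, mul_inv, div_eq_mul_inv, mul_inv, mul_left_comm, mul_left_comm _ (a j)⁻¹,
            ← div_eq_mul_inv, ← div_eq_mul_inv, this]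
        · refine ⟨0, fun n _ => ?_⟩
          simp only [affG]
          rw [dif_neg hi, dif_neg hi]
  calc ∑ j : Fin (N + 1), (T.filter (First j)).card ≤ ∑ _j : Fin (N + 1), bd d B N :=
        Finset.sum_le_sum fun j _ => hj j
    _ = (N + 1) * bd d B N := by simp

end

end Pool.Agent.H421.PN
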