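import Mathlib
import Pool.Agent.H421.PnB

/-!
# Triangular endomorphisms of `ℙ ^ N` over a number field
-/

set_option autoImplicit false

open IsDedekindDomain NumberField

namespace Pool.Agent.H421.PN

open Pool.Agent.H422.UC Pool.Agent.H421.TW

lemma adm_pow {K : Type} [Field K] [NumberField K] {d m : ℕ} (hd : 2 ≤ d) (hm : m ∣ d - 1)
    (a b : K) : Adm0 (∅ : Set (HeightOneSpectrum (𝓞 K))) d m (a ^ m * b ^ (d - 1)) := by
  obtain ⟨k, hk⟩ := hm
  intro v _ h1 γ hγ
  have hγ0 : γ ≠ 0 := by
    rintro rfl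
    rw [hγ, zero_pow (by omega)] at h1
    exact absurd h1 (not_lt.mpr zero_le)
  refine ⟨(v.valuation K (a * b ^ k)) / γ ^ k, ?_⟩
  have h2 : a ^ m * b ^ (d - 1) = (a * b ^ k) ^ m := by
    rw [mul_pow, ← pow_mul, hk, Nat.mul_comm m k]
  rw [h2, map_pow] at hγ
  rw [div_pow, hγ, ← pow_mul, eq_div_iff (pow_ne_zero _ hγ0), ← pow_succ', Nat.mul_comm k m, ← hk,
    Nat.sub_add_cancel (by omega)]

/-- the uniform bound for all twists by `m`-th powers -/
theorem bound_pow (K : Type) [Field K] [NumberField K] {d m : ℕ} (h : Range m d) (hm : m ∣ d - 1) :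
    ∃ B : ℕ, ∀ a b : K, a ≠ 0 → ∀ T : Finset K, (∀ x ∈ T, Pre (PP d (a ^ m) b) x) → T.card ≤ B := by
  have hd : 2 ≤ d := by rcases h with h | h | h <;> omega
  obtain ⟨E, B, -, hB⟩ := main K (d := d) (m := m) h Set.finite_empty
  exact ⟨B, fun a b ha T hT => (hB (a ^ m) b (pow_ne_zero _ ha) (adm_pow hd hm a b)).1 T hT⟩

/-- **Triangular endomorphisms over a number field.** -/
theorem tri_main (K : Type) [Field K] [NumberField K] {N d m : ℕ} (h : Range m d)
    (hm : m ∣ d - 1) : ∃ C : ℕ, ∀ (a : Fin (N + 1) → K) (f g : Fin (N + 1) → MvPolynomial (Fin (N + 1)) K),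
      Tri d (fun i => a i ^ m) f g → ∀ T : Finset (Fin (N + 1) → K), (∀ x ∈ T, x ≠ 0) →
        (∀ x ∈ T, ∀ y ∈ T, ∀ c : K, x = c • y → x = y) → (∀ x ∈ T, PPre f x) →
        (∀ x ∈ T, PEC d f g x) → T.card ≤ C := by
  have hd : 2 ≤ d := by rcases h with h | h | h <;> omega
  have hm0 : m ≠ 0 := by rcases h with h | h | h <;> omega
  obtain ⟨B, hB⟩ := bound_pow K h hm
  refine ⟨(N + 1) * bd d B N, fun a f g hT T h0 h1 h2 h3 => ?_⟩
  refine tri_bound (by omega) hT ?_ T h0 h1 h2 h3
  intro i j b T hT'
  have hne : ∀ i, a i ≠ 0 := fun i hi => hT.ne i (by simp only [hi]; exact zero_pow hm0)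
  refine hB (a i / a j) b (div_ne_zero (hne i) (hne j)) T ?_
  intro x hx
  have := hT' x hx
  simp only [← div_pow] at this
  exact this

section split

variable {K : Type} [Field K] {N d : ℕ}

/-- the parameters of split maps are constant -/
lemma split_const (hd : 0 < d) {a : Fin (N + 1) → K} {f g : Fin (N + 1) → MvPolynomial (Fin (N + 1)) K}
    (h : Tri d a f g) {i : Fin (N + 1)} {c : K} (hi : g i = MvPolynomial.C c * MvPolynomial.X 0 ^ d)
    {j : Fin (N + 1)} {x : Fin (N + 1) → K} (hx : First j x) (n : ℕ) :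
    MvPolynomial.eval ((mp f)^[n] x) (g i) / ((mp f)^[n] x) j ^ d = if j = 0 then c else 0 := by
  obtain ⟨h1, h2⟩ := h.first_iter hd hx n
  rw [hi, map_mul, map_pow, MvPolynomial.eval_C, MvPolynomial.eval_X]
  by_cases hj : j = 0
  · subst hj
    rw [if_pos rfl, mul_div_assoc, div_self (pow_ne_zero _ h2), mul_one]
  · rw [if_neg hj, h1 0 (Fin.pos_of_ne_zero hj), zero_pow hd.ne', mul_zero, zero_div]

end split

/-- **Skew products of the plane.** -/
theorem skew_main (K : Type) [Field K] [NumberField K] {d : ℕ} (hd : 5 ≤ d) :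
    ∃ E : Set K, E.Finite ∧ ∀ c ∉ E, ∀ (a : K) (f g : Fin 3 → MvPolynomial (Fin 3) K),
      Tri d ![1, 1, a ^ (d - 1)] f g → g 1 = MvPolynomial.C c * MvPolynomial.X 0 ^ d →
      ∀ x, PPre f x → PEC d f g x := by
  obtain ⟨E, B, hE, hB⟩ := main K (d := d) (m := d - 1) (by unfold Range; omega) Set.finite_empty
  refine ⟨⋃ e ∈ E, {c : K | c ^ (d - 1) = e}, hE.biUnion fun e _ => pow_eq_finite (by omega) e, ?_⟩
  intro c hc a f g h hg1 x hx j hj i
  have hd0 : 0 < d := by omega
  have hcE : (1 : K) * c ^ (d - 1) ∉ E := by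
    rw [one_mul]
    intro hcE
    apply hc
    simp only [Set.mem_iUnion]
    exact ⟨_, hcE, rfl⟩
  have hadm : Adm0 (∅ : Set (HeightOneSpectrum (𝓞 K))) d (d - 1) (1 * c ^ (d - 1)) := by
    have := adm_pow (K := K) (d := d) (m := d - 1) (by omega) dvd_rfl 1 c
    rwa [one_pow] at this
  have hpow := (hB 1 c one_ne_zero hadm).2 hcE
  -- the lower terms
  have hg0 : g 0 = MvPolynomial.C 0 * MvPolynomial.X 0 ^ d := by
    rw [map_zero, zero_mul]
    by_contra hne
    have h1 : (g 0).totalDegree = d := (h.hom 0).totalDegree hne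
    have h2 : (g 0).vars = ∅ := by
      rw [Finset.eq_empty_iff_forall_notMem]
      intro k hk
      exact absurd (h.vars 0 k hk) (Fin.not_lt_zero k)
    rw [MvPolynomial.vars_eq_empty_iff_eq_C] at h2
    rw [h2, MvPolynomial.totalDegree_C] at h1
    omega
  match i with
  | 0 => exact ⟨0, fun n _ => by rw [split_const hd0 h hg0 hj, split_const hd0 h hg0 hj]⟩
  | 1 => exact ⟨0, fun n _ => by rw [split_const hd0 h hg1 hj, split_const hd0 h hg1 hj]⟩
  | 2 =>
    match j with
    | 0 =>
      set y : ℕ → K := fun n => ((mp f)^[n] x) 1 / ((mp f)^[n] x) 0 with hy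
      have hF : ∀ n, First 0 ((mp f)^[n] x) := h.first_iter hd0 hj
      have hstep : ∀ n, y (n + 1) = y n ^ d + c := by
        intro n
        simp only [hy]
        rw [Function.iterate_succ_apply', h.eval, h.eval, hg0, hg1]
        have h3 := (hF n).2
        simp only [map_mul, map_pow, MvPolynomial.eval_C, MvPolynomial.eval_X, zero_mul, add_zero,
          Matrix.cons_val_zero, Matrix.cons_val_one, one_mul]
        rw [div_pow]
        field_simp
      have hyit : ∀ n, y n = (PP d 1 c)^[n] (y 0) := by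
        intro n
        induction n with
        | zero => rfl
        | succ n ih =>
          rw [Function.iterate_succ_apply', ← ih, hstep]
          simp [PP]
      have hpre : Pre (PP d 1 c) (y 0) := by
        obtain ⟨m, n, hmn, r, hr, he⟩ := hx
        refine ⟨m, n, hmn, ?_⟩
        rw [← hyit, ← hyit]
        simp only [hy]
        rw [he]
        simp only [Pi.smul_apply, smul_eq_mul]
        rw [mul_div_mul_left _ _ hr]
      have hpre' : ∀ n, Pre (PP d 1 c) (y n) := fun n => by rw [hyit]; exact hpre.iter n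
      have hconst : ∀ n, 1 ≤ n → y n = y 1 := by
        intro n hn
        induction n with
        | zero => omega
        | succ n ih =>
          rcases Nat.eq_zero_or_pos n with rfl | hn'
          · rfl
          · have h4 := ih hn'
            have h5 : y 1 = y 0 ^ d + c := hstep 0
            calc y (n + 1) = y n ^ d + c := hstep n
              _ = y 1 ^ d + c := by rw [h4]
              _ = y 0 ^ d + c := by rw [hpow (y 1) (y 0) (hpre' 1) (hpre' 0)]
              _ = y 1 := h5.symm
      refine ⟨1, fun n hn => ?_⟩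
      have key : ∀ n, MvPolynomial.eval ((mp f)^[n] x) (g 2) / ((mp f)^[n] x) 0 ^ d =
          MvPolynomial.eval (![1, y n, 0] : Fin 3 → K) (g 2) := by
        intro n
        have h3 := (hF n).2
        have h5 : MvPolynomial.eval ((mp f)^[n] x) (g 2) =
            MvPolynomial.eval (((mp f)^[n] x) 0 • (![1, y n, 0] : Fin 3 → K)) (g 2) := by
          apply eval_congr_vars
          intro k hk
          have hk2 := h.vars 2 k hk
          match k with
          | 0 => simp
          | 1 =>
            simp only [hy, Pi.smul_apply, smul_eq_mul, Matrix.cons_val_one, Matrix.cons_val_zero]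
            field_simp
          | 2 => exact absurd hk2 (lt_irrefl _)
        rw [h5, eval_smul_hom (h.hom 2), mul_comm, mul_div_assoc, div_self (pow_ne_zero _ h3), mul_one]
      rw [key, key, hconst n hn]
    | 1 =>
      refine ⟨0, fun n _ => ?_⟩
      have key : ∀ n, MvPolynomial.eval ((mp f)^[n] x) (g 2) / ((mp f)^[n] x) 1 ^ d =
          MvPolynomial.eval (![0, 1, 0] : Fin 3 → K) (g 2) := by
        intro n
        obtain ⟨h1, h3⟩ := h.first_iter hd0 hj n
        have h5 : MvPolynomial.eval ((mp f)^[n] x) (g 2) =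
            MvPolynomial.eval (((mp f)^[n] x) 1 • (![0, 1, 0] : Fin 3 → K)) (g 2) := by
          apply eval_congr_vars
          intro k hk
          have hk2 := h.vars 2 k hk
          match k with
          | 0 =>
            rw [h1 0 (by decide)]
            simp
          | 1 => simp
          | 2 => exact absurd hk2 (lt_irrefl _)
        rw [h5, eval_smul_hom (h.hom 2), mul_comm, mul_div_assoc, div_self (pow_ne_zero _ h3), mul_one]
      rw [key, key]
    | 2 =>
      refine ⟨0, fun n _ => ?_⟩
      have key : ∀ n, MvPolynomial.eval ((mp f)^[n] x) (g 2) = 0 := by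
        intro n
        exact h.g_zero hd0 (h.first_iter hd0 hj n).1 le_rfl
      rw [key, key, zero_div, zero_div]

end Pool.Agent.H421.PN
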