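import Mathlib
import Pool.Agent.H421.TwD
import Pool.Agent.H422.UC.Strong

/-!
# `x ^ d + c`: pairs of conjugate periodic points

`x` and `y` are periodic points in an extension `K` of `k`, and `x + y`, `x y` lie in `k`.
-/

set_option autoImplicit false

open Polynomial IsDedekindDomain NumberField

namespace Pool.Agent.H421.QD

open Pool.Agent.H422.UC Pool.Agent.H422.HE Pool.Agent.H421.TW

section loc

variable {K : Type*} [Field K] {Γ : Type*} [LinearOrderedCommGroupWithZero Γ] (v : Valuation K Γ)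
  {d : ℕ} {c ζ₀ : K} (hζ : IsPrimitiveRoot ζ₀ d)

/-- scaling -/
lemma FF_semi (hd : 2 ≤ d) (hc : c ≠ 0) (x : K) :
    FF d c x / c = GG d (c ^ (d - 1)) (x / c) := by
  have := PP_semi hd hc (A := 1) x
  simpa [PP, FF] using this

include hζ in
/-- bad places: all factors, with the exponent -/
theorem bad_exp (hd : 2 ≤ d) (hc : 1 < v c)
    (htame : ∀ ζ : K, ζ ^ d = 1 → ζ ≠ 1 → v (1 - ζ) = 1) {x y : K} (hx : Pre (FF d c) x)
    (hy : Pre (FF d c) y) (hn : NM (FF d c) x y) {ζ : K} (h : ζ ^ d = 1) :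
    ∃ j : ℕ, v (x - ζ * y) * (v y ^ (d - 1)) ^ j = v y := by
  have hc0 : c ≠ 0 := by
    rintro rfl
    rw [map_zero] at hc
    exact absurd hc (not_lt.mpr zero_le)
  have hvc : v c ≠ 0 := (Valuation.ne_zero_iff _).mpr hc0
  have hsemi := FF_semi (K := K) hd hc0
  have hX : Pre (GG d (c ^ (d - 1))) (x / c) := Pre_semi (φ := fun x => x / c) hsemi hx
  have hY : Pre (GG d (c ^ (d - 1))) (y / c) := Pre_semi (φ := fun x => x / c) hsemi hy
  have hN : NM (GG d (c ^ (d - 1))) (x / c) (y / c) := by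
    intro n hcon
    apply hn n
    have h1 := iter_semi (φ := fun x => x / c) hsemi n x
    have h2 := iter_semi (φ := fun x => x / c) hsemi n y
    rw [← h1, ← h2] at hcon
    exact (div_left_inj' hc0).mp hcon
  have hγ : v (c ^ (d - 1)) = (v y ^ (d - 1)) ^ d := by
    rw [map_pow, ← v_pow_eq v hd hc hy, ← pow_mul, ← pow_mul, mul_comm]
  have hg1 : 1 < v y ^ (d - 1) := one_lt_pow₀ (one_lt_v v hd hc hy) (by omega)
  obtain ⟨j, hj⟩ := TW.bad_all v hζ hd hγ hg1 htame hX hY hN h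
  refine ⟨j, ?_⟩
  have e : x / c - ζ * (y / c) = (x - ζ * y) / c := by field_simp
  rw [e, map_div₀, map_div₀, div_mul_eq_mul_div] at hj
  exact (div_left_inj' hvc).mp hj

lemma pair_id {ζ x y : K} (h0 : ζ ≠ 0) :
    (x - ζ * y) * (x - ζ⁻¹ * y) = x ^ 2 + y ^ 2 - (ζ + ζ⁻¹) * (x * y) := by
  field_simp
  ring

lemma root_ne_zero (hd : 2 ≤ d) {ζ : K} (h : ζ ^ d = 1) : ζ ≠ 0 := by
  rintro rfl
  rw [zero_pow (by omega)] at h
  exact zero_ne_one h

include hζ in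
theorem pair_good (hd : 2 ≤ d) (hc : v c ≤ 1) {x y : K} (hx : Per (FF d c) x)
    (hy : Per (FF d c) y) (hne : x ≠ y) {ζ : K} (h : ζ ^ d = 1) (h1 : ζ ≠ 1) :
    v (x ^ 2 + y ^ 2 - (ζ + ζ⁻¹) * (x * y)) = 1 := by
  rw [← pair_id (root_ne_zero hd h), map_mul, Pool.Agent.H422.UC.good_per v hζ hd hc hx hy hne h h1,
    Pool.Agent.H422.UC.good_per v hζ hd hc hx hy hne (ζ := ζ⁻¹) (by rw [inv_pow, h, inv_one]) (by
      intro h2; apply h1; rw [← inv_inv ζ, h2, inv_one]), one_mul]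

include hζ in
theorem pair_bad (hd : 2 ≤ d) (hc : 1 < v c)
    (htame : ∀ ζ : K, ζ ^ d = 1 → ζ ≠ 1 → v (1 - ζ) = 1) {x y : K} (hx : Per (FF d c) x)
    (hy : Per (FF d c) y) (hne : x ≠ y) {ζ : K} (h : ζ ^ d = 1) :
    ∃ j : ℕ, v (x ^ 2 + y ^ 2 - (ζ + ζ⁻¹) * (x * y)) * (v y ^ (d - 1)) ^ j = v y ^ 2 := by
  have hn := per_NM hx hy hne
  obtain ⟨i, hi⟩ := bad_exp v hζ hd hc htame hx.pre hy.pre hn h
  obtain ⟨j, hj⟩ := bad_exp v hζ hd hc htame hx.pre hy.pre hn (ζ := ζ⁻¹)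
    (by rw [inv_pow, h, inv_one])
  refine ⟨i + j, ?_⟩
  rw [← pair_id (root_ne_zero hd h), map_mul, pow_add, sq]
  calc _ = (v (x - ζ * y) * (v y ^ (d - 1)) ^ i) * (v (x - ζ⁻¹ * y) * (v y ^ (d - 1)) ^ j) := by
        rw [mul_mul_mul_comm]
    _ = _ := by rw [hi, hj]

end loc

section ext

variable (k K : Type) [Field k] [NumberField k] [Field K] [NumberField K] [Algebra k K]

/-- a place above -/
lemma exists_above (v : HeightOneSpectrum (𝓞 k)) : ∃ (w : HeightOneSpectrum (𝓞 K)) (r : ℕ),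
    r ≠ 0 ∧ ∀ x : k, w.valuation K (algebraMap k K x) = v.valuation k x ^ r := by
  obtain ⟨P, hP, hP2⟩ := v.asIdeal.exists_ideal_over_prime_of_isIntegral_of_isDomain (S := 𝓞 K)
    (by
      rw [(RingHom.injective_iff_ker_eq_bot _).mp (FaithfulSMul.algebraMap_injective (𝓞 k) (𝓞 K))]
      exact bot_le)
  have hbot : P ≠ ⊥ := by
    rintro rfl
    apply v.ne_bot
    rw [← hP2]
    exact (RingHom.ker_eq_comap_bot _).symm.trans
      ((RingHom.injective_iff_ker_eq_bot _).mp (FaithfulSMul.algebraMap_injective (𝓞 k) (𝓞 K)))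
  let w : HeightOneSpectrum (𝓞 K) := ⟨P, hP, hbot⟩
  have : w.asIdeal.LiesOver v.asIdeal := ⟨hP2.symm⟩
  exact ⟨w, v.asIdeal.ramificationIdx' w.asIdeal,
    Ideal.IsDedekindDomain.ramificationIdx'_ne_zero_of_liesOver w.asIdeal v.ne_bot,
    fun x => (HeightOneSpectrum.valuation_liesOver K v w x).symm⟩

end ext

end Pool.Agent.H421.QD
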