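import Mathlib
import Pool.Agent.H421.QdA

/-!
# `x ^ d + c`: the finite set of the invariants of quadratic periodic points
-/

set_option autoImplicit false

open Polynomial IsDedekindDomain NumberField

namespace Pool.Agent.H421.QD

open Pool.Agent.H422.UC Pool.Agent.H422.HE Pool.Agent.H421.TW

section glob

variable {k : Type} [Field k] [NumberField k] {d : ℕ} {ζ₀ : k}

/-- three numbers `ζ + ζ⁻¹` -/
noncomputable def R3 {k : Type} [Field k] (ζ₀ : k) : Finset k := by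
  classical exact {ζ₀ ^ 1 + (ζ₀ ^ 1)⁻¹, ζ₀ ^ 2 + (ζ₀ ^ 2)⁻¹, ζ₀ ^ 3 + (ζ₀ ^ 3)⁻¹}

omit [NumberField k] in
lemma R3_mem {r : k} (hζ : IsPrimitiveRoot ζ₀ d) (hd : 6 ≤ d) (hr : r ∈ R3 ζ₀) :
    ∃ ζ : k, ζ ^ d = 1 ∧ ζ ≠ 1 ∧ r = ζ + ζ⁻¹ := by
  classical
  have key : ∀ i : ℕ, 0 < i → i < d → (ζ₀ ^ i) ^ d = 1 ∧ ζ₀ ^ i ≠ 1 := by
    intro i hi hid
    refine ⟨?_, hζ.pow_ne_one_of_pos_of_lt hi.ne' hid⟩
    rw [← pow_mul, mul_comm, pow_mul, hζ.pow_eq_one, one_pow]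
  rw [R3] at hr
  simp only [Finset.mem_insert, Finset.mem_singleton] at hr
  rcases hr with rfl | rfl | rfl
  · exact ⟨_, (key 1 (by omega) (by omega)).1, (key 1 (by omega) (by omega)).2, rfl⟩
  · exact ⟨_, (key 2 (by omega) (by omega)).1, (key 2 (by omega) (by omega)).2, rfl⟩
  · exact ⟨_, (key 3 (by omega) (by omega)).1, (key 3 (by omega) (by omega)).2, rfl⟩

omit [NumberField k] in
lemma R3_ne (hζ : IsPrimitiveRoot ζ₀ d) (hd : 6 ≤ d) {i j : ℕ} (hij : i < j)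
    (hi : 1 ≤ i) (hj : j ≤ 3) : ζ₀ ^ i + (ζ₀ ^ i)⁻¹ ≠ ζ₀ ^ j + (ζ₀ ^ j)⁻¹ := by
  intro h
  have h0 : ζ₀ ≠ 0 := hζ.ne_zero (by omega)
  have hi0 : ζ₀ ^ i ≠ 0 := pow_ne_zero _ h0
  have hj0 : ζ₀ ^ j ≠ 0 := pow_ne_zero _ h0
  have h1 : (ζ₀ ^ i - ζ₀ ^ j) * (ζ₀ ^ (i + j) - 1) = 0 := by
    rw [pow_add]
    field_simp at h
    linear_combination h
  rcases mul_eq_zero.mp h1 with h2 | h2
  · have := hζ.pow_inj (by omega : i < d) (by omega : j < d) (sub_eq_zero.mp h2)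
    omega
  · have := (hζ.pow_eq_one_iff_dvd (i + j)).mp (sub_eq_zero.mp h2)
    have := Nat.le_of_dvd (by omega) this
    omega

omit [NumberField k] in
lemma R3_card (hζ : IsPrimitiveRoot ζ₀ d) (hd : 6 ≤ d) : (R3 ζ₀).card = 3 := by
  classical
  rw [R3]
  rw [Finset.card_insert_of_notMem, Finset.card_insert_of_notMem, Finset.card_singleton]
  · rw [Finset.mem_singleton]
    exact R3_ne hζ hd (by norm_num) (by norm_num) (by norm_num)
  · rw [Finset.mem_insert, Finset.mem_singleton, not_or]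
    exact ⟨R3_ne hζ hd (by norm_num) (by norm_num) (by norm_num),
      R3_ne hζ hd (by norm_num) (by norm_num) (by norm_num)⟩

/-- the finite set -/
def Qset (ζ₀ : k) (d : ℕ) : Set k :=
  {τ | ∀ v ∉ Sbad k d, ∀ r ∈ R3 ζ₀, ∀ s ∈ R3 ζ₀,
    ∃ g, v.valuation k (τ - r) = g ^ (d - 1) * v.valuation k (τ - s)}

lemma Qset_finite (hζ : IsPrimitiveRoot ζ₀ d) (hd : 6 ≤ d) : (Qset ζ₀ d).Finite := by
  apply pow_fin_proj k (Sbad_finite (by omega))
  rw [R3_card hζ hd]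
  omega

lemma mon1 {M : Type*} [CommMonoid M] (V β : M) (n j e : ℕ) :
    (V ^ 2 * (β ^ n) ^ j) ^ e = (V ^ e) ^ 2 * ((β ^ e) ^ n) ^ j := by
  rw [mul_pow]
  simp only [← pow_mul]
  congr 2 <;> ring

lemma mon2 {M : Type*} [CommMonoid M] (V ρ : M) (n j : ℕ) :
    V ^ 2 * ((ρ ^ 2) ^ n) ^ j = (V * (ρ ^ n) ^ j) ^ 2 := by
  rw [mul_pow]
  simp only [← pow_mul]
  congr 2; ring

lemma mon3 {M : Type*} [CommMonoid M] (V ρ : M) (n j e : ℕ) :
    (V * (ρ ^ j) ^ n) ^ e = V ^ e * ((ρ ^ e) ^ n) ^ j := by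
  rw [mul_pow]
  simp only [← pow_mul]
  congr 2; ring

/-- an identity in an ordered group with zero -/
lemma even_case {Γ : Type*} [LinearOrderedCommGroupWithZero Γ] {V β : Γ} {h j : ℕ}
    (H : V ^ 2 * (β ^ (2 * h + 1)) ^ j = 1) : V = (V * β ^ (h * j)) ^ (2 * h + 1) := by
  have h1 : (V * β ^ (h * j)) ^ (2 * h + 1) = V * (V ^ 2 * (β ^ (2 * h + 1)) ^ j) ^ h := by
    rw [mul_pow, mul_pow, pow_succ V, pow_mul, ← pow_mul, ← pow_mul β, ← pow_mul β]
    rw [mul_comm (V ^ (2 * h)) V, mul_assoc, ← pow_mul]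
    congr 3
    ring
  rw [h1, H, one_pow, mul_one]

theorem mem_Qset (hζ : IsPrimitiveRoot ζ₀ d) (hd : 6 ≤ d) {c : k} (K : Type) [Field K]
    [NumberField K] [Algebra k K] {x y : K} (hx : Per (FF d (algebraMap k K c)) x)
    (hy : Per (FF d (algebraMap k K c)) y) (hne : x ≠ y) {a b : k}
    (ha : x + y = algebraMap k K a) (hb : x * y = algebraMap k K b) (hb0 : b ≠ 0) :
    (a ^ 2 - 2 * b) / b ∈ Qset ζ₀ d := by
  intro v hv
  have hd2 : 2 ≤ d := by omega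
  obtain ⟨w, e, he0, hw⟩ := exists_above k K v
  have hζK : IsPrimitiveRoot (algebraMap k K ζ₀) d :=
    hζ.map_of_injective (algebraMap k K).injective
  have : NeZero d := ⟨by omega⟩
  have htame : ∀ ζ : K, ζ ^ d = 1 → ζ ≠ 1 → w.valuation K (1 - ζ) = 1 := by
    intro ζ h h1
    obtain ⟨i, -, hi⟩ := hζK.eq_pow_of_pow_eq_one h
    rw [← map_pow] at hi
    rw [← hi, ← map_one (algebraMap k K), ← map_sub, hw, tame_of hd2 hv (ζ₀ ^ i), one_pow]
    · rw [← pow_mul, mul_comm, pow_mul, hζ.pow_eq_one, one_pow]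
    · intro h2
      apply h1
      rw [← hi, h2, map_one]
  set τ := (a ^ 2 - 2 * b) / b with hτ
  have hbK : algebraMap k K b ≠ 0 := (_root_.map_ne_zero _).mpr hb0
  have key : ∀ η : k, algebraMap k K (τ - η) * (x * y) =
      x ^ 2 + y ^ 2 - algebraMap k K η * (x * y) := by
    intro η
    have h1 : algebraMap k K τ * (x * y) = x ^ 2 + y ^ 2 := by
      rw [hb, ← map_mul, hτ, div_mul_cancel₀ _ hb0, map_sub, map_pow, ← ha, map_mul, ← hb]
      simp only [map_ofNat]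
      ring
    rw [map_sub, sub_mul, h1]
  -- the roots of unity
  have hroot : ∀ r ∈ R3 ζ₀, ∃ ζ : K, ζ ^ d = 1 ∧ ζ ≠ 1 ∧ algebraMap k K r = ζ + ζ⁻¹ := by
    intro r hr
    obtain ⟨ζ, h, h1, rfl⟩ := R3_mem hζ hd hr
    refine ⟨algebraMap k K ζ, by rw [← map_pow, h, map_one], ?_, by rw [map_add, map_inv₀]⟩
    intro h2
    rw [← map_one (algebraMap k K)] at h2
    exact h1 ((algebraMap k K).injective h2)
  rcases le_or_gt (v.valuation k c) 1 with hc | hc
  · -- good places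
    have hcK : w.valuation K (algebraMap k K c) ≤ 1 := by rw [hw]; exact pow_le_one' hc e
    have h1 : ∀ r ∈ R3 ζ₀, v.valuation k (τ - r) ^ e * w.valuation K (x * y) = 1 := by
      intro r hr
      obtain ⟨ζ, h, h1, h2⟩ := hroot r hr
      rw [← hw, ← map_mul, key, h2]
      exact pair_good (w.valuation K) hζK hd2 hcK hx hy hne h h1
    intro r hr s hs
    refine ⟨1, ?_⟩
    rw [one_pow, one_mul]
    have hxy : w.valuation K (x * y) ≠ 0 := by
      rw [hb]; exact (Valuation.ne_zero_iff _).mpr hbK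
    have h2 := mul_right_cancel₀ hxy ((h1 r hr).trans (h1 s hs).symm)
    exact (pow_left_inj₀ zero_le zero_le he0).mp h2
  · -- bad places
    have hcK : 1 < w.valuation K (algebraMap k K c) := by rw [hw]; exact one_lt_pow₀ hc he0
    set ρ := w.valuation K y with hρ
    have hρ1 : 1 < ρ := one_lt_v _ hd2 hcK hy.pre
    have hρ0 : ρ ≠ 0 := ne_of_gt (lt_trans zero_lt_one hρ1)
    have hρx : w.valuation K x = ρ := v_eq _ hd2 hcK hx.pre hy.pre
    have hρb : v.valuation k b ^ e = ρ ^ 2 := by rw [← hw, ← hb, map_mul, hρx, sq]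
    have hρc : ρ ^ d = v.valuation k c ^ e := by rw [← hw]; exact v_pow_eq _ hd2 hcK hy.pre
    have hA : ∀ r ∈ R3 ζ₀, ∃ j : ℕ, v.valuation k (τ - r) ^ e * (ρ ^ (d - 1)) ^ j = 1 := by
      intro r hr
      obtain ⟨ζ, h, h1, h2⟩ := hroot r hr
      obtain ⟨j, hj⟩ := pair_bad (w.valuation K) hζK hd2 hcK htame hx hy hne h
      rw [← h2, ← key, map_mul, map_mul, hρx, hw, ← hρ] at hj
      refine ⟨j, ?_⟩
      have hρρ : ρ * ρ ≠ 0 := mul_ne_zero hρ0 hρ0
      have h3 : (v.valuation k (τ - r) ^ e * (ρ ^ (d - 1)) ^ j) * (ρ * ρ) = 1 * (ρ * ρ) := by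
        rw [one_mul, mul_right_comm, hj, sq]
      exact mul_right_cancel₀ hρρ h3
    have hB : ∀ r ∈ R3 ζ₀, ∃ g, v.valuation k (τ - r) = g ^ (d - 1) ∧ g ≠ 0 := by
      intro r hr
      obtain ⟨j, hj⟩ := hA r hr
      rcases Nat.even_or_odd d with ⟨h, hh⟩ | ⟨h, hh⟩
      · -- `d` even
        obtain ⟨h', hh'⟩ : ∃ h', d - 1 = 2 * h' + 1 := ⟨h - 1, by omega⟩
        rw [hh'] at hj ⊢
        have h2 : (v.valuation k (τ - r) ^ 2 * (v.valuation k b ^ (2 * h' + 1)) ^ j) ^ e = 1 := by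
          rw [mon1, hρb, mon2, hj, one_pow]
        have h3 := (pow_eq_one_iff_of_nonneg zero_le he0).mp h2
        have h4 := even_case h3
        refine ⟨_, h4, ?_⟩
        intro h5
        rw [h5, zero_pow (by omega)] at h4
        rw [h4, zero_pow (by omega), zero_mul] at h3
        exact zero_ne_one h3
      · -- `d` odd
        have hd1 : d - 1 = 2 * h := by omega
        have hcb : v.valuation k (c / b ^ h) ^ e = ρ := by
          rw [map_div₀, map_pow, div_pow, ← hρc, ← pow_mul, mul_comm h e, pow_mul, hρb, ← pow_mul,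
            hh, pow_succ, mul_div_assoc, mul_comm, div_mul_cancel₀]
          exact pow_ne_zero _ hρ0
        have h2 : (v.valuation k (τ - r) * (v.valuation k (c / b ^ h) ^ j) ^ (d - 1)) ^ e = 1 := by
          rw [mon3, hcb, hj]
        have h3 := (pow_eq_one_iff_of_nonneg zero_le he0).mp h2
        refine ⟨(v.valuation k (c / b ^ h) ^ j)⁻¹, ?_, ?_⟩
        · rw [inv_pow]
          exact eq_inv_of_mul_eq_one_left h3
        · intro h5
          rw [inv_eq_zero] at h5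
          rw [h5, zero_pow (by omega), mul_zero] at h3
          exact zero_ne_one h3
    intro r hr s hs
    obtain ⟨g, hg, -⟩ := hB r hr
    obtain ⟨g', hg', hg0⟩ := hB s hs
    refine ⟨g / g', ?_⟩
    rw [hg, hg', div_pow, div_mul_cancel₀ _ (pow_ne_zero _ hg0)]

end glob

end Pool.Agent.H421.QD
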