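import Mathlib
import Pool.Agent.H421.QdB

/-!
# `x ^ d + c`: quadratic preperiodic points over a field with the roots of unity
-/

set_option autoImplicit false

open Polynomial IsDedekindDomain NumberField

namespace Pool.Agent.H421.QD

open Pool.Agent.H422.UC Pool.Agent.H422.HE Pool.Agent.H421.TW

/-! ### transfer to another root of the same quadratic polynomial -/

section transfer

variable {k : Type*} [Field k]

/-- the iterates as polynomials -/
noncomputable def Fit (d : ℕ) (c : k) : ℕ → k[X]
  | 0 => X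
  | n + 1 => (Fit d c n) ^ d + C c

lemma aeval_Fit {K : Type*} [Field K] [Algebra k K] (d : ℕ) (c : k) (n : ℕ) (x : K) :
    aeval x (Fit d c n) = (FF d (algebraMap k K c))^[n] x := by
  induction n with
  | zero => simp [Fit]
  | succ n ih =>
    rw [Function.iterate_succ_apply', ← ih, Fit, map_add, map_pow, aeval_C, FF]

lemma transfer {K : Type*} [Field K] [Algebra k K] {x : K} {a b : k}
    (hx : x ∉ Set.range (algebraMap k K))
    (h : x ^ 2 - algebraMap k K a * x + algebraMap k K b = 0) {P : k[X]} (hP : aeval x P = 0)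
    {K' : Type*} [Field K'] [Algebra k K'] {x' : K'}
    (h' : x' ^ 2 - algebraMap k K' a * x' + algebraMap k K' b = 0) : aeval x' P = 0 := by
  set q : k[X] := X ^ 2 + C (-a) * X + C b with hq
  have hqm : q.Monic := by
    rw [hq]
    monicity!
  have hqd : q.natDegree = 2 := by
    rw [hq]; compute_degree!
  have hq2 : q.degree = 2 := by rw [degree_eq_natDegree hqm.ne_zero, hqd]; rfl
  have evx : aeval x q = x ^ 2 - algebraMap k K a * x + algebraMap k K b := by
    rw [hq]
    simp only [map_add, map_mul, map_pow, aeval_X, aeval_C, map_neg]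
    ring
  have evx' : aeval x' q = x' ^ 2 - algebraMap k K' a * x' + algebraMap k K' b := by
    rw [hq]
    simp only [map_add, map_mul, map_pow, aeval_X, aeval_C, map_neg]
    ring
  have hdec := modByMonic_add_div P q
  have hr : (P %ₘ q).natDegree ≤ 1 := by
    have h1 := degree_modByMonic_lt P hqm
    rw [hq2] at h1
    by_contra hcon
    rw [not_le] at hcon
    have h2 : P %ₘ q ≠ 0 := by
      rintro h0
      rw [h0] at hcon
      simp at hcon
    rw [degree_eq_natDegree h2] at h1
    have : (P %ₘ q).natDegree < 2 := by exact_mod_cast h1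
    omega
  obtain ⟨α, β, hαβ⟩ := exists_eq_X_add_C_of_natDegree_le_one hr
  have h1 : aeval x (P %ₘ q) = 0 := by
    have h2 := congrArg (aeval x) hdec
    rw [map_add, map_mul, evx, h, zero_mul, add_zero, hP] at h2
    exact h2
  rw [hαβ] at h1
  simp only [map_add, map_mul, aeval_C, aeval_X] at h1
  have hα : α = 0 := by
    by_contra hα
    apply hx
    have hα' : algebraMap k K α ≠ 0 := (_root_.map_ne_zero _).mpr hα
    refine ⟨-β / α, ?_⟩
    rw [map_div₀, map_neg, div_eq_iff hα']
    linear_combination -h1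
  subst hα
  have hβ : β = 0 := by
    simpa using h1
  subst hβ
  have h3 := congrArg (aeval x') hdec
  rw [hαβ] at h3
  simp only [map_add, map_mul, evx', h', map_zero, zero_mul, add_zero] at h3
  exact h3.symm

lemma Pre_tr {d : ℕ} {c : k} {K : Type*} [Field K] [Algebra k K] {x : K} {a b : k}
    (hx : x ∉ Set.range (algebraMap k K))
    (h : x ^ 2 - algebraMap k K a * x + algebraMap k K b = 0)
    (hP : Pre (FF d (algebraMap k K c)) x)
    {K' : Type*} [Field K'] [Algebra k K'] {x' : K'}
    (h' : x' ^ 2 - algebraMap k K' a * x' + algebraMap k K' b = 0) :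
    Pre (FF d (algebraMap k K' c)) x' := by
  obtain ⟨m, n, hmn, he⟩ := hP
  refine ⟨m, n, hmn, ?_⟩
  rw [← aeval_Fit, ← aeval_Fit, ← sub_eq_zero, ← map_sub] at he ⊢
  exact transfer hx h he h'

lemma Per_tr {d : ℕ} {c : k} {K : Type*} [Field K] [Algebra k K] {x : K} {a b : k}
    (hx : x ∉ Set.range (algebraMap k K))
    (h : x ^ 2 - algebraMap k K a * x + algebraMap k K b = 0)
    (hP : Per (FF d (algebraMap k K c)) x)
    {K' : Type*} [Field K'] [Algebra k K'] {x' : K'}
    (h' : x' ^ 2 - algebraMap k K' a * x' + algebraMap k K' b = 0) :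
    Per (FF d (algebraMap k K' c)) x' := by
  obtain ⟨n, hn, he⟩ := hP
  refine ⟨n, hn, ?_⟩
  have he2 : (FF d (algebraMap k K c))^[n] x = (FF d (algebraMap k K c))^[0] x := he
  change _ = (FF d (algebraMap k K' c))^[0] x'
  rw [← aeval_Fit, ← aeval_Fit, ← sub_eq_zero, ← map_sub] at he2 ⊢
  exact transfer hx h he2 h'

/-- a root of the polynomial in another field is not in `k` -/
lemma notMem_tr {K : Type*} [Field K] [Algebra k K] {x : K} {a b : k}
    (hx : x ∉ Set.range (algebraMap k K))
    (h : x ^ 2 - algebraMap k K a * x + algebraMap k K b = 0)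
    {K' : Type*} [Field K'] [Algebra k K'] {x' : K'}
    (h' : x' ^ 2 - algebraMap k K' a * x' + algebraMap k K' b = 0) :
    x' ∉ Set.range (algebraMap k K') := by
  rintro ⟨z, rfl⟩
  have h1 : z ^ 2 - a * z + b = 0 := by
    apply (algebraMap k K').injective
    simpa using h'
  have h2 : (x - algebraMap k K z) * (x - algebraMap k K (a - z)) = 0 := by
    have h3 : algebraMap k K (z ^ 2 - a * z + b) = 0 := by rw [h1, map_zero]
    simp only [map_add, map_sub, map_mul, map_pow] at h3 ⊢
    linear_combination h - h3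
  rcases mul_eq_zero.mp h2 with h3 | h3
  · exact hx ⟨z, (sub_eq_zero.mp h3).symm⟩
  · exact hx ⟨a - z, (sub_eq_zero.mp h3).symm⟩

/-- `x` is a root of a monic quadratic polynomial over `k` -/
def IsQ (k : Type*) [Field k] {K : Type*} [Field K] [Algebra k K] (x : K) : Prop :=
  ∃ a b : k, x ^ 2 - algebraMap k K a * x + algebraMap k K b = 0

lemma IsQ.pow {K : Type*} [Field K] [Algebra k K] {x : K} (h : IsQ k x) (n : ℕ) :
    ∃ s t : k, x ^ n = algebraMap k K s + algebraMap k K t * x := by
  obtain ⟨a, b, hab⟩ := h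
  induction n with
  | zero => exact ⟨1, 0, by simp⟩
  | succ n ih =>
    obtain ⟨s, t, hst⟩ := ih
    refine ⟨-(t * b), s + t * a, ?_⟩
    rw [pow_succ, hst]
    simp only [map_add, map_mul, map_neg]
    linear_combination (algebraMap k K t) * hab

lemma IsQ.step {K : Type*} [Field K] [Algebra k K] {x : K} (h : IsQ k x) (d : ℕ) (c : k) :
    IsQ k (FF d (algebraMap k K c) x) := by
  obtain ⟨s, t, hst⟩ := h.pow d
  obtain ⟨a, b, hab⟩ := h
  refine ⟨2 * (s + c) + t * a, (s + c) ^ 2 + (s + c) * t * a + t ^ 2 * b, ?_⟩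
  rw [FF, hst]
  simp only [map_add, map_mul, map_pow, map_ofNat]
  linear_combination (algebraMap k K t) ^ 2 * hab

lemma IsQ.iter {K : Type*} [Field K] [Algebra k K] {x : K} (h : IsQ k x) (d : ℕ) (c : k) (n : ℕ) :
    IsQ k ((FF d (algebraMap k K c))^[n] x) := by
  induction n with
  | zero => exact h
  | succ n ih => rw [Function.iterate_succ_apply']; exact ih.step d c

end transfer

/-! ### superelliptic curves -/

/-- the values of a separable polynomial which are `m`-th powers -/
theorem superell (K : Type) [Field K] [NumberField K] {P : K[X]} (hsep : P.Separable) {m : ℕ}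
    (hm : (4 ≤ m ∧ 3 ≤ P.natDegree) ∨ (3 ≤ m ∧ 4 ≤ P.natDegree) ∨ (2 ≤ m ∧ 5 ≤ P.natDegree)) :
    {x : K | ∃ y, y ^ m = P.eval x}.Finite := by
  classical
  have hP0 : P ≠ 0 := by
    rintro rfl
    simp at hm
  let L := P.SplittingField
  have : NumberField L := NumberField.of_module_finite K L
  let φ := algebraMap K L
  have hsp : (P.map φ).Splits := SplittingField.splits P
  have hPL0 : P.map φ ≠ 0 := by rwa [Ne, Polynomial.map_eq_zero]
  have hnd : (P.map φ).roots.Nodup := nodup_roots hsep.map
  set R := (P.map φ).roots.toFinset with hR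
  have hcard : R.card = P.natDegree := by
    rw [hR, Multiset.toFinset_card_of_nodup hnd, splits_iff_card_roots.mp hsp, natDegree_map]
  have hprod : ∀ w : L, φ P.leadingCoeff * ∏ r ∈ R, (w - r) = (P.map φ).eval w := by
    intro w
    have h1 := hsp.eq_prod_roots
    rw [h1, eval_mul, eval_C, leadingCoeff_map, eval_multiset_prod, Multiset.map_map]
    congr 1
    rw [Finset.prod_multiset_map_count]
    refine Finset.prod_congr rfl fun r hr => ?_
    rw [Multiset.count_eq_one_of_mem hnd (Multiset.mem_toFinset.mp hr), pow_one]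
    simp
  have hbad : ({v : HeightOneSpectrum (𝓞 L) | v.valuation L (φ P.leadingCoeff) ≠ 1} ∪
      ⋃ r ∈ R, ({v : HeightOneSpectrum (𝓞 L) | ¬ v.valuation L r ≤ 1} ∪
        ⋃ s ∈ R, {v : HeightOneSpectrum (𝓞 L) | ¬ (r ≠ s → v.valuation L (r - s) = 1)})).Finite := by
    refine (finite_unit _ ?_).union (R.finite_toSet.biUnion fun r _ => (finite_int r).union ?_)
    · exact (_root_.map_ne_zero _).mpr (leadingCoeff_ne_zero.mpr hP0)
    refine R.finite_toSet.biUnion fun s _ => ?_
    by_cases hrs : r = s
    · simp [hrs]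
    · refine (finite_unit (r - s) (sub_ne_zero.mpr hrs)).subset ?_
      intro v hv h
      exact hv fun _ => h
  have hfin := pow_fin_proj L hbad (m := m) (R := R) (by rw [hcard]; omega)
  refine ((hfin.preimage (f := φ) φ.injective.injOn).union
    (P.roots.toFinset.finite_toSet)).subset ?_
  rintro x ⟨y, hy⟩
  by_cases hx : P.eval x = 0
  · right
    rw [Finset.mem_coe, Multiset.mem_toFinset, mem_roots hP0]
    exact hx
  left
  rw [Set.mem_preimage]
  intro v hv r hr s hs
  simp only [Set.mem_union, Set.mem_iUnion, Set.mem_ofPred_eq, not_or, not_exists, not_not] at hv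
  obtain ⟨hv0, hv1⟩ := hv
  refine factor_pow (v.valuation L) (by omega) (fun r hr => (hv1 r hr).1)
    (fun r hr s hs hrs => (hv1 r hr).2 s hs hrs) hv0 ⟨v.valuation L (φ y), ?_⟩ hr hs ?_
  · rw [hprod, ← map_pow, ← map_pow, hy, eval_map_algebraMap,
      aeval_algebraMap_apply_eq_algebraMap_eval]
  · intro hxs
    apply hx
    rw [hR, Multiset.mem_toFinset, mem_roots hPL0, IsRoot.def, ← hxs, eval_map_algebraMap,
      aeval_algebraMap_apply_eq_algebraMap_eval] at hs
    exact (_root_.map_eq_zero _).mp hs

end Pool.Agent.H421.QD
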