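import Mathlib
import Pool.Agent.H421.QdC

/-!
# `x ^ d + c`: no quadratic preperiodic points for all but finitely many `c`

`k` contains the `d`-th roots of unity.
-/

set_option autoImplicit false

open Polynomial IsDedekindDomain NumberField

namespace Pool.Agent.H421.QD

open Pool.Agent.H422.UC Pool.Agent.H422.HE Pool.Agent.H421.TW

/-- the parameters with two preperiodic points with different `d`-th powers -/
def E0 (K : Type) [Field K] (d : ℕ) : Set K :=
  {c : K | ∃ x y : K, Pre (FF d c) x ∧ Pre (FF d c) y ∧ x ^ d ≠ y ^ d}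

lemma not_E0 {K : Type} [Field K] {d : ℕ} {c : K} (h : c ∉ E0 K d) {x y : K}
    (hx : Pre (FF d c) x) (hy : Pre (FF d c) y) : x ^ d = y ^ d := by
  by_contra hcon
  exact h ⟨x, y, hx, hy, hcon⟩

section

variable {k : Type} [Field k] [NumberField k] {d : ℕ} {ζ₀ : k}

/-- the field of the ratio -/
abbrev KT (τ : k) : Type := (X ^ 2 + C (-τ) * X + C 1 : k[X]).SplittingField

instance (τ : k) : NumberField (KT τ) := NumberField.of_module_finite k (KT τ)

/-- the first part of the exceptional set -/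
def E1 (ζ₀ : k) (d : ℕ) : Set k :=
  ({0} ∪ E0 k d) ∪ ⋃ τ ∈ Qset ζ₀ d, (algebraMap k (KT τ)) ⁻¹' (E0 (KT τ) d)

lemma E1_finite (hζ : IsPrimitiveRoot ζ₀ d) (hd : 6 ≤ d) : (E1 ζ₀ d).Finite := by
  refine ((Set.finite_singleton _).union (finite_exceptional k (by omega))).union
    ((Qset_finite hζ hd).biUnion fun τ _ => ?_)
  exact (finite_exceptional (KT τ) (by omega)).preimage (algebraMap k (KT τ)).injective.injOn

lemma root_of_splits {F L : Type} [Field F] [Field L] [Algebra F L] {a b : F} {q : F[X]}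
    (hq : q = X ^ 2 + C (-a) * X + C b) (hsp : (q.map (algebraMap F L)).Splits) :
    ∃ z : L, z ^ 2 - algebraMap F L a * z + algebraMap F L b = 0 := by
  have hqd : q.natDegree = 2 := by
    rw [hq]; compute_degree!
  obtain ⟨z, hz⟩ := hsp.exists_eval_eq_zero (by
    rw [degree_map]
    intro h
    have := natDegree_eq_zero_iff_degree_le_zero.mpr h.le
    omega)
  refine ⟨z, ?_⟩
  rw [hq] at hz
  simp only [Polynomial.map_add, Polynomial.map_mul, Polynomial.map_pow, map_X, map_C, eval_add,
    eval_mul, eval_pow, eval_X, eval_C] at hz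
  simp only [map_neg] at hz
  linear_combination hz

lemma exists_quad_field (a b : k) : ∃ (K : Type) (_ : Field K) (_ : NumberField K)
    (_ : Algebra k K) (z : K), z ^ 2 - algebraMap k K a * z + algebraMap k K b = 0 := by
  let q : k[X] := X ^ 2 + C (-a) * X + C b
  exact ⟨q.SplittingField, inferInstance, NumberField.of_module_finite k q.SplittingField,
    inferInstance, root_of_splits rfl (SplittingField.splits q)⟩

lemma KT_root (τ : k) : ∃ z : KT τ, z ^ 2 - algebraMap k (KT τ) τ * z + 1 = 0 := by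
  obtain ⟨z, hz⟩ := root_of_splits (L := KT τ) (a := τ) (b := 1) rfl (SplittingField.splits _)
  have h1 : algebraMap k (KT τ) 1 = 1 := map_one _
  exact ⟨z, by linear_combination hz - h1⟩

/-- Periodic points, nonzero trace. -/
theorem per_one (hζ : IsPrimitiveRoot ζ₀ d) (hd : 6 ≤ d) {c : k} (hc : c ∉ E1 ζ₀ d)
    {Ω : Type} [Field Ω] [Algebra k Ω] {x : Ω} {a b : k} (ha : a ≠ 0)
    (hx : x ∉ Set.range (algebraMap k Ω))
    (h : x ^ 2 - algebraMap k Ω a * x + algebraMap k Ω b = 0)
    (hp : Per (FF d (algebraMap k Ω c)) x) : False := by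
  have hd2 : 2 ≤ d := by omega
  have hb : b ≠ 0 := by
    rintro rfl
    rw [map_zero, add_zero] at h
    have h1 : x * (x - algebraMap k Ω a) = 0 := by linear_combination h
    rcases mul_eq_zero.mp h1 with h2 | h2
    · exact hx ⟨0, by rw [map_zero, h2]⟩
    · exact hx ⟨a, (sub_eq_zero.mp h2).symm⟩
  -- the quadratic field
  obtain ⟨K, _, _, _, z, hz⟩ := exists_quad_field a b
  have hzn := notMem_tr hx h hz
  have hz' : (algebraMap k K a - z) ^ 2 - algebraMap k K a * (algebraMap k K a - z) +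
      algebraMap k K b = 0 := by linear_combination hz
  have hzp : Per (FF d (algebraMap k K c)) z := Per_tr hx h hp hz
  have hzp' : Per (FF d (algebraMap k K c)) (algebraMap k K a - z) := Per_tr hx h hp hz'
  have hzne : z ≠ algebraMap k K a - z := by
    intro h1
    apply hzn
    refine ⟨a / 2, ?_⟩
    rw [map_div₀, map_ofNat, div_eq_iff two_ne_zero]
    linear_combination -h1
  have hτ : (a ^ 2 - 2 * b) / b ∈ Qset ζ₀ d :=
    mem_Qset hζ hd K hzp hzp' hzne (a := a) (b := b) (by ring) (by linear_combination -hz) hb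
  set τ := (a ^ 2 - 2 * b) / b with hτdef
  have hab : a ^ 2 = b * (τ + 2) := by
    rw [hτdef]; field_simp; ring
  -- the field of the ratio
  obtain ⟨t, ht1⟩ := KT_root τ
  set r := algebraMap k (KT τ) (b / a) with hr
  set a' := algebraMap k (KT τ) a with ha'
  set b' := algebraMap k (KT τ) b with hb'
  set τ' := algebraMap k (KT τ) τ with hτ'
  have ha0 : a' ≠ 0 := (_root_.map_ne_zero _).mpr ha
  have hra : r * a' = b' := by
    rw [hr, ha', ← map_mul, div_mul_cancel₀ _ ha]
  have hab' : a' ^ 2 = b' * (τ' + 2) := by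
    rw [ha', ← map_pow, hab, map_mul, map_add, map_ofNat]
  have hu : ((t + 1) * r) ^ 2 - a' * ((t + 1) * r) + b' = 0 := by
    have h1 : r ^ 2 * (τ' + 2) = b' := by
      apply mul_left_cancel₀ (pow_ne_zero 2 ha0)
      calc a' ^ 2 * (r ^ 2 * (τ' + 2)) = (r * a') ^ 2 * (τ' + 2) := by ring
        _ = a' ^ 2 * b' := by rw [hra, hab']; ring
    linear_combination (r ^ 2) * ht1 - (t + 1) * hra + t * h1
  have hu' : (a' - (t + 1) * r) ^ 2 - a' * (a' - (t + 1) * r) + b' = 0 := by
    linear_combination hu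
  have hun := notMem_tr hx h hu
  have hup : Per (FF d (algebraMap k (KT τ) c)) ((t + 1) * r) := Per_tr hx h hp hu
  have hup' : Per (FF d (algebraMap k (KT τ) c)) (a' - (t + 1) * r) := Per_tr hx h hp hu'
  have hne : (t + 1) * r ≠ a' - (t + 1) * r := by
    intro h1
    apply hun
    refine ⟨a / 2, ?_⟩
    rw [map_div₀, map_ofNat, div_eq_iff two_ne_zero]
    linear_combination -h1
  have hcE : algebraMap k (KT τ) c ∉ E0 (KT τ) d := by
    intro h1
    apply hc
    right
    simp only [Set.mem_iUnion]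
    exact ⟨τ, hτ, h1⟩
  have hpow := not_E0 hcE hup.pre hup'.pre
  apply hne
  apply per_inj hup hup' (k := 1)
  rw [Function.iterate_one, FF, FF, hpow]

/-- Periodic points. -/
theorem per_none (hζ : IsPrimitiveRoot ζ₀ d) (hd : 6 ≤ d) {c : k} (hc : c ∉ E1 ζ₀ d)
    {Ω : Type} [Field Ω] [Algebra k Ω] {x : Ω} (h : IsQ k x)
    (hp : Per (FF d (algebraMap k Ω c)) x) : x ∈ Set.range (algebraMap k Ω) := by
  by_contra hx
  obtain ⟨a, b, hab⟩ := h
  by_cases ha : a = 0
  swap
  · exact per_one hζ hd hc ha hx hab hp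
  subst ha
  rw [map_zero, zero_mul, sub_zero] at hab
  have hc0 : c ≠ 0 := by
    rintro rfl
    exact hc (Or.inl (Or.inl rfl))
  have : CharZero Ω := charZero_of_injective_algebraMap (algebraMap k Ω).injective
  have hb : b ≠ 0 := by
    rintro rfl
    rw [map_zero, add_zero] at hab
    exact hx ⟨0, by rw [map_zero, (pow_eq_zero_iff two_ne_zero).mp hab]⟩
  have hx0 : x ≠ 0 := by
    rintro rfl
    exact hx ⟨0, map_zero _⟩
  have hx2 : x ^ 2 = algebraMap k Ω (-b) := by rw [map_neg]; linear_combination hab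
  rcases Nat.even_or_odd d with hev | ⟨h, hh⟩
  · have hn : Per (FF d (algebraMap k Ω c)) (-x) := by
      refine Per_tr (a := 0) (b := b) hx (by rw [map_zero, zero_mul, sub_zero]; exact hab) hp ?_
      rw [map_zero, zero_mul, sub_zero, neg_sq]
      exact hab
    have h1 : x = -x := by
      apply per_inj hp hn (k := 1)
      rw [Function.iterate_one, FF, FF, hev.neg_pow]
    apply hx0
    have h2 : (2 : Ω) * x = 0 := by linear_combination h1
    exact (mul_eq_zero.mp h2).resolve_left two_ne_zero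
  · have hxd : x ^ d = x * algebraMap k Ω ((-b) ^ h) := by
      rw [hh, pow_succ, pow_mul, hx2, map_pow]; ring
    have hy : FF d (algebraMap k Ω c) x = x * algebraMap k Ω ((-b) ^ h) + algebraMap k Ω c := by
      rw [FF, hxd]
    have hbh : (-b) ^ h ≠ 0 := pow_ne_zero _ (neg_ne_zero.mpr hb)
    have hbh' : algebraMap k Ω ((-b) ^ h) ≠ 0 := (_root_.map_ne_zero _).mpr hbh
    refine per_one hζ hd hc (a := 2 * c) (b := c ^ 2 + b * ((-b) ^ h) ^ 2)
      (mul_ne_zero two_ne_zero hc0) (x := FF d (algebraMap k Ω c) x) ?_ ?_ hp.step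
    · rintro ⟨z, hz⟩
      apply hx
      refine ⟨(z - c) / (-b) ^ h, ?_⟩
      rw [map_div₀, map_sub, hz, hy, div_eq_iff hbh']
      ring
    · rw [hy]
      simp only [map_add, map_mul, map_pow, map_ofNat, map_neg]
      linear_combination (((-algebraMap k Ω b) ^ h) ^ 2) * hab

/-- the second part of the exceptional set -/
def E2 (k : Type) [Field k] [NumberField k] (d : ℕ) : Set k :=
  ⋃ ζ ∈ rts k d, (fun p => p - p ^ d) '' {p : k | ∃ A : k, A ^ (d / 2) = p ^ d + (ζ - 1) * p}

omit [NumberField k] in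
lemma sep_poly [CharZero k] {n : ℕ} (hn : 1 ≤ n) {e : k} (he : e ≠ 0) :
    (X ^ (n + 1) + C e * X : k[X]).Separable := by
  have h1 : (X ^ (n + 1) + C e * X : k[X]) = (X ^ n - C (-e)) * X := by
    rw [C_neg]; ring
  rw [h1]
  refine Separable.mul ?_ separable_X ?_
  · exact separable_X_pow_sub_C (-e) (Nat.cast_ne_zero.mpr (by omega)) (neg_ne_zero.mpr he)
  · apply coprime_X
    rw [coeff_sub, coeff_X_pow, if_neg (by omega : (0 : ℕ) ≠ n), coeff_C_zero, zero_sub, neg_neg]
    exact he

lemma E2_finite (hd : 6 ≤ d) : (E2 k d).Finite := by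
  refine (rts k d).finite_toSet.biUnion fun ζ hζ' => ?_
  apply Set.Finite.image
  have he : ζ - 1 ≠ 0 := sub_ne_zero.mpr ((mem_rts (by omega)).mp hζ').2
  have hsep := sep_poly (k := k) (n := d - 1) (by omega) he
  have hnd : (X ^ (d - 1 + 1) + C (ζ - 1) * X : k[X]).natDegree = d := by
    rw [natDegree_add_eq_left_of_natDegree_lt, natDegree_X_pow]
    · omega
    · rw [natDegree_C_mul_X _ he, natDegree_X_pow]
      omega
  have hfin := superell k hsep (m := d / 2) (by rw [hnd]; omega)
  refine hfin.subset ?_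
  rintro p ⟨A, hA⟩
  refine ⟨A, ?_⟩
  rw [hA]
  simp only [eval_add, eval_mul, eval_pow, eval_X, eval_C]
  rw [Nat.sub_add_cancel (by omega)]

/-- **No quadratic preperiodic points.** -/
theorem pre_none (hζ : IsPrimitiveRoot ζ₀ d) (hd : 6 ≤ d) {c : k} (hc : c ∉ E1 ζ₀ d ∪ E2 k d)
    {Ω : Type} [Field Ω] [Algebra k Ω] {x : Ω} (h : IsQ k x)
    (hp : Pre (FF d (algebraMap k Ω c)) x) : x ∈ Set.range (algebraMap k Ω) := by
  classical
  rw [Set.mem_union, not_or] at hc
  obtain ⟨hc1, hc2⟩ := hc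
  by_contra hx
  have hd2 : 2 ≤ d := by omega
  have : CharZero Ω := charZero_of_injective_algebraMap (algebraMap k Ω).injective
  have hinj := (algebraMap k Ω).injective
  have hc0 : c ≠ 0 := by
    rintro rfl
    exact hc1 (Or.inl (Or.inl rfl))
  have hcE : c ∉ E0 k d := fun h => hc1 (Or.inl (Or.inr h))
  -- the last point outside `k`
  obtain ⟨k0, hk0⟩ := hp.exists_per
  have hex : ∃ n, (FF d (algebraMap k Ω c))^[n] x ∈ Set.range (algebraMap k Ω) :=
    ⟨k0, per_none hζ hd hc1 (h.iter d c k0) hk0⟩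
  set n := Nat.find hex with hn
  have hns := Nat.find_spec hex
  rw [← hn] at hns
  have hn0 : n ≠ 0 := by
    intro h0
    rw [h0] at hns
    exact hx hns
  obtain ⟨m, hm⟩ : ∃ m, n = m + 1 := ⟨n - 1, by omega⟩
  have hun : (FF d (algebraMap k Ω c))^[m] x ∉ Set.range (algebraMap k Ω) :=
    Nat.find_min hex (by omega)
  have huq : IsQ k ((FF d (algebraMap k Ω c))^[m] x) := h.iter d c m
  have hup : Pre (FF d (algebraMap k Ω c)) ((FF d (algebraMap k Ω c))^[m] x) := hp.iter m
  rw [hm, Function.iterate_succ_apply'] at hns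
  set u := (FF d (algebraMap k Ω c))^[m] x with hu
  obtain ⟨q, hq⟩ := hns
  have hq' : u ^ d + algebraMap k Ω c = algebraMap k Ω q := hq.symm
  obtain ⟨a, b, hab⟩ := huq
  have hu0 : u ≠ 0 := by
    intro h0
    exact hun ⟨0, by rw [map_zero, h0]⟩
  have hζΩ : IsPrimitiveRoot (algebraMap k Ω ζ₀) d := hζ.map_of_injective hinj
  have : NeZero d := ⟨by omega⟩
  have hroot : ∀ η : Ω, η ^ d = 1 → ∃ ζ : k, algebraMap k Ω ζ = η ∧ ζ ^ d = 1 := by
    intro η hη
    obtain ⟨i, -, hi⟩ := hζΩ.eq_pow_of_pow_eq_one hη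
    refine ⟨ζ₀ ^ i, by rw [map_pow, hi], ?_⟩
    rw [← pow_mul, mul_comm, pow_mul, hζ.pow_eq_one, one_pow]
  -- the conjugate
  have hconj : (algebraMap k Ω a - u) ^ d = u ^ d := by
    have h1 : aeval u (X ^ d + C (c - q) : k[X]) = 0 := by
      simp only [map_add, map_pow, aeval_X, aeval_C, map_sub]
      linear_combination hq'
    have h2 := transfer hun hab h1 (x' := algebraMap k Ω a - u) (by linear_combination hab)
    simp only [map_add, map_pow, aeval_X, aeval_C, map_sub] at h2
    linear_combination h2 - hq'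
  have ha : a = 0 := by
    by_contra ha
    obtain ⟨ζ, hζ1, hζ2⟩ := hroot ((algebraMap k Ω a - u) / u) (by
      rw [div_pow, hconj, div_self (pow_ne_zero _ hu0)])
    have h1 : algebraMap k Ω a = (1 + algebraMap k Ω ζ) * u := by
      rw [hζ1]; field_simp; ring
    have h2 : (1 : k) + ζ ≠ 0 := by
      intro h3
      apply ha
      apply hinj
      rw [h1, map_zero, ← map_one (algebraMap k Ω), ← map_add, h3, map_zero, zero_mul]
    apply hun
    refine ⟨a / (1 + ζ), ?_⟩
    rw [map_div₀, h1, map_add, map_one, mul_div_cancel_left₀]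
    rw [← map_one (algebraMap k Ω), ← map_add]
    exact (_root_.map_ne_zero _).mpr h2
  subst ha
  rw [map_zero, zero_mul, sub_zero] at hab
  rw [map_zero, zero_sub] at hconj
  have hu2 : u ^ 2 = algebraMap k Ω (-b) := by rw [map_neg]; linear_combination hab
  have hev : Even d := by
    by_contra hodd
    rw [Nat.not_even_iff_odd] at hodd
    rw [hodd.neg_pow] at hconj
    have h2 : (2 : Ω) * u ^ d = 0 := by linear_combination -hconj
    exact pow_ne_zero d hu0 ((mul_eq_zero.mp h2).resolve_left two_ne_zero)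
  obtain ⟨h', hh'⟩ := hev
  have hud : u ^ d = algebraMap k Ω ((-b) ^ (d / 2)) := by
    have h1 : d = 2 * (d / 2) := by omega
    conv_lhs => rw [h1, pow_mul, hu2, ← map_pow]
  have hqA : (-b) ^ (d / 2) + c = q := by
    apply hinj
    rw [map_add, ← hud, hq']
  -- `q` is preperiodic
  have hqp : Pre (FF d c) q := by
    have h1 := hup.step
    rw [← hq] at h1
    obtain ⟨i, j, hij, he⟩ := h1
    refine ⟨i, j, hij, ?_⟩
    rw [map_iter, map_iter] at he
    exact hinj he
  set p := FF d c q with hp'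
  have hpq : p ^ d = q ^ d := not_E0 hcE hqp.step hqp
  have hpf : FF d c p = p := by
    rw [FF, hpq]; rfl
  have hpc : c = p - p ^ d := by
    have : p ^ d + c = p := hpf
    linear_combination this
  have hp0 : p ≠ 0 := by
    intro h0
    apply hc0
    rw [hpc, h0, zero_pow (by omega), sub_zero]
  have hz1 : (q / p) ^ d = 1 := by
    rw [div_pow, hpq, div_self (pow_ne_zero _ (by
      intro h0
      rw [h0, zero_pow (by omega)] at hpq
      exact pow_ne_zero _ hp0 hpq))]
  have hqz : q = (q / p) * p := by field_simp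
  by_cases h1 : q / p = 1
  · -- `u ^ d = p ^ d`
    rw [h1, one_mul] at hqz
    have h2 : u ^ d = (algebraMap k Ω p) ^ d := by
      rw [hud, ← map_pow]
      congr 1
      linear_combination hqA + hqz - hpc
    have hp0' : algebraMap k Ω p ≠ 0 := (_root_.map_ne_zero _).mpr hp0
    obtain ⟨ζ, hζ1, -⟩ := hroot (u / algebraMap k Ω p) (by
      rw [div_pow, h2, div_self (pow_ne_zero _ hp0')])
    apply hun
    refine ⟨ζ * p, ?_⟩
    rw [map_mul, hζ1, div_mul_cancel₀ _ hp0']
  · apply hc2
    rw [E2]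
    simp only [Set.mem_iUnion]
    refine ⟨q / p, (mem_rts hd2).mpr ⟨hz1, h1⟩, p, ⟨-b, ?_⟩, hpc.symm⟩
    linear_combination hqA + hqz - hpc

end

end Pool.Agent.H421.QD
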