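import Mathlib
import Pool.Agent.H421.QdD

/-!
# `x ^ d + c`: quadratic preperiodic points over any number field
-/

set_option autoImplicit false

open Polynomial IsDedekindDomain NumberField

namespace Pool.Agent.H421.QD

open Pool.Agent.H422.UC Pool.Agent.H422.HE Pool.Agent.H421.TW

/-! ### finiteness for one parameter -/

lemma int_of_pre (K : Type) [Field K] [NumberField K] {d : ℕ} (hd : 2 ≤ d) {c α x : K}
    (hα : IsIntegral ℤ α) (hαc : IsIntegral ℤ (α * c)) (hx : Pre (FF d c) x) :
    IsIntegral ℤ (α * x) := by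
  have hle : ∀ (v : HeightOneSpectrum (𝓞 K)) {z : K}, IsIntegral ℤ z → v.valuation K z ≤ 1 :=
    fun v z hz => v.valuation_le_one (⟨z, hz⟩ : 𝓞 K)
  have hint : ∀ v : HeightOneSpectrum (𝓞 K), v.valuation K (α * x) ≤ 1 := by
    intro v
    have va : v.valuation K α ≤ 1 := hle v hα
    have vac : v.valuation K (α * c) ≤ 1 := hle v hαc
    rcases le_or_gt (v.valuation K x) 1 with h1 | h1
    · rw [map_mul]; exact mul_le_one' va h1
    · have h2 : v.valuation K x ^ d ≤ v.valuation K c := by
        by_contra hcon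
        rw [not_le] at hcon
        exact Pool.Agent.H422.UC.not_escape (v.valuation K) hd hx ⟨h1, hcon⟩
      have h3 : v.valuation K (α * x) ^ d ≤ 1 := by
        rw [map_mul, mul_pow]
        calc v.valuation K α ^ d * v.valuation K x ^ d
            ≤ v.valuation K α ^ d * v.valuation K c := mul_le_mul' le_rfl h2
          _ = v.valuation K α ^ (d - 1) * v.valuation K (α * c) := by
              rw [map_mul, ← mul_assoc, ← pow_succ]
              congr 2
              omega
          _ ≤ 1 * 1 := mul_le_mul' (pow_le_one' va _) vac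
          _ = 1 := one_mul _
      by_contra hcon
      rw [not_le] at hcon
      exact absurd h3 (not_le.mpr (one_lt_pow₀ hcon (by omega)))
  obtain ⟨y, hy⟩ := HeightOneSpectrum.mem_integers_of_valuation_le_one K (α * x) hint
  rw [← hy]
  exact y.isIntegral_coe

lemma isIntegral_of_map {k K : Type} [Field k] [Field K] [Algebra k K] {z : k}
    (h : IsIntegral ℤ (algebraMap k K z)) : IsIntegral ℤ z :=
  (isIntegral_algHom_iff ((algebraMap k K).toIntAlgHom) (algebraMap k K).injective).mp h

/-- **Northcott** for the quadratic preperiodic points of one polynomial -/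
theorem northcott2 (k : Type) [Field k] [NumberField k] {d : ℕ} (hd : 2 ≤ d) (c : k)
    (Ω : Type) [Field Ω] [Algebra k Ω] :
    {x : Ω | IsQ k x ∧ Pre (FF d (algebraMap k Ω c)) x}.Finite := by
  classical
  obtain ⟨p, q, hq, hpq⟩ := IsFractionRing.div_surjective (A := 𝓞 k) c
  have hq0 : q ≠ 0 := nonZeroDivisors.ne_zero hq
  set α := algebraMap (𝓞 k) k q with hα
  have hα0 : α ≠ 0 := by simpa [hα] using hq0
  have hαi : IsIntegral ℤ α := q.isIntegral_coe
  have hαc : IsIntegral ℤ (α * c) := by
    have : α * c = algebraMap (𝓞 k) k p := by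
      rw [← hpq]; field_simp
    rw [this]; exact p.isIntegral_coe
  set B : ℝ := ∑ φ : k →+* ℂ, (‖φ α‖ * (2 * (1 + ‖φ c‖)) + (‖φ α‖ * (1 + ‖φ c‖)) ^ 2) with hB
  have hBφ : ∀ φ : k →+* ℂ, ‖φ α‖ * (2 * (1 + ‖φ c‖)) + (‖φ α‖ * (1 + ‖φ c‖)) ^ 2 ≤ B := by
    intro φ
    rw [hB]
    exact Finset.single_le_sum
      (f := fun φ : k →+* ℂ => ‖φ α‖ * (2 * (1 + ‖φ c‖)) + (‖φ α‖ * (1 + ‖φ c‖)) ^ 2)
      (fun φ _ => by positivity) (Finset.mem_univ φ)
  have hfin := NumberField.Embeddings.finite_of_norm_le k ℂ B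
  have hA : {a : k | α * a ∈ {x : k | IsIntegral ℤ x ∧ ∀ φ : k →+* ℂ, ‖φ x‖ ≤ B}}.Finite :=
    hfin.preimage (f := fun a => α * a) (mul_right_injective₀ hα0).injOn
  have hB2 : {b : k | α ^ 2 * b ∈ {x : k | IsIntegral ℤ x ∧ ∀ φ : k →+* ℂ, ‖φ x‖ ≤ B}}.Finite :=
    hfin.preimage (f := fun b => α ^ 2 * b) (mul_right_injective₀ (pow_ne_zero 2 hα0)).injOn
  -- the points in `k`
  have h0 : (algebraMap k Ω '' {x : k | Pre (FF d c) x}).Finite := (northcott k hd c).image _
  -- the roots of the quadratic polynomials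
  have hroots : ∀ a b : k, {x : Ω | x ^ 2 - algebraMap k Ω a * x + algebraMap k Ω b = 0}.Finite := by
    intro a b
    set Q : Polynomial Ω := X ^ 2 + C (-algebraMap k Ω a) * X + C (algebraMap k Ω b) with hQ
    have hQm : Q.Monic := by rw [hQ]; monicity!
    refine (Q.roots.toFinset.finite_toSet).subset ?_
    intro x hx
    rw [Finset.mem_coe, Multiset.mem_toFinset, mem_roots hQm.ne_zero, IsRoot.def, hQ]
    simp only [eval_add, eval_mul, eval_pow, eval_X, eval_C]
    have hx' : x ^ 2 - algebraMap k Ω a * x + algebraMap k Ω b = 0 := hx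
    linear_combination hx'
  refine (h0.union (hA.biUnion fun a _ => hB2.biUnion fun b _ => hroots a b)).subset ?_
  rintro x ⟨⟨a, b, hab⟩, hx⟩
  by_cases hr : x ∈ Set.range (algebraMap k Ω)
  · left
    obtain ⟨z, rfl⟩ := hr
    refine ⟨z, ?_, rfl⟩
    obtain ⟨m, n, hmn, he⟩ := hx
    refine ⟨m, n, hmn, ?_⟩
    rw [map_iter, map_iter] at he
    exact (algebraMap k Ω).injective he
  right
  simp only [Set.mem_iUnion]
  obtain ⟨K, _, _, _, z, hz⟩ := exists_quad_field a b
  have hz' : (algebraMap k K a - z) ^ 2 - algebraMap k K a * (algebraMap k K a - z) +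
      algebraMap k K b = 0 := by linear_combination hz
  have hp := Pre_tr hr hab hx hz
  have hp' := Pre_tr hr hab hx hz'
  have i1 : IsIntegral ℤ (algebraMap k K α) := hαi.map (algebraMap k K).toIntAlgHom
  have i2 : IsIntegral ℤ (algebraMap k K α * algebraMap k K c) := by
    rw [← map_mul]; exact hαc.map (algebraMap k K).toIntAlgHom
  have j1 := int_of_pre K hd i1 i2 hp
  have j2 := int_of_pre K hd i1 i2 hp'
  have habz : z * (algebraMap k K a - z) = algebraMap k K b := by linear_combination -hz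
  refine ⟨a, ⟨?_, ?_⟩, b, ⟨?_, ?_⟩, hab⟩
  · apply isIntegral_of_map (K := K)
    have : algebraMap k K (α * a) = algebraMap k K α * z +
        algebraMap k K α * (algebraMap k K a - z) := by rw [map_mul]; ring
    rw [this]; exact j1.add j2
  · intro φ
    letI := φ.toAlgebra
    let ψ : K →ₐ[k] ℂ := IsAlgClosed.lift
    have hψ : ∀ t : k, ψ (algebraMap k K t) = φ t := fun t => ψ.commutes t
    have b1 := arch_bound hd (hp.map (ψ : K →+* ℂ))
    have b2 := arch_bound hd (hp'.map (ψ : K →+* ℂ))
    simp only [RingHom.coe_coe] at b1 b2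
    rw [hψ] at b1 b2
    have h1 : φ (α * a) = φ α * (ψ z + ψ (algebraMap k K a - z)) := by
      rw [← map_add, map_mul]
      congr 1
      rw [← hψ a]; congr 1; ring
    rw [h1, norm_mul]
    have h2 : ‖ψ z + ψ (algebraMap k K a - z)‖ ≤ 2 * (1 + ‖φ c‖) := by
      refine (norm_add_le _ _).trans ?_
      linarith
    refine le_trans ?_ (hBφ φ)
    have h3 := mul_le_mul_of_nonneg_left h2 (norm_nonneg (φ α))
    have h4 : 0 ≤ (‖φ α‖ * (1 + ‖φ c‖)) ^ 2 := by positivity
    linarith
  · apply isIntegral_of_map (K := K)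
    have : algebraMap k K (α ^ 2 * b) = (algebraMap k K α * z) *
        (algebraMap k K α * (algebraMap k K a - z)) := by
      rw [map_mul, ← habz, map_pow]; ring
    rw [this]; exact j1.mul j2
  · intro φ
    letI := φ.toAlgebra
    let ψ : K →ₐ[k] ℂ := IsAlgClosed.lift
    have hψ : ∀ t : k, ψ (algebraMap k K t) = φ t := fun t => ψ.commutes t
    have b1 := arch_bound hd (hp.map (ψ : K →+* ℂ))
    have b2 := arch_bound hd (hp'.map (ψ : K →+* ℂ))
    simp only [RingHom.coe_coe] at b1 b2
    rw [hψ] at b1 b2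
    have h1 : φ (α ^ 2 * b) = φ α ^ 2 * (ψ z * ψ (algebraMap k K a - z)) := by
      rw [← map_mul, map_mul φ, map_pow, habz, hψ b]
    rw [h1, norm_mul, norm_mul, norm_pow]
    refine le_trans ?_ (hBφ φ)
    have h2 : ‖ψ z‖ * ‖ψ (algebraMap k K a - z)‖ ≤ (1 + ‖φ c‖) * (1 + ‖φ c‖) :=
      mul_le_mul b1 b2 (norm_nonneg _) (by positivity)
    have h3 := mul_le_mul_of_nonneg_left h2 (sq_nonneg ‖φ α‖)
    have h4 : 0 ≤ ‖φ α‖ * (2 * (1 + ‖φ c‖)) := by positivity
    nlinarith

/-! ### all parameters -/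

section

variable (k : Type) [Field k] [NumberField k] {d : ℕ}

/-- **Structure of the set of the quadratic preperiodic points.** -/
theorem gen_struct (hd : 6 ≤ d) : ∃ E : Set k, E.Finite ∧ ∀ c ∉ E,
    (∀ (Ω : Type) [Field Ω] [Algebra k Ω] (x : Ω), IsQ k x →
      ¬ Pre (FF d (algebraMap k Ω c)) x) ∨
    ∃ p : k, p ^ d + c = p ∧ ∀ (Ω : Type) [Field Ω] [Algebra k Ω] (x : Ω), IsQ k x →
      (Pre (FF d (algebraMap k Ω c)) x ↔ x ^ d + algebraMap k Ω c = algebraMap k Ω p) := by
  classical
  have : NeZero d := ⟨by omega⟩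
  have : NeZero ((d : ℕ) : k) := ⟨Nat.cast_ne_zero.mpr (by omega)⟩
  let L := CyclotomicField d k
  have hζ := IsCyclotomicExtension.zeta_spec d k L
  set ζ₀ := IsCyclotomicExtension.zeta d k L with hζ₀
  refine ⟨(algebraMap k L) ⁻¹' (E1 ζ₀ d ∪ E2 L d),
    ((E1_finite hζ hd).union (E2_finite hd)).preimage (algebraMap k L).injective.injOn, ?_⟩
  intro c hc
  rw [Set.mem_preimage] at hc
  have hcE : algebraMap k L c ∉ E0 L d := fun h => hc (Or.inl (Or.inl (Or.inr h)))
  have hinj := (algebraMap k L).injective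
  -- the points over `k`
  have caseA : ∀ z : k, Pre (FF d c) z → Pre (FF d (algebraMap k L c)) (algebraMap k L z) :=
    fun z hz => hz.map _
  have pre_of_range : ∀ (Ω : Type) [Field Ω] [Algebra k Ω] (z : k),
      Pre (FF d (algebraMap k Ω c)) (algebraMap k Ω z) → Pre (FF d c) z := by
    intro Ω _ _ z hz
    obtain ⟨m, n, hmn, he⟩ := hz
    refine ⟨m, n, hmn, ?_⟩
    rw [map_iter, map_iter] at he
    exact (algebraMap k Ω).injective he
  -- the quadratic points
  have caseB : ∀ (Ω : Type) [Field Ω] [Algebra k Ω] (x : Ω) (a b : k),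
      x ∉ Set.range (algebraMap k Ω) →
      x ^ 2 - algebraMap k Ω a * x + algebraMap k Ω b = 0 → Pre (FF d (algebraMap k Ω c)) x →
      ∃ y : L, Pre (FF d (algebraMap k L c)) y ∧
        y ^ 2 - algebraMap k L a * y + algebraMap k L b = 0 := by
    intro Ω _ _ x a b hx hab hp
    let q : L[X] := X ^ 2 + C (-(algebraMap k L a)) * X + C (algebraMap k L b)
    obtain ⟨z, hz⟩ := root_of_splits (L := q.SplittingField) (q := q) rfl
      (SplittingField.splits q)
    let W := q.SplittingField
    let _ : Algebra k W := ((algebraMap L W).comp (algebraMap k L)).toAlgebra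
    have hW : ∀ t : k, algebraMap k W t = algebraMap L W (algebraMap k L t) := fun t => rfl
    have hz1 : z ^ 2 - algebraMap k W a * z + algebraMap k W b = 0 := by
      rw [hW, hW]; exact hz
    have hzp := Pre_tr hx hab hp hz1
    rw [hW] at hzp
    obtain ⟨y, hy⟩ := pre_none hζ hd hc ⟨_, _, hz⟩ hzp
    refine ⟨y, ?_, ?_⟩
    · rw [← hy] at hzp
      obtain ⟨m, n, hmn, he⟩ := hzp
      refine ⟨m, n, hmn, ?_⟩
      rw [map_iter, map_iter] at he
      exact (algebraMap L W).injective he
    · apply (algebraMap L W).injective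
      rw [map_zero, ← hz, ← hy]
      simp only [map_add, map_sub, map_mul, map_pow]
      rfl
  by_cases hex : ∃ y : L, Pre (FF d (algebraMap k L c)) y
  · right
    obtain ⟨y, hy⟩ := hex
    set p := FF d (algebraMap k L c) y with hp
    have hpp : Pre (FF d (algebraMap k L c)) p := hy.step
    have hpf : FF d (algebraMap k L c) p = p := by
      rw [FF, not_E0 hcE hpp hy]; rfl
    have hpfix : ∀ σ : L ≃ₐ[k] L, σ p = p := by
      intro σ
      have h1 : Pre (FF d (algebraMap k L c)) (σ p) := by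
        have := hpp.map (σ : L →+* L)
        simpa using this
      have h2 : FF d (algebraMap k L c) (σ p) = σ p := by
        have h3 : σ (FF d (algebraMap k L c) p) = FF d (algebraMap k L c) (σ p) := by
          simp only [FF, map_add, map_pow, AlgEquiv.commutes]
        rw [← h3, hpf]
      rw [← h2, FF, not_E0 hcE h1 hpp]
      exact hpf
    have : IsGalois k L := IsCyclotomicExtension.isGalois {d} k L
    obtain ⟨p0, hp0⟩ := (IsGalois.mem_range_algebraMap_iff_fixed p).mpr hpfix
    have hp0f : p0 ^ d + c = p0 := by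
      apply hinj
      rw [map_add, map_pow, hp0]
      exact hpf
    refine ⟨p0, hp0f, ?_⟩
    intro Ω _ _ x hxq
    constructor
    · intro hx
      by_cases hr : x ∈ Set.range (algebraMap k Ω)
      · obtain ⟨z, rfl⟩ := hr
        have h1 := caseA z (pre_of_range Ω z hx)
        have h2 : z ^ d + c = p0 := by
          apply hinj
          rw [map_add, map_pow, not_E0 hcE h1 hy, hp0]
          rfl
        rw [← h2, map_add, map_pow]
      · obtain ⟨a, b, hab⟩ := hxq
        obtain ⟨y', hy', hab'⟩ := caseB Ω x a b hr hab hx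
        have hr' : y' ∉ Set.range (algebraMap k L) := notMem_tr hr hab hab'
        have h1 : aeval y' (X ^ d + C (c - p0) : k[X]) = 0 := by
          simp only [map_add, map_pow, aeval_X, aeval_C, map_sub]
          rw [not_E0 hcE hy' hy, hp0, hp, FF]
          ring
        have h2 := transfer hr' hab' h1 hab
        simp only [map_add, map_pow, aeval_X, aeval_C, map_sub] at h2
        linear_combination h2
    · intro hx
      apply Pre.of_step
      have h1 : FF d (algebraMap k Ω c) x = algebraMap k Ω p0 := hx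
      rw [h1]
      refine ⟨0, 1, by omega, ?_⟩
      rw [Function.iterate_one, Function.iterate_zero, id, FF, ← map_pow, ← map_add, hp0f]
  · left
    intro Ω _ _ x hxq hx
    by_cases hr : x ∈ Set.range (algebraMap k Ω)
    · obtain ⟨z, rfl⟩ := hr
      exact hex ⟨_, caseA z (pre_of_range Ω z hx)⟩
    · obtain ⟨a, b, hab⟩ := hxq
      obtain ⟨y, hy, -⟩ := caseB Ω x a b hr hab hx
      exact hex ⟨y, hy⟩

/-- **Uniform bound.** -/
theorem gen_bound (hd : 6 ≤ d) (Ω : Type) [Field Ω] [Algebra k Ω] :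
    ∃ B : ℕ, ∀ c : k, {x : Ω | IsQ k x ∧ Pre (FF d (algebraMap k Ω c)) x}.ncard ≤ B := by
  classical
  obtain ⟨E, hE, hs⟩ := gen_struct k hd
  have hd2 : 2 ≤ d := by omega
  refine ⟨(∑ c ∈ hE.toFinset,
    {x : Ω | IsQ k x ∧ Pre (FF d (algebraMap k Ω c)) x}.ncard) + d, ?_⟩
  intro c
  by_cases hc : c ∈ E
  · have := Finset.single_le_sum
      (f := fun c => {x : Ω | IsQ k x ∧ Pre (FF d (algebraMap k Ω c)) x}.ncard)
      (fun _ _ => Nat.zero_le _) (hE.mem_toFinset.mpr hc)
    omega
  · rcases hs c hc with h | ⟨p, -, h⟩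
    · have : {x : Ω | IsQ k x ∧ Pre (FF d (algebraMap k Ω c)) x} = ∅ := by
        ext x
        simp only [Set.mem_ofPred_eq, Set.mem_empty_iff_false, iff_false]
        rintro ⟨h1, h2⟩
        exact h Ω x h1 h2
      rw [this, Set.ncard_empty]
      omega
    · have hsub : {x : Ω | IsQ k x ∧ Pre (FF d (algebraMap k Ω c)) x} ⊆
          ((X ^ d - C (algebraMap k Ω p - algebraMap k Ω c) : Polynomial Ω).roots.toFinset : Set Ω) := by
        rintro x ⟨h1, h2⟩
        rw [Finset.mem_coe, Multiset.mem_toFinset,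
          mem_roots (monic_X_pow_sub_C _ (by omega)).ne_zero, IsRoot.def]
        simp only [eval_sub, eval_pow, eval_X, eval_C]
        rw [← (h Ω x h1).mp h2]
        ring
      have h1 := Set.ncard_le_ncard hsub (Finset.finite_toSet _)
      rw [Set.ncard_coe_finset] at h1
      have h2 := (Multiset.toFinset_card_le
        (X ^ d - C (algebraMap k Ω p - algebraMap k Ω c) : Polynomial Ω).roots).trans (card_roots' _)
      rw [natDegree_X_pow_sub_C] at h2
      omega

end

lemma isQ_of_natDegree {k Ω : Type} [Field k] [Field Ω] [Algebra k Ω] {x : Ω}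
    (hi : IsIntegral k x) (h : (minpoly k x).natDegree ≤ 2) : IsQ k x := by
  have h1 := minpoly.natDegree_pos hi
  have hm := minpoly.monic hi
  have h0 := minpoly.aeval k x
  rw [aeval_eq_sum_range] at h0
  obtain h2 | h2 : (minpoly k x).natDegree = 1 ∨ (minpoly k x).natDegree = 2 := by omega
  · rw [h2, Finset.sum_range_succ, Finset.sum_range_one] at h0
    have h3 : (minpoly k x).coeff 1 = 1 := by rw [← h2]; exact hm.coeff_natDegree
    rw [h3] at h0
    simp only [Algebra.smul_def, pow_zero, mul_one, map_one, one_mul, pow_one] at h0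
    set z := (minpoly k x).coeff 0
    refine ⟨-2 * z, z ^ 2, ?_⟩
    simp only [map_mul, map_neg, map_pow, map_ofNat]
    linear_combination (x + algebraMap k Ω z) * h0
  · rw [h2, Finset.sum_range_succ, Finset.sum_range_succ, Finset.sum_range_one] at h0
    have h3 : (minpoly k x).coeff 2 = 1 := by rw [← h2]; exact hm.coeff_natDegree
    rw [h3] at h0
    simp only [Algebra.smul_def, pow_zero, mul_one, map_one, one_mul, pow_one] at h0
    refine ⟨-(minpoly k x).coeff 1, (minpoly k x).coeff 0, ?_⟩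
    rw [map_neg]
    linear_combination h0

end Pool.Agent.H421.QD
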